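import Pool.Agent.H760.MX.Fin
import Pool.Graph.R_pool_sql_team_seeded_3997aac3.Q99.HU.Asm

/-!
# Partially augmented planar shadows: a sufficient condition

Adapted from `Q239/HU/RL.lean` and `Q239/HU/BAL.lean`.
-/

set_option autoImplicit false

namespace Pool.Agent.H760.MX

open Finset Filter Topology
open Pool.Agent.Q99.FAL (hh Pc Val Pri Pos AS Sol Out c6 fV n1 n2 cor dn IsLat toR)
open Pool.Agent.Q99.HT Pool.Agent.Q99.HU Pool.Agent.Q206.HT
open Pool.Agent.Q224.FAL (Sol_cor sol_add sol_smul sol_cast lat)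
open Pool.Agent.Q237.FAL (task_SO task_OZ task_SUR task_NC)
open Pool.Agent.Q239.HU
open Pool.Agent.Q208.HT

/-- **the tangent plane**, for points in the inner part -/
theorem RLn (α : Fin 6 → ℝ) (hF : Fr α) (x : Fin 6 → ℝ) (hx : Vl α x) (c0 : x 0 ≤ n2 x)
    (c3 : x 3 ≤ n1 x) (hne : x ≠ α) : pt x < v0 α + mR α ![x 0, x 1 + x 4, x 3] := by
  obtain ⟨C, hC, hD⟩ := Pool.Agent.Q151.HU.task_LBD
  obtain ⟨Ca, κa, hκa, hGa⟩ := Pool.Agent.Q166.HT.task_TG t_T1 α hF
  have key : ∃ κ : ℝ, 0 < κ ∧ pt x ≤ Gx α κ x := by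
    refine ⟨κa, hκa, ?_⟩
    -- the limit
    have hseq : Tendsto (fun k : ℕ => fun i => (1 - 1 / ((k : ℝ) + 1)) * x i +
        1 / ((k : ℝ) + 1) * α i) atTop (𝓝 x) := by
      rw [tendsto_pi_nhds]
      intro i
      have h1 := tendsto_one_div_add_atTop_nhds_zero_nat (𝕜 := ℝ)
      have h2 := ((h1.const_sub 1).mul_const (x i)).add (h1.mul_const (α i))
      simpa using h2
    refine le_of_tendsto_of_tendsto ((pt_cont.tendsto x).comp hseq)
      (((Gx_cont α κa).tendsto x).comp hseq) (Eventually.of_forall fun k => ?_)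
    have t0 : 0 < 1 / ((k : ℝ) + 1) := by positivity
    have t1 : 1 / ((k : ℝ) + 1) ≤ 1 := by
      rw [div_le_one (by positivity)]
      have : (0 : ℝ) ≤ k := Nat.cast_nonneg k
      linarith
    obtain ⟨t, ht⟩ : ∃ t, t = 1 / ((k : ℝ) + 1) := ⟨_, rfl⟩
    show pt (fun i => (1 - 1 / ((k : ℝ) + 1)) * x i + 1 / ((k : ℝ) + 1) * α i) ≤
      Gx α κa (fun i => (1 - 1 / ((k : ℝ) + 1)) * x i + 1 / ((k : ℝ) + 1) * α i)
    rw [← ht] at t0 t1 ⊢
    have l0 := (lt_half hF).1
    have l3 := (lt_half hF).2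
    refine core_a hC hD hGa (seg_Vl hF hx t0.le t1) ?_ ?_
    · have c0' : x 0 ≤ x 3 + x 4 + x 5 := c0
      have s2 := hF.s2
      show (1 - t) * x 0 + t * α 0 < (1 - t) * x 3 + t * α 3 + ((1 - t) * x 4 + t * α 4) +
        ((1 - t) * x 5 + t * α 5)
      have e : (1 - t) * x 3 + t * α 3 + ((1 - t) * x 4 + t * α 4) + ((1 - t) * x 5 + t * α 5) =
        (1 - t) * (x 3 + x 4 + x 5) + t * (α 3 + α 4 + α 5) := by ring
      rw [e, s2]
      have e1 : (1 - t) * x 0 ≤ (1 - t) * (x 3 + x 4 + x 5) :=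
        mul_le_mul_of_nonneg_left c0' (by linarith)
      have e2 : t * α 0 < t * (1 / 2) := mul_lt_mul_of_pos_left l0 t0
      linarith
    · have c3' : x 3 ≤ x 0 + x 1 + x 2 := c3
      have s1 := hF.s1
      show (1 - t) * x 3 + t * α 3 < (1 - t) * x 0 + t * α 0 + ((1 - t) * x 1 + t * α 1) +
        ((1 - t) * x 2 + t * α 2)
      have e : (1 - t) * x 0 + t * α 0 + ((1 - t) * x 1 + t * α 1) + ((1 - t) * x 2 + t * α 2) =
        (1 - t) * (x 0 + x 1 + x 2) + t * (α 0 + α 1 + α 2) := by ring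
      rw [e, s1]
      have e1 : (1 - t) * x 3 ≤ (1 - t) * (x 0 + x 1 + x 2) :=
        mul_le_mul_of_nonneg_left c3' (by linarith)
      have e2 : t * α 3 < t * (1 / 2) := mul_lt_mul_of_pos_left l3 t0
      linarith
  obtain ⟨κ, hκ, hle⟩ := key
  rw [Gx_eq] at hle
  have := mul_pos hκ (Ex_pos hF hx hne)
  linarith

/-- **a sufficient condition for `Dmx`** -/
theorem BALx (D : List Pc) (hV : Val D 1) (hP : Pri D 1) (hD : D ≠ [])
    (cc : Fin D.length → Bool) (a : Fin D.length → Fin 6 → ℝ) (ha : Mx D a)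
    (hBal : ∀ s, cc s = false → Bal (bf (decide (a s 1 ≤ a s 2)) (a s))) : Dmx D cc a := by
  classical
  intro x hx hnb hsol hne
  have hRL : RLc := task_RL Pool.Agent.Q151.HU.task_LBD Pool.Agent.Q166.HT.task_TG task_TG6
    Pool.Agent.Q299.HU.task_HIM t_T1
  obtain ⟨d, β, Y, hY⟩ := Pool.Agent.Q206.HT.task_NE D hV hP hD a ha
  obtain ⟨hOk, -, hv⟩ := task_NOb D hV hP hD a ha d β Y hY
  have hp := ha.1
  have hpz := outer_iff hV hp
  have hout : ∀ k i, Out D 1 k (c6 i) → x k i = 0 := fun k i h =>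
    task_OZ.1 D 1 hV x [0, 0] 1 rfl (by simp) hx hsol k i h
  have hβ : ∀ s, β s = decide (a s 1 ≤ a s 2) := by
    intro s
    rw [Bool.eq_iff_iff, hY.be s, decide_eq_true_iff]
  have hsum := ((task_SO.1 ℝ D x [0, 0] 1).mp hsol).1
  have hasum := ((task_SO.1 ℝ D a [0, 0] 1).mp hp.sol).1
  have hn2 : ∀ k, n2 (a k) = 1 / 2 := by
    intro k
    have e1 := hp.half k
    have e2 := hasum k
    linarith
  have hxa : ∀ s i, a s i = 0 → x s i = 0 := fun s i h => hout s i ((hpz s i).1 h)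
  have hB : ∀ s, cc s = false → Bal (Y.α s) := by
    intro s hs
    rw [hY.al, hβ]
    exact hBal s hs
  have key : ∀ s, x s ≠ a s →
      pt (x s) < v0 (Y.α s) + mR (Y.α s) (qc (bf (β s) (x s))) := by
    intro s hs
    rw [← pt_bf (β s) (x s)]
    have hz : ∀ i, Y.α s i = 0 → bf (β s) (x s) i = 0 := by
      intro i hi
      rw [hY.al] at hi
      exact bf_zero (β s) (hxa s) i hi
    have g1 : n1 (bf (β s) (x s)) + n2 (bf (β s) (x s)) = 1 := by
      rw [n1_bf, n2_bf]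
      exact hsum s
    have g2 : Y.α s 1 = 0 → bf (β s) (x s) 1 = 0 ∧ bf (β s) (x s) 4 = 0 := by
      intro h1
      exact ⟨hz 1 h1, hz 4 (((hOk.fr s).z14).1 h1)⟩
    have g3 : bf (β s) (x s) ≠ Y.α s := by
      intro h
      apply hs
      rw [hY.al] at h
      rw [← bf_bf (β s) (x s), h, bf_bf]
    cases hc : cc s
    · exact hRL (Y.α s) (hOk.fr s) (hB s hc) (bf (β s) (x s)) (bf_nonneg _ (hx s)) g1 (hz 0) g2
        (hz 3) g3
    · have g4 := Nbd_bf (β := β s) (hnb s) hc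
      exact RLn (Y.α s) (hOk.fr s) (bf (β s) (x s))
        ⟨bf_nonneg _ (hx s), g1, hz 0, g2, hz 3⟩ g4.1 g4.2 g3
  have key2 : ∀ s, pt (x s) ≤ v0 (Y.α s) + mR (Y.α s) (qc (bf (β s) (x s))) := by
    intro s
    by_cases hs : x s = a s
    · have h1 : mR (Y.α s) (qc (bf (β s) (x s))) = 0 := by
        rw [hs, ← hY.al]
        unfold mR
        exact sum_eq_zero fun i _ => by rw [sub_self, mul_zero]
      rw [h1, add_zero, hY.al, v0_bf, hs, pt_half (hp.half s) (hn2 s)]
    · exact (key s hs).le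
  -- the linear part vanishes
  obtain ⟨a0, h0, -⟩ := hY.q0
  have hL : IsLat D (lat task_SO D a0 h0.1) := fun δ => Iff.rfl
  have hsolR : Sol D (x - a) [0, 0] (0 : ℝ) := by
    have h4 := sol_add task_SO hsol (sol_smul task_SO (-1) hp.sol)
    have e : x + (-1 : ℝ) • a = x - a := by
      rw [neg_one_smul, sub_eq_add_neg]
    rw [e] at h4
    simpa using h4
  have houtR : ∀ k i, Out D 1 k (c6 i) → (x - a) k i = 0 := by
    intro k i h
    rw [Pi.sub_apply, Pi.sub_apply, hout k i h, (hpz k i).2 h, sub_zero]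
  obtain ⟨t, ht⟩ := span_cor hY hL (Pool.Agent.Q299.FAL.task_SP task_SO D _ hL _ hsolR houtR)
  have hlin : ∑ s, mR (Y.α s) (qc (bf (β s) (x s))) = 0 := by
    have h1 : ∀ s, mR (Y.α s) (qc (bf (β s) (x s))) =
        ∑ j, t j * ∑ i, ml (Y.α s) i * (Y.E j s i : ℝ) := by
      intro s
      unfold mR
      have h2 : ∀ i, ml (Y.α s) i * (qc (bf (β s) (x s)) i - qc (Y.α s) i) =
          ∑ j, t j * (ml (Y.α s) i * (Y.E j s i : ℝ)) := by
        intro i
        have h3 : qc (bf (β s) (x s)) i - qc (Y.α s) i = cv (β s) ((x - a) s) i := by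
          rw [hY.al, qc_bf, qc_bf]
          have h4 := cv_add (β s) ((x - a) s) (a s) i
          have h5 : (x - a) s + a s = x s := by rw [Pi.sub_apply, sub_add_cancel]
          rw [h5] at h4
          linarith
        rw [h3, ht s i, mul_sum]
        exact sum_congr rfl fun j _ => by ring
      rw [sum_congr rfl fun i _ => h2 i, sum_comm]
      exact sum_congr rfl fun j _ => by rw [mul_sum]
    rw [sum_congr rfl fun s _ => h1 s, sum_comm]
    refine sum_eq_zero fun j _ => ?_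
    rw [← mul_sum, hOk.crit j, mul_zero]
  obtain ⟨s₀, hs₀⟩ : ∃ s, x s ≠ a s := by
    by_contra hc
    push Not at hc
    exact hne (funext hc)
  have hlt : ∑ s, pt (x s) < ∑ s, (v0 (Y.α s) + mR (Y.α s) (qc (bf (β s) (x s)))) :=
    sum_lt_sum (fun s _ => key2 s) ⟨s₀, mem_univ _, key s₀ hs₀⟩
  rw [sum_add_distrib, hlin, add_zero, hv] at hlt
  exact hlt

/-- the condition holds if the angles at the vertices without circles are not obtuse -/
theorem NOPx (D : List Pc) (h1 : Val D 1) (h2 : Pri D 1) (h3 : D ≠ [])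
    (cc : Fin D.length → Bool) (a : Fin D.length → Fin 6 → ℝ) (ha : Mx D a)
    (hq : ∀ k, cc k = false → a k 0 ≤ 1 / 4 ∧ a k 3 ≤ 1 / 4) : Dmx D cc a := by
  refine BALx D h1 h2 h3 cc a ha fun s hs => ?_
  obtain ⟨d, β, Y, hY⟩ := Pool.Agent.Q206.HT.task_NE D h1 h2 h3 a ha
  obtain ⟨hOk, -, -⟩ := task_NOb D h1 h2 h3 a ha d β Y hY
  have e1 : decide (a s 1 ≤ a s 2) = β s := by
    have := hY.be s
    cases hβ : β s
    · rw [hβ] at this
      simpa using this
    · rw [hβ] at this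
      simpa using this
  have e2 := hOk.fr s
  rw [hY.al s, ← e1] at e2
  refine Pool.Agent.Q299.HU.task_NOP t_T1 _ e2 ?_ ?_
  · unfold bf
    split <;> exact (hq s hs).1
  · unfold bf
    split <;> exact (hq s hs).2

/-- a dominant maximum satisfies the condition for all circles -/
theorem Dmx_of_Dm {D : List Pc} {cc : Fin D.length → Bool} {a : Fin D.length → Fin 6 → ℝ}
    (h : Dm D a) : Dmx D cc a := fun x h1 _ h3 h4 => h x h1 h3 h4

end Pool.Agent.H760.MX
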