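import Pool.Agent.H760.MX.Fb

/-!
# Partially augmented planar shadows: the state sum of a network as an integral

Adapted from `Q210/HU/NWb.lean`.
-/

set_option autoImplicit false

namespace Pool.Agent.H760.MX

open Finset Filter Topology MeasureTheory
open Pool.Agent.Q99.HT
open Pool.Agent.Q99.HU
open Pool.Agent.Q99.KN (Fk)
open Pool.Agent.Q251.HT (pos_min eX_eq cmp_of ps_of)

/-- the bounds of a region, with a circle if `c` is true -/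
def Lx (c : Bool) (α : Fin 6 → ℝ) (κ C0 ρ : ℝ) : Prop :=
  (c = true → Lc α κ C0) ∧ (c = false → Ltn α κ C0 ρ)

/-- the weight near the centre, with a circle if `c` is true -/
noncomputable def FZx (r : ℝ) (N : ℕ) (α : Fin 6 → ℝ) (c : Bool) (w : ℤ) (y η : ℝ) :
    (Fin 3 → ℂ) → ℂ := if c then FZc r N α w η else FZ r N α w y η

/-- the terms which are far from the centre are small -/
def Farx {c d : ℕ} (X : Nw c d) (cc : Fin c → Bool) : Prop := ∀ δ : ℝ, 0 < δ → ∃ c3 : ℝ, 0 < c3 ∧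
  ∀ w : Fin c → ℤ, ∃ (C : ℝ) (p N0 : ℕ), ∀ N : ℕ, N0 ≤ N → ∀ t : Fin d → ℤ,
    (∃ j, δ < |(t j : ℝ) / N - X.τ j|) →
    ‖∏ s, F3 N (Fx N (cc s) (w s)) (X.q N t s)‖ ≤
      C * N ^ p * Real.exp (N * (∑ s, v0 (X.α s) - c3))

theorem BNx (c : Bool) (α : Fin 6 → ℝ) (r κ K C0 : ℝ) (hF : Fr α) (hB : Blk α r κ K C0)
    (hL : Lx c α κ C0 r) :
    ∃ τ0 c1 : ℝ, 0 < τ0 ∧ 0 < c1 ∧ ∀ (w : ℤ) (y η : ℝ),
    (c = false → 0 < y ∧ y ≤ τ0 ∧ |(w : ℝ)| * y ≤ τ0) → |η| ≤ τ0 →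
    ∃ C : ℝ, ∃ p N0 : ℕ, ∀ N : ℕ, N0 ≤ N →
    LD (FZx r N α c w y η) (Metric.ball (qC α) (r / 2)) ∧
    (∀ ξ ∈ Metric.ball (qC α) (r / 2), Ad3 α ξ → ‖FZx r N α c w y η ξ‖ ≤ C * N ^ p *
      Real.exp (N * (v0 α + (K * η ^ 2 + (Real.pi * w * y) ^ 2 / (16 * κ) + K * y ^ 2) +
        mR α (re3 ξ) - κ * sR α (re3 ξ) + K * ∑ i, (ξ i).im ^ 2))) ∧
    ∀ A b C' : ℕ, Cmp α A b C' → |(A : ℝ) / N - α 0| ≤ r / 4 →
      |(b : ℝ) / N - (α 1 + α 4)| ≤ r / 4 → |(C' : ℝ) / N - α 3| ≤ r / 4 →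
      ‖Fx N c w A b C' - FZx r N α c w y η ![(A : ℂ) / N, (b : ℂ) / N, (C' : ℂ) / N]‖ ≤
        C * N ^ p * Real.exp (eX N α A b C' - c1 * N) := by
  cases c
  · obtain ⟨τ0, c1, h1, h2, h3⟩ := t_BNb α r κ K C0 r hF hB (hL.2 rfl) le_rfl
    refine ⟨τ0, c1, h1, h2, fun w y η hy hη => ?_⟩
    obtain ⟨C, p, N0, h4⟩ := h3 w y η (hy rfl).1 (hy rfl).2.1 (hy rfl).2.2 hη
    exact ⟨C, p, N0, h4⟩
  · obtain ⟨τ0, c1, h1, h2, h3⟩ := BNc' α r κ K C0 hF hB (hL.1 rfl)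
    refine ⟨τ0, c1, h1, h2, fun w y η _ hη => ?_⟩
    obtain ⟨C, p, N0, h4⟩ := h3 w η hη
    refine ⟨|C|, p, N0, fun N hN => ⟨(h4 N hN).1, ?_, ?_⟩⟩
    · intro ξ hξ hA
      refine ((h4 N hN).2.1 ξ hξ hA).trans ?_
      apply mul_le_mul (mul_le_mul_of_nonneg_right (le_abs_self _) (by positivity)) _
        (Real.exp_pos _).le (by positivity)
      apply Real.exp_le_exp.2
      apply mul_le_mul_of_nonneg_left _ (Nat.cast_nonneg _)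
      have hκ := hB.κ0
      have hK : 0 < K := lt_of_lt_of_le hκ hB.κK
      have e1 : 0 ≤ (Real.pi * w * y) ^ 2 / (16 * κ) := by positivity
      have e2 : 0 ≤ K * y ^ 2 := by positivity
      linarith
    · intro A b C' g1 g2 g3 g4
      refine ((h4 N hN).2.2 A b C' g1 g2 g3 g4).trans ?_
      exact mul_le_mul_of_nonneg_right (mul_le_mul_of_nonneg_right (le_abs_self _) (by positivity))
        (Real.exp_pos _).le

/-- the case of good constants -/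
lemma NWx_main {c d : ℕ} (X : Nw c d) (cc : Fin c → Bool)
    (hX : X.Okb) (hFar : Farx X cc) (r κ K C0 : ℝ)
    (h : ∀ s, Blk (X.α s) r κ K C0 ∧ Lx (cc s) (X.α s) κ C0 r) (hr : 0 < r)
    (hr1 : r ≤ 1 / 64) (hκ : 0 < κ) (hκK : κ ≤ K) :
    ∃ δ0 : ℝ, 0 < δ0 ∧ ∀ δ : ℝ, 0 < δ → δ ≤ δ0 → ∃ τ1 c2 : ℝ, 0 < τ1 ∧ 0 < c2 ∧
    ∀ (w : Fin c → ℤ) (y ηJ : Fin c → ℝ) (η : Fin d → ℝ) (e : ℝ), 0 ≤ e →
    (∀ s, (cc s = false → 0 < y s ∧ y s ≤ τ1 ∧ |(w s : ℝ)| * y s ≤ τ1) ∧ |ηJ s| ≤ τ1 ∧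
        K * ηJ s ^ 2 + (Real.pi * w s * y s) ^ 2 / (16 * κ) + K * y s ^ 2 ≤ e) → (∀ j, |η j| ≤ τ1) →
    ∃ C : ℝ, ∃ p N0 : ℕ, ∀ N : ℕ, N0 ≤ N →
    ‖Zn X N cc w - N ^ d * ∫ x in X.bx δ N, ∏ s, FZx r N (X.α s) (cc s) (w s) (y s) (ηJ s)
        (X.xN N (fun j => x j + η j * Complex.I) s)‖ ≤
      C * N ^ p * Real.exp (N * (∑ s, v0 (X.α s) + c * e - c2)) := by
  have hBs := fun s => BNx (cc s) (X.α s) r κ K C0 (hX.fr s) (h s).1 (h s).2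
  choose τs cs hτs hcs hBs using hBs
  obtain ⟨τ0, hτ0, hτ⟩ := pos_min τs hτs
  obtain ⟨c1, hc1, hc⟩ := pos_min cs hcs
  obtain ⟨δ0, hδ0, hD⟩ := Pool.Agent.Q210.HU.task_NW0b Pool.Agent.Q237.HT.task_GPX
    Pool.Agent.Q237.HT.task_MPX c d X hX r κ K c1 hr hr1 (fun s => (h s).1.sml) hκ hκK hc1
  refine ⟨δ0, hδ0, fun δ hδ hδ1 => ?_⟩
  obtain ⟨c3, hc3, hF3⟩ := hFar δ hδ
  obtain ⟨τ1, c2, C', hτ1, hc2, p', N0', hN⟩ := hD δ hδ hδ1 c3 hc3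
  refine ⟨min τ1 τ0, c2, lt_min hτ1 hτ0, hc2, fun w y ηJ η e he hs hη => ?_⟩
  obtain ⟨CF, pF, NF, hFw⟩ := hF3 w
  have hBw := fun s => hBs s (w s) (y s) (ηJ s) (fun h0 => ⟨((hs s).1 h0).1,
    ((hs s).1 h0).2.1.trans ((min_le_right _ _).trans (hτ s)),
    ((hs s).1 h0).2.2.trans ((min_le_right _ _).trans (hτ s))⟩)
    ((hs s).2.1.trans ((min_le_right _ _).trans (hτ s)))
  choose Cs ps Ns hBw using hBw
  set Cm : ℝ := 1 + |CF| + ∑ s, |Cs s| with hCm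
  set pm : ℕ := pF + ∑ s, ps s with hpm
  refine ⟨C' * Cm ^ (c + 1), p' + pm * (c + 1), N0' + NF + ∑ s, Ns s + 1, fun N hNN => ?_⟩
  have hN1 : 1 ≤ N := by omega
  have hN1' : (1 : ℝ) ≤ N := by exact_mod_cast hN1
  have hNs : ∀ s, Ns s ≤ N := by
    intro s
    have : Ns s ≤ ∑ s, Ns s := Finset.single_le_sum (fun _ _ => Nat.zero_le _) (Finset.mem_univ s)
    omega
  have hsum0 : 0 ≤ ∑ s, |Cs s| := Finset.sum_nonneg fun _ _ => abs_nonneg _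
  have hCm1 : 1 ≤ Cm := by
    rw [hCm]
    have := abs_nonneg CF
    linarith
  have hM1 : 1 ≤ Cm * (N : ℝ) ^ pm := one_le_mul_of_one_le_of_one_le hCm1 (one_le_pow₀ hN1')
  have hMs : ∀ s, Cs s * (N : ℝ) ^ ps s ≤ Cm * (N : ℝ) ^ pm := by
    intro s
    have h1 : Cs s ≤ Cm := by
      have h2 : |Cs s| ≤ ∑ s, |Cs s| :=
        Finset.single_le_sum (f := fun s => |Cs s|) (fun _ _ => abs_nonneg _) (Finset.mem_univ s)
      have h3 := le_abs_self (Cs s)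
      have h4 := abs_nonneg CF
      linarith
    have h2 : (N : ℝ) ^ ps s ≤ (N : ℝ) ^ pm := by
      refine pow_le_pow_right₀ hN1' ?_
      have : ps s ≤ ∑ s, ps s :=
        Finset.single_le_sum (fun _ _ => Nat.zero_le _) (Finset.mem_univ s)
      omega
    exact mul_le_mul h1 h2 (by positivity) (by linarith)
  have hMF : CF * (N : ℝ) ^ pF ≤ Cm * (N : ℝ) ^ pm := by
    have h1 : CF ≤ Cm := by
      have h3 := le_abs_self CF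
      linarith
    have h2 : (N : ℝ) ^ pF ≤ (N : ℝ) ^ pm := pow_le_pow_right₀ hN1' (Nat.le_add_right _ _)
    exact mul_le_mul h1 h2 (by positivity) (by linarith)
  have hfin := hN N (by omega) (fun s => F3 N (Fx N (cc s) (w s)))
    (fun s => FZx r N (X.α s) (cc s) (w s) (y s) (ηJ s))
    (Cm * (N : ℝ) ^ pm) e hM1 he ?_ ?_ ?_ ?_ ?_ η (fun j => (hη j).trans (min_le_left _ _))
  · have e1 : C' * (N : ℝ) ^ p' * (Cm * (N : ℝ) ^ pm) ^ (c + 1) =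
        C' * Cm ^ (c + 1) * (N : ℝ) ^ (p' + pm * (c + 1)) := by
      rw [mul_pow, ← pow_mul, pow_add (N : ℝ) p']
      ring
    rw [e1] at hfin
    exact hfin
  · intro s q hq
    exact if_neg hq
  · intro t ht
    exact (hFw N (by omega) t ht).trans (mul_le_mul_of_nonneg_right hMF (Real.exp_pos _).le)
  · intro s
    exact (hBw s N (hNs s)).1
  · intro s ξ hξ hA
    refine ((hBw s N (hNs s)).2.1 ξ hξ hA).trans ?_
    refine mul_le_mul (hMs s) (Real.exp_le_exp.2 ?_) (Real.exp_pos _).le (by linarith)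
    apply mul_le_mul_of_nonneg_left _ (by linarith)
    have := (hs s).2.2
    linarith
  · intro s q hq hn
    have hP : Ps N q := ps_of (hX.fr s) (h s).1 N hN1 q hq hn
    have t0 : (((q 0).toNat : ℕ) : ℝ) = (q 0 : ℝ) := by
      exact_mod_cast congrArg (fun z : ℤ => (z : ℝ)) (Int.toNat_of_nonneg hP.1)
    have t1 : (((q 1).toNat : ℕ) : ℝ) = (q 1 : ℝ) := by
      exact_mod_cast congrArg (fun z : ℤ => (z : ℝ)) (Int.toNat_of_nonneg hP.2.1)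
    have t2 : (((q 2).toNat : ℕ) : ℝ) = (q 2 : ℝ) := by
      exact_mod_cast congrArg (fun z : ℤ => (z : ℝ)) (Int.toNat_of_nonneg hP.2.2.1)
    have u0 : (((q 0).toNat : ℕ) : ℂ) = (q 0 : ℂ) := by
      exact_mod_cast congrArg (fun z : ℤ => (z : ℂ)) (Int.toNat_of_nonneg hP.1)
    have u1 : (((q 1).toNat : ℕ) : ℂ) = (q 1 : ℂ) := by
      exact_mod_cast congrArg (fun z : ℤ => (z : ℂ)) (Int.toNat_of_nonneg hP.2.1)
    have u2 : (((q 2).toNat : ℕ) : ℂ) = (q 2 : ℂ) := by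
      exact_mod_cast congrArg (fun z : ℤ => (z : ℂ)) (Int.toNat_of_nonneg hP.2.2.1)
    have h3 := (hBw s N (hNs s)).2.2 (q 0).toNat (q 1).toNat (q 2).toNat
      (cmp_of (hX.fr s) q hq) (by rw [t0]; exact hn 0) (by rw [t1]; exact hn 1)
      (by rw [t2]; exact hn 2)
    rw [eX_eq N hN1 (X.α s) _ _ _ (fun i => (q i : ℝ) / N) (by rw [t0]) (by rw [t1]) (by rw [t2])]
      at h3
    have ev : (![(((q 0).toNat : ℕ) : ℂ) / N, (((q 1).toNat : ℕ) : ℂ) / N,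
        (((q 2).toNat : ℕ) : ℂ) / N] : Fin 3 → ℂ) = fun i => (q i : ℂ) / N := by
      rw [u0, u1, u2]
      funext i
      fin_cases i <;> rfl
    rw [ev] at h3
    have ef : F3 N (Fx N (cc s) (w s)) q =
      Fx N (cc s) (w s) (q 0).toNat (q 1).toNat (q 2).toNat := if_pos hP
    change ‖F3 N (Fx N (cc s) (w s)) q - _‖ ≤ _
    rw [ef]
    refine h3.trans ?_
    refine mul_le_mul (hMs s) (Real.exp_le_exp.2 ?_) (Real.exp_pos _).le (by linarith)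
    have h5 := mul_le_mul_of_nonneg_right (hc s) (by linarith : (0 : ℝ) ≤ N)
    have e3 : (N : ℝ) * (v0 (X.α s) + mR (X.α s) (fun i => (q i : ℝ) / N) - c1) =
      N * (v0 (X.α s) + mR (X.α s) (fun i => (q i : ℝ) / N)) - c1 * N := by ring
    rw [e3]
    linarith

theorem NWx {c d : ℕ} (X : Nw c d) (cc : Fin c → Bool) (hX : X.Okb) (hFar : Farx X cc)
    (r κ K C0 : ℝ) (h : ∀ s, Blk (X.α s) r κ K C0 ∧ Lx (cc s) (X.α s) κ C0 r) :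
    ∃ δ0 : ℝ, 0 < δ0 ∧ ∀ δ : ℝ, 0 < δ → δ ≤ δ0 → ∃ τ1 c2 : ℝ, 0 < τ1 ∧ 0 < c2 ∧
    ∀ (w : Fin c → ℤ) (y ηJ : Fin c → ℝ) (η : Fin d → ℝ) (e : ℝ), 0 ≤ e →
    (∀ s, (cc s = false → 0 < y s ∧ y s ≤ τ1 ∧ |(w s : ℝ)| * y s ≤ τ1) ∧ |ηJ s| ≤ τ1 ∧
        K * ηJ s ^ 2 + (Real.pi * w s * y s) ^ 2 / (16 * κ) + K * y s ^ 2 ≤ e) → (∀ j, |η j| ≤ τ1) →
    ∃ C : ℝ, ∃ p N0 : ℕ, ∀ N : ℕ, N0 ≤ N →
    ‖Zn X N cc w - N ^ d * ∫ x in X.bx δ N, ∏ s, FZx r N (X.α s) (cc s) (w s) (y s) (ηJ s)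
        (X.xN N (fun j => x j + η j * Complex.I) s)‖ ≤
      C * N ^ p * Real.exp (N * (∑ s, v0 (X.α s) + c * e - c2)) := by
  rcases isEmpty_or_nonempty (Fin c) with he | ⟨⟨s0⟩⟩
  · obtain ⟨δ0, hδ0, hD⟩ := NWx_main X cc hX hFar (1 / 64) 1 1 1
      (fun s => (he.false s).elim) (by norm_num) le_rfl one_pos le_rfl
    refine ⟨δ0, hδ0, fun δ hδ hδ1 => ?_⟩
    obtain ⟨τ1, c2, hτ1, hc2, hh⟩ := hD δ hδ hδ1
    refine ⟨τ1, c2, hτ1, hc2, fun w y ηJ η e he0 hs hη => ?_⟩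
    obtain ⟨C, p, N0, hN⟩ := hh w y ηJ η e he0 (fun s => (he.false s).elim) hη
    refine ⟨C, p, N0, fun N hNN => ?_⟩
    have := hN N hNN
    simp only [Finset.univ_eq_empty, Finset.prod_empty] at this ⊢
    exact this
  · have hb := (h s0).1
    exact NWx_main X cc hX hFar r κ K C0 h hb.r0 hb.r1 hb.κ0 hb.κK

end Pool.Agent.H760.MX
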