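import Pool.Agent.H760.MX.Mx
import Pool.Agent.H760.MX.NW
import Pool.Graph.R_pool_sql_team_seeded_3997aac3.Q99.HU.Q299.BXN

/-!
# Partially augmented planar shadows: all integrals together

Adapted from `Q99/HU/Q299/BXN.lean`; the sum over the lattice points of a circled region is the
integral of a step function.
-/

set_option autoImplicit false

namespace Pool.Agent.H760.MX

open Finset Filter Topology MeasureTheory
open Pool.Agent.Q99.HT
open Pool.Agent.Q99.KN (sn bc Wk zl ez Fk cz LC bb Gm St ct S_LC S_GAM S_PZ QZ kz th jN S_LAP S_GIM)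
open Pool.Agent.Q99.HU.Q299

/-! ### the step function -/

/-- the step function -/
noncomputable def stN (N : ℕ) (x : ℝ) : ℝ := (2 * (⌊(N : ℝ) * (x + 1) / 2⌋ : ℝ) + 1 - N) / N

theorem stN_meas (N : ℕ) : Measurable (stN N) := by
  unfold stN
  have h1 : Measurable fun x : ℝ => (⌊(N : ℝ) * (x + 1) / 2⌋ : ℝ) := by
    have h2 : Measurable fun n : ℤ => (n : ℝ) := Measurable.of_discrete
    exact h2.comp (Int.measurable_floor.comp (by fun_prop))
  exact (((h1.const_mul 2).add_const 1).sub_const _).div_const _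

theorem stN_near {N : ℕ} (hN : 0 < N) (x : ℝ) : |stN N x - x| ≤ 1 / N := by
  have hN0 : (0 : ℝ) < N := by exact_mod_cast hN
  have h1 := Int.floor_le ((N : ℝ) * (x + 1) / 2)
  have h2 := Int.lt_floor_add_one ((N : ℝ) * (x + 1) / 2)
  have e : stN N x - x = (2 * (⌊(N : ℝ) * (x + 1) / 2⌋ : ℝ) + 1 - N - N * x) / N := by
    unfold stN
    field_simp
  rw [e, abs_div, abs_of_pos hN0]
  refine div_le_div_of_nonneg_right ?_ hN0.le
  rw [abs_le]
  constructor <;> linarith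

/-- the end points of the intervals -/
noncomputable def aS (N k : ℕ) : ℝ := (2 * (k : ℝ) - N) / N

theorem aS_le {N : ℕ} (hN : 0 < N) (k : ℕ) : aS N k ≤ aS N (k + 1) := by
  have hN0 : (0 : ℝ) < N := by exact_mod_cast hN
  unfold aS
  refine div_le_div_of_nonneg_right ?_ hN0.le
  push_cast
  linarith

theorem stN_on {N k : ℕ} (hN : 0 < N) {x : ℝ} (hx : x ∈ Set.Ioo (aS N k) (aS N (k + 1))) :
    stN N x = (2 * (k : ℝ) + 1 - N) / N := by
  have hN0 : (0 : ℝ) < N := by exact_mod_cast hN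
  obtain ⟨h1, h2⟩ := hx
  unfold aS at h1 h2
  rw [div_lt_iff₀ hN0] at h1
  rw [lt_div_iff₀ hN0] at h2
  push_cast at h2
  have h3 : ⌊(N : ℝ) * (x + 1) / 2⌋ = (k : ℤ) := by
    rw [Int.floor_eq_iff]
    push_cast
    constructor <;> linarith
  unfold stN
  rw [h3]
  push_cast
  rfl

theorem stN_sum {N : ℕ} (hN : 0 < N) (m n : ℕ) (hmn : m ≤ n) (g : ℝ → ℂ) :
    ∫ x in Set.Icc (aS N m) (aS N n), g (stN N x) =
      ∑ k ∈ Ico m n, (2 / N : ℂ) * g ((2 * (k : ℝ) + 1 - N) / N) := by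
  have hN0 : (0 : ℝ) < N := by exact_mod_cast hN
  have hle : aS N m ≤ aS N n := by
    unfold aS
    refine div_le_div_of_nonneg_right ?_ hN0.le
    have : (m : ℝ) ≤ n := by exact_mod_cast hmn
    linarith
  have hint : ∀ k, IntervalIntegrable (fun x => g (stN N x)) volume (aS N k) (aS N (k + 1)) := by
    intro k
    rw [intervalIntegrable_iff_integrableOn_Ioo_of_le (aS_le hN k)]
    have h1 : IntegrableOn (fun _ : ℝ => g ((2 * (k : ℝ) + 1 - N) / N))
        (Set.Ioo (aS N k) (aS N (k + 1))) volume := by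
      refine integrableOn_const ?_ ?_
      · rw [Real.volume_Ioo]
        exact ENNReal.ofReal_ne_top
      · simp
    exact h1.congr_fun (fun x hx => by
      show g _ = g (stN N x)
      rw [stN_on hN hx]) measurableSet_Ioo
  rw [integral_Icc_eq_integral_Ioc, ← intervalIntegral.integral_of_le hle,
    ← intervalIntegral.sum_integral_adjacent_intervals_Ico hmn (fun k _ => hint k)]
  refine Finset.sum_congr rfl fun k _ => ?_
  rw [intervalIntegral.integral_of_le (aS_le hN k), integral_Ioc_eq_integral_Ioo,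
    setIntegral_congr_fun (g := fun _ => g ((2 * (k : ℝ) + 1 - N) / N)) measurableSet_Ioo
      (fun x hx => by
        show g (stN N x) = _
        rw [stN_on hN hx]), setIntegral_const]
  have e : aS N (k + 1) - aS N k = 2 / N := by
    unfold aS
    push_cast
    field_simp
    ring
  rw [Measure.real, Real.volume_Ioo, e, ENNReal.toReal_ofReal (by positivity), Complex.real_smul]
  push_cast
  ring

theorem th_aS {r : ℝ} {N : ℕ} (hN : 0 < N) : -th r N = aS N (jN r N) := by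
  have hN0 : (0 : ℝ) < N := by exact_mod_cast hN
  unfold th aS
  field_simp
  ring

theorem th_aS' {r : ℝ} {N : ℕ} (hN : 0 < N) (hj : jN r N ≤ N) : th r N = aS N (N - jN r N) := by
  have hN0 : (0 : ℝ) < N := by exact_mod_cast hN
  unfold th aS
  rw [Nat.cast_sub hj]
  field_simp
  ring

theorem jN_le' {r : ℝ} (hr : 0 < r) (hr16 : r ≤ 1 / 16) {N : ℕ} (hNr : 16 / r ≤ N) (hN : 0 < N) :
    2 * jN r N ≤ N := by
  have hN0 : (0 : ℝ) < N := by exact_mod_cast hN
  have h1 := (th_bounds hr hr16 hNr).1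
  unfold th at h1
  rw [sub_pos, div_lt_one hN0] at h1
  exact_mod_cast h1.le

/-- the sum over the lattice points of a circled region as an integral -/
theorem FZc_int {r : ℝ} {N : ℕ} (hN : 0 < N) (hr : 0 < r) (hr16 : r ≤ 1 / 16) (hNr : 16 / r ≤ N)
    (α : Fin 6 → ℝ) (w : ℤ) (η : ℝ) (ξ : Fin 3 → ℂ) :
    FZc r N α w η ξ = ∫ z in Set.Icc (-th r N) (th r N), (N / 2 : ℂ) *
      (ez N w (N * (stN N z : ℝ)) * VB r N α η ξ (stN N z : ℝ)) := by
  have hN0 : (N : ℂ) ≠ 0 := by exact_mod_cast hN.ne'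
  have hj := jN_le' hr hr16 hNr hN
  rw [th_aS hN, th_aS' hN (by omega), stN_sum hN (jN r N) (N - jN r N) (by omega)
    (fun x : ℝ => (N / 2 : ℂ) * (ez N w (N * (x : ℝ)) * VB r N α η ξ (x : ℝ)))]
  unfold FZc
  refine Finset.sum_congr rfl fun k _ => ?_
  have e1 : (N : ℂ) * (((2 * (k : ℝ) + 1 - N) / N : ℝ) : ℂ) = zl N k := by
    unfold zl
    push_cast
    field_simp
  have e2 : (((2 * (k : ℝ) + 1 - N) / N : ℝ) : ℂ) = zl N k / N := by
    unfold zl
    push_cast
    rfl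
  rw [e1, e2]
  field_simp

theorem stN_mem {r : ℝ} {N : ℕ} (hN : 0 < N) (hr : 0 < r) (hr16 : r ≤ 1 / 16) (hNr : 16 / r ≤ N)
    {z : ℝ} (hz : z ∈ Set.Icc (-th r N) (th r N)) : stN N z ∈ Set.Icc (-(r / 2)) (r / 2) := by
  have hN0 : (0 : ℝ) < N := by exact_mod_cast hN
  have h1 := (th_bounds hr hr16 hNr).2
  have h2 := abs_le.1 (stN_near hN z)
  have hNr' : 16 ≤ N * r := by rwa [div_le_iff₀ hr] at hNr
  have h3 : 1 / (N : ℝ) ≤ r / 16 := by
    rw [div_le_div_iff₀ hN0 (by norm_num)]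
    linarith
  constructor <;> linarith [hz.1, hz.2, h2.1, h2.2]

/-! ### the factors -/

section
variable {c d : ℕ} (X : Nw c d)

/-- the integrand -/
noncomputable def PgX (cc : Fin c → Bool) (N : ℕ) (w : Fin c → ℤ) (T : Fin d → ℂ)
    (J ζ : Fin c → ℂ) : ℂ :=
  ∏ s, if cc s then ((N / 2 : ℂ) * ez N (w s) (N * ζ s) * (if X.α s 1 = 0 then 1 else (N : ℂ)) *
      PB N (X.α s) ![X.xN N T s 0, X.xN N T s 1, X.xN N T s 2, J s] (ζ s)) else
    (-(N / (Real.pi * Complex.I)) * (ez N (w s) (N * ζ s) * Complex.sin (Real.pi * ζ s) *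
    kz N (N * ζ s)) * (if X.α s 1 = 0 then 1 else (N : ℂ)) *
      PB N (X.α s) ![X.xN N T s 0, X.xN N T s 1, X.xN N T s 2, J s] (ζ s))

/-- the variables of the sums -/
noncomputable def zX (cc : Fin c → Bool) (N : ℕ) (y u : Fin c → ℝ) (s : Fin c) : ℂ :=
  if cc s then ((stN N (u s) : ℝ) : ℂ) else u s + y s * Complex.I

theorem zX_of_f {cc : Fin c → Bool} {N : ℕ} {y u : Fin c → ℝ} {s : Fin c} (h : cc s = false) :
    zX cc N y u s = u s + y s * Complex.I := by
  unfold zX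
  rw [if_neg (by simp [h])]

theorem zX_of_t {cc : Fin c → Bool} {N : ℕ} {y u : Fin c → ℝ} {s : Fin c} (h : cc s = true) :
    zX cc N y u s = ((stN N (u s) : ℝ) : ℂ) := by
  unfold zX
  rw [if_pos h]

/-- the factor of a circled region -/
noncomputable def Fcs (N : ℕ) (w : Fin c → ℤ) (ηJ : Fin c → ℝ) (η : Fin d → ℝ) (s : Fin c)
    (q : (Fin d → ℝ) × ℝ × ℝ) : ℂ :=
  (N / 2 : ℂ) * ez N (w s) (N * (q.2.1 : ℂ)) * (if X.α s 1 = 0 then 1 else (N : ℂ)) *
    PB N (X.α s) ![X.xN N (fun j => q.1 j + η j * Complex.I) s 0,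
      X.xN N (fun j => q.1 j + η j * Complex.I) s 1, X.xN N (fun j => q.1 j + η j * Complex.I) s 2,
      Jc X ηJ s q.2.2] (q.2.1 : ℂ)

/-- the set of the factor of a circled region -/
noncomputable def Kc (r δ : ℝ) (N : ℕ) (s : Fin c) : Set ((Fin d → ℝ) × ℝ × ℝ) :=
  X.bx δ N ×ˢ Set.Icc (-(r / 2)) (r / 2) ×ˢ IJ X r N s

theorem Kc_compact (r δ : ℝ) (N : ℕ) (s : Fin c) : IsCompact (Kc X r δ N s) :=
  (bx_compact X δ N).prod (isCompact_Icc.prod (IJ_compact X r N s))

theorem Kc_meas (r δ : ℝ) (N : ℕ) (s : Fin c) : MeasurableSet (Kc X r δ N s) :=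
  (bx_meas X δ N).prod (measurableSet_Icc.prod (IJ_meas X r N s))

/-- the points are in the balls -/
theorem in_ballc {κ K C0 r δ M τ2 : ℝ} {s : Fin c} (hB : Blk (X.α s) r κ K C0) (hδ : 0 < δ)
    (hx : ∀ T : Fin d → ℂ, (∀ j, ‖T j - X.τ j‖ ≤ 2 * δ) → X.x T s ∈ Metric.ball (qC (X.α s)) (r / 4))
    (hM : ∀ i, |(X.q0 s i : ℝ)| ≤ M) (hτ0 : 0 < τ2) (hτδ : τ2 ≤ δ / 2) (hτr : τ2 ≤ r / 8) {N : ℕ}
    (hN : 0 < N)
    (hNr : 16 / r ≤ N) (hNδ : 1 / δ ≤ N) (hNM : 4 * M / r ≤ N) {ηJ : Fin c → ℝ} {η : Fin d → ℝ}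
    (hJ : |ηJ s| ≤ τ2) (hη : ∀ j, |η j| ≤ τ2)
    {q : (Fin d → ℝ) × ℝ × ℝ} (hq : q ∈ Kc X r δ N s) :
    ![X.xN N (fun j => q.1 j + η j * Complex.I) s 0,
      X.xN N (fun j => q.1 j + η j * Complex.I) s 1, X.xN N (fun j => q.1 j + η j * Complex.I) s 2,
      Jc X ηJ s q.2.2] ∈ Metric.ball (vC (X.α s)) r ∧
    (q.2.1 : ℂ) ∈ Metric.ball (0 : ℂ) r := by
  have hr := hB.r0
  have hr16 : r ≤ 1 / 16 := hB.r1.trans (by norm_num)
  obtain ⟨h1, h2, h3⟩ := hq
  have hth := (th_bounds hr hr16 hNr).1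
  refine ⟨?_, ?_⟩
  · exact (in_ball X hB hδ hx hM hτδ hτr hN hNr hNδ hNM (y := fun _ => τ2) ⟨hτ0, le_rfl⟩ hJ hη
      (q := (q.1, 0, q.2.2)) ⟨h1, ⟨by linarith, hth.le⟩, h3⟩).1
  · rw [Metric.mem_ball, dist_eq_norm, sub_zero, Complex.norm_real, Real.norm_eq_abs]
    have : |q.2.1| ≤ r / 2 := abs_le.2 ⟨h2.1, h2.2⟩
    linarith

theorem Fcs_cont {κ K C0 r δ : ℝ} {s : Fin c} (hB : Blk (X.α s) r κ K C0) {N : ℕ} (hN : 0 < N)
    (w : Fin c → ℤ) {ηJ : Fin c → ℝ} {η : Fin d → ℝ}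
    (hb : ∀ q ∈ Kc X r δ N s, ![X.xN N (fun j => q.1 j + η j * Complex.I) s 0,
      X.xN N (fun j => q.1 j + η j * Complex.I) s 1, X.xN N (fun j => q.1 j + η j * Complex.I) s 2,
      Jc X ηJ s q.2.2] ∈ Metric.ball (vC (X.α s)) r ∧
      (q.2.1 : ℂ) ∈ Metric.ball (0 : ℂ) r) :
    ContinuousOn (Fcs X N w ηJ η s) (Kc X r δ N s) := by
  unfold Fcs
  have c2 : Continuous fun q : (Fin d → ℝ) × ℝ × ℝ => ez N (w s) (N * (q.2.1 : ℂ)) := by
    unfold ez
    fun_prop
  have c3 : ∀ i, Continuous fun q : (Fin d → ℝ) × ℝ × ℝ =>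
      X.xN N (fun j => q.1 j + η j * Complex.I) s i := by
    intro i
    unfold Nw.xN
    fun_prop
  have c4 : Continuous fun q : (Fin d → ℝ) × ℝ × ℝ => Jc X ηJ s q.2.2 := by
    unfold Jc
    by_cases hs : X.α s 1 ≠ 0
    · simp only [if_pos hs]
      fun_prop
    · simp only [if_neg hs]
      fun_prop
  have c5 : ContinuousOn (fun q : (Fin d → ℝ) × ℝ × ℝ =>
      PB N (X.α s) ![X.xN N (fun j => q.1 j + η j * Complex.I) s 0,
      X.xN N (fun j => q.1 j + η j * Complex.I) s 1, X.xN N (fun j => q.1 j + η j * Complex.I) s 2,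
      Jc X ηJ s q.2.2] (q.2.1 : ℂ)) (Kc X r δ N s) := by
    have h1 := (hB.diff N hN).continuousOn
    refine h1.comp (f := fun q : (Fin d → ℝ) × ℝ × ℝ =>
      ((![X.xN N (fun j => q.1 j + η j * Complex.I) s 0,
      X.xN N (fun j => q.1 j + η j * Complex.I) s 1, X.xN N (fun j => q.1 j + η j * Complex.I) s 2,
      Jc X ηJ s q.2.2], (q.2.1 : ℂ)) : (Fin 4 → ℂ) × ℂ)) ?_ ?_
    · refine Continuous.continuousOn ?_
      refine (vec4_cont (c3 0) (c3 1) (c3 2) c4).prodMk (by fun_prop)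
    · intro q hq
      exact hb q hq
  exact (((continuous_const.mul c2).mul continuous_const).continuousOn).mul c5

end

/-- **all integrals together** -/
theorem BXNx (c d : ℕ) (X : Nw c d) (cc : Fin c → Bool) (r κ K C0 : ℝ)
    (hB : ∀ s, Blk (X.α s) r κ K C0) (δ : ℝ) (hδ : 0 < δ)
    (hx : ∀ s, ∀ T : Fin d → ℂ, (∀ j, ‖T j - X.τ j‖ ≤ 2 * δ) →
      X.x T s ∈ Metric.ball (qC (X.α s)) (r / 4)) :
    ∃ N0 : ℕ, ∃ τ2 : ℝ, 0 < τ2 ∧ ∀ (w : Fin c → ℤ) (y ηJ : Fin c → ℝ) (η : Fin d → ℝ),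
    (∀ s, (cc s = false → 0 < y s ∧ y s ≤ τ2) ∧ |ηJ s| ≤ τ2) → (∀ j, |η j| ≤ τ2) → ∀ N : ℕ, N0 ≤ N →
    ∫ x in X.bx δ N, ∏ s, FZx r N (X.α s) (cc s) (w s) (y s) (ηJ s)
        (X.xN N (fun j => x j + η j * Complex.I) s) =
      ∫ u in X.Bx r δ N, PgX X cc N w (fun j => u (.inl j) + η j * Complex.I) (X.Jf u ηJ)
        (zX cc N y fun s => u (.inr (.inr s))) := by
  classical
  obtain ⟨τ2, hτ0, hτδ, hτr⟩ : ∃ τ2 : ℝ, 0 < τ2 ∧ τ2 ≤ δ / 2 ∧ ∀ s : Fin c, τ2 ≤ r / 8 := by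
    rcases isEmpty_or_nonempty (Fin c) with h | ⟨⟨s0⟩⟩
    · exact ⟨δ / 2, by positivity, le_rfl, fun s => (h.false s).elim⟩
    · have hr := (hB s0).r0
      exact ⟨min (δ / 2) (r / 8), lt_min (by positivity) (by positivity), min_le_left _ _,
        fun _ => min_le_right _ _⟩
  set M : ℝ := ∑ s, ∑ i, |(X.q0 s i : ℝ)| with hMdef
  have hM : ∀ s i, |(X.q0 s i : ℝ)| ≤ M := by
    intro s i
    refine (Finset.single_le_sum (f := fun i => |(X.q0 s i : ℝ)|) (fun i _ => abs_nonneg _)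
      (Finset.mem_univ i)).trans ?_
    exact Finset.single_le_sum (f := fun s => ∑ i, |(X.q0 s i : ℝ)|)
      (fun s _ => Finset.sum_nonneg fun i _ => abs_nonneg _) (Finset.mem_univ s)
  refine ⟨max 1 (max ⌈16 / r⌉₊ (max ⌈1 / δ⌉₊ ⌈4 * M / r⌉₊)), τ2, hτ0, ?_⟩
  intro w y ηJ η hy hη N hN
  have hN1 : 0 < N := lt_of_lt_of_le one_pos ((le_max_left _ _).trans hN)
  have hNr : 16 / r ≤ N := (Nat.le_ceil _).trans (by
    exact_mod_cast (le_max_left _ _).trans ((le_max_right _ _).trans hN))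
  have hNδ : 1 / δ ≤ N := (Nat.le_ceil _).trans (by
    exact_mod_cast (le_max_left _ _).trans ((le_max_right _ _).trans ((le_max_right _ _).trans hN)))
  have hNM : 4 * M / r ≤ N := (Nat.le_ceil _).trans (by
    exact_mod_cast (le_max_right _ _).trans ((le_max_right _ _).trans ((le_max_right _ _).trans hN)))
  have hN0 : (0 : ℝ) < N := by exact_mod_cast hN1
  have hb : ∀ s, cc s = false → ∀ q ∈ Ks X r δ N s, ![X.xN N (fun j => q.1 j + η j * Complex.I) s 0,
      X.xN N (fun j => q.1 j + η j * Complex.I) s 1, X.xN N (fun j => q.1 j + η j * Complex.I) s 2,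
      Jc X ηJ s q.2.2] ∈ Metric.ball (vC (X.α s)) r ∧
      (q.2.1 + y s * Complex.I : ℂ) ∈ Metric.ball (0 : ℂ) r := fun s hs q hq =>
    in_ball X (hB s) hδ (hx s) (hM s) hτδ (hτr s) hN1 hNr hNδ hNM ((hy s).1 hs) (hy s).2
      hη hq
  have hbc : ∀ s, ∀ q ∈ Kc X r δ N s, ![X.xN N (fun j => q.1 j + η j * Complex.I) s 0,
      X.xN N (fun j => q.1 j + η j * Complex.I) s 1, X.xN N (fun j => q.1 j + η j * Complex.I) s 2,
      Jc X ηJ s q.2.2] ∈ Metric.ball (vC (X.α s)) r ∧ (q.2.1 : ℂ) ∈ Metric.ball (0 : ℂ) r :=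
    fun s q hq => in_ballc X (hB s) hδ (hx s) (hM s) hτ0 hτδ (hτr s) hN1 hNr hNδ hNM (hy s).2 hη hq
  -- the factors
  obtain ⟨g, hg⟩ : ∃ g : Fin c → (Fin d → ℝ) × ℝ × ℝ → ℂ, g = fun s =>
    if cc s then (fun q => (Kc X r δ N s).indicator (Fcs X N w ηJ η s) (q.1, stN N q.2.1, q.2.2)) else
    (Ks X r δ N s).indicator (Fs X N w y ηJ η s) := ⟨_, rfl⟩
  have hgB : ∀ s, BM (g s) := by
    intro s
    rw [hg]
    simp only
    cases hcs : cc s
    · rw [if_neg (by simp)]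
      exact BM.ind (Ks_compact X r δ N s) (Ks_meas X r δ N s)
        (Fs_cont X (hB s) hN1 w ((hy s).1 hcs).1 (hb s hcs))
    · rw [if_pos rfl]
      exact (BM.ind (Kc_compact X r δ N s) (Kc_meas X r δ N s)
        (Fcs_cont X (hB s) hN1 w (hbc s))).comp (m := fun q : (Fin d → ℝ) × ℝ × ℝ =>
          (q.1, stN N q.2.1, q.2.2)) (by
            have := stN_meas N
            fun_prop)
  have hgf : ∀ s, cc s = false → ∀ q, g s q = (Ks X r δ N s).indicator (Fs X N w y ηJ η s) q := by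
    intro s hs q
    rw [hg]
    simp only
    rw [if_neg (by simp [hs])]
  have hgt : ∀ s, cc s = true → ∀ (x : Fin d → ℝ) (z j : ℝ), g s (x, z, j) =
      (Kc X r δ N s).indicator (Fcs X N w ηJ η s) (x, stN N z, j) := by
    intro s hs x z j
    rw [hg]
    simp only
    rw [if_pos hs]
  have key := abs_fub (fun s : Fin c => X.α s 1 ≠ 0)
    (fun j : Fin d => volume.restrict (Set.Icc (lo N ⌈(N : ℝ) * (X.τ j - δ)⌉) (hi N ⌊(N : ℝ) * (X.τ j + δ)⌋)))
    (fun s => volume.restrict (Set.Icc (lo N ⌈(N : ℝ) * (X.α s.1 1 - r / 4)⌉)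
      (hi N ⌊(N : ℝ) * (X.α s.1 1 + r / 4)⌋)))
    (fun _ : Fin c => volume.restrict (Set.Icc (-th r N) (th r N))) g hgB
  -- the left side
  have hL : ∫ x in X.bx δ N, ∏ s, FZx r N (X.α s) (cc s) (w s) (y s) (ηJ s)
      (X.xN N (fun j => x j + η j * Complex.I) s) =
      ∫ x, ∏ s, ∫ z, (if h : X.α s 1 ≠ 0 then ∫ j, g s (x, z, j) ∂(volume.restrict
        (Set.Icc (lo N ⌈(N : ℝ) * (X.α s 1 - r / 4)⌉) (hi N ⌊(N : ℝ) * (X.α s 1 + r / 4)⌋)))
        else g s (x, z, 0)) ∂(volume.restrict (Set.Icc (-th r N) (th r N)))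
      ∂(Measure.pi fun j : Fin d => volume.restrict
        (Set.Icc (lo N ⌈(N : ℝ) * (X.τ j - δ)⌉) (hi N ⌊(N : ℝ) * (X.τ j + δ)⌋))) := by
    rw [← Measure.restrict_pi_pi, ← volume_pi]
    refine setIntegral_congr_fun (bx_meas X δ N) fun x hxb => ?_
    refine Finset.prod_congr rfl fun s _ => ?_
    have hr := (hB s).r0
    have hr16 : r ≤ 1 / 16 := (hB s).r1.trans (by norm_num)
    have hth := (th_bounds hr hr16 hNr).1
    have hNr' : 16 ≤ N * r := by rwa [div_le_iff₀ hr] at hNr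
    cases hcs : cc s
    · unfold FZx FZ QZ
      rw [if_neg (by simp)]
      rw [intervalIntegral.integral_of_le (by linarith), ← integral_Icc_eq_integral_Ioc,
        ← integral_const_mul]
      refine setIntegral_congr_fun measurableSet_Icc fun z hz => ?_
      simp only
      by_cases hs : X.α s 1 ≠ 0
      · rw [dif_pos hs]
        have hs' : ¬ X.α s 1 = 0 := hs
        unfold VB
        rw [if_neg hs', intervalIntegral.integral_of_le (lohi_le hN1 (by linarith)),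
          ← integral_Icc_eq_integral_Ioc, ← integral_const_mul]
        simp only [← integral_const_mul, ← integral_mul_const]
        refine setIntegral_congr_fun measurableSet_Icc fun j hj => ?_
        have hmem : (x, z, j) ∈ Ks X r δ N s := by
          refine ⟨hxb, hz, ?_⟩
          show j ∈ IJ X r N s
          unfold IJ
          rw [if_pos hs]
          exact hj
        rw [hgf s hcs, Set.indicator_of_mem hmem]
        unfold Fs Jc
        simp only
        rw [if_neg hs', if_pos hs]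
        ring
      · rw [dif_neg hs]
        have hs' : X.α s 1 = 0 := not_not.1 hs
        unfold VB
        rw [if_pos hs']
        have hmem : (x, z, (0 : ℝ)) ∈ Ks X r δ N s := by
          refine ⟨hxb, hz, ?_⟩
          show (0 : ℝ) ∈ IJ X r N s
          unfold IJ
          rw [if_neg hs]
          rfl
        rw [hgf s hcs, Set.indicator_of_mem hmem]
        unfold Fs Jc
        simp only
        rw [if_pos hs', if_neg hs]
        ring
    · unfold FZx
      rw [if_pos rfl, FZc_int hN1 hr hr16 hNr]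
      refine setIntegral_congr_fun measurableSet_Icc fun z hz => ?_
      by_cases hs : X.α s 1 ≠ 0
      · rw [dif_pos hs]
        have hs' : ¬ X.α s 1 = 0 := hs
        unfold VB
        rw [if_neg hs', intervalIntegral.integral_of_le (lohi_le hN1 (by linarith)),
          ← integral_Icc_eq_integral_Ioc]
        simp only [← integral_const_mul]
        refine setIntegral_congr_fun measurableSet_Icc fun j hj => ?_
        have hmem : (x, stN N z, j) ∈ Kc X r δ N s := by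
          refine ⟨hxb, stN_mem hN1 hr hr16 hNr hz, ?_⟩
          show j ∈ IJ X r N s
          unfold IJ
          rw [if_pos hs]
          exact hj
        rw [hgt s hcs, Set.indicator_of_mem hmem]
        unfold Fcs Jc
        simp only
        rw [if_neg hs', if_pos hs]
        ring
      · rw [dif_neg hs]
        have hs' : X.α s 1 = 0 := not_not.1 hs
        unfold VB
        rw [if_pos hs']
        have hmem : (x, stN N z, (0 : ℝ)) ∈ Kc X r δ N s := by
          refine ⟨hxb, stN_mem hN1 hr hr16 hNr hz, ?_⟩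
          show (0 : ℝ) ∈ IJ X r N s
          unfold IJ
          rw [if_neg hs]
          rfl
        rw [hgt s hcs, Set.indicator_of_mem hmem]
        unfold Fcs Jc
        simp only
        rw [if_pos hs', if_neg hs]
        ring
  rw [hL, key]
  -- the right side
  have hBx : X.Bx r δ N = Set.univ.pi (Sum.elim
      (fun j : Fin d => Set.Icc (lo N ⌈(N : ℝ) * (X.τ j - δ)⌉) (hi N ⌊(N : ℝ) * (X.τ j + δ)⌋))
      (Sum.elim (fun s : {s : Fin c // X.α s 1 ≠ 0} => Set.Icc (lo N ⌈(N : ℝ) * (X.α s.1 1 - r / 4)⌉)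
        (hi N ⌊(N : ℝ) * (X.α s.1 1 + r / 4)⌋)) (fun _ : Fin c => Set.Icc (-th r N) (th r N)))) := by
    ext u
    constructor
    · rintro ⟨a1, a2, a3⟩ i _
      rcases i with i | i | i
      · exact a1 i (Set.mem_univ _)
      · exact a2 i
      · exact a3 i
    · intro h
      exact ⟨fun j _ => h (.inl j) (Set.mem_univ _), fun s => h (.inr (.inl s)) (Set.mem_univ _),
        fun s => h (.inr (.inr s)) (Set.mem_univ _)⟩
  have hmeas : Measure.pi (mA (fun s : Fin c => X.α s 1 ≠ 0)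
      (fun j : Fin d => volume.restrict (Set.Icc (lo N ⌈(N : ℝ) * (X.τ j - δ)⌉) (hi N ⌊(N : ℝ) * (X.τ j + δ)⌋)))
      (fun s => volume.restrict (Set.Icc (lo N ⌈(N : ℝ) * (X.α s.1 1 - r / 4)⌉)
      (hi N ⌊(N : ℝ) * (X.α s.1 1 + r / 4)⌋)))
      (fun _ : Fin c => volume.restrict (Set.Icc (-th r N) (th r N)))) =
      (volume : Measure (X.Ix → ℝ)).restrict (X.Bx r δ N) := by
    rw [hBx, volume_pi, Measure.restrict_pi_pi]
    congr 1
    funext i
    rcases i with i | i | i <;> rfl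
  rw [hmeas]
  have hBm : MeasurableSet (X.Bx r δ N) := by
    rw [hBx]
    refine MeasurableSet.univ_pi fun i => ?_
    rcases i with i | i | i <;> exact measurableSet_Icc
  refine setIntegral_congr_fun hBm fun u hu => ?_
  unfold PgX
  refine Finset.prod_congr rfl fun s _ => ?_
  obtain ⟨a1, a2, a3⟩ := hu
  have hr := (hB s).r0
  have hr16 : r ≤ 1 / 16 := (hB s).r1.trans (by norm_num)
  cases hcs : cc s
  · rw [if_neg (by simp), hgf s hcs, zX_of_f hcs]
    by_cases hs : X.α s 1 ≠ 0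
    · rw [dif_pos hs]
      have hmem : ((fun i => u (.inl i)), u (.inr (.inr s)), u (.inr (.inl ⟨s, hs⟩))) ∈ Ks X r δ N s := by
        refine ⟨a1, a3 s, ?_⟩
        show u (.inr (.inl ⟨s, hs⟩)) ∈ IJ X r N s
        unfold IJ
        rw [if_pos hs]
        exact a2 ⟨s, hs⟩
      rw [Set.indicator_of_mem hmem]
      unfold Fs Jc Nw.Jf
      simp only
      rw [if_pos hs, dif_pos hs]
    · rw [dif_neg hs]
      have hmem : ((fun i => u (.inl i)), u (.inr (.inr s)), (0 : ℝ)) ∈ Ks X r δ N s := by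
        refine ⟨a1, a3 s, ?_⟩
        show (0 : ℝ) ∈ IJ X r N s
        unfold IJ
        rw [if_neg hs]
        rfl
      rw [Set.indicator_of_mem hmem]
      unfold Fs Jc Nw.Jf
      simp only
      rw [if_neg hs, dif_neg hs]
  · rw [if_pos rfl, hgt s hcs, zX_of_t hcs]
    by_cases hs : X.α s 1 ≠ 0
    · rw [dif_pos hs]
      have hmem : ((fun i => u (.inl i)), stN N (u (.inr (.inr s))), u (.inr (.inl ⟨s, hs⟩))) ∈ Kc X r δ N s := by
        refine ⟨a1, stN_mem hN1 hr hr16 hNr (a3 s), ?_⟩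
        show u (.inr (.inl ⟨s, hs⟩)) ∈ IJ X r N s
        unfold IJ
        rw [if_pos hs]
        exact a2 ⟨s, hs⟩
      rw [Set.indicator_of_mem hmem]
      unfold Fcs Jc Nw.Jf
      simp only
      rw [if_pos hs, dif_pos hs]
    · rw [dif_neg hs]
      have hmem : ((fun i => u (.inl i)), stN N (u (.inr (.inr s))), (0 : ℝ)) ∈ Kc X r δ N s := by
        refine ⟨a1, stN_mem hN1 hr hr16 hNr (a3 s), ?_⟩
        show (0 : ℝ) ∈ IJ X r N s
        unfold IJ
        rw [if_neg hs]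
        rfl
      rw [Set.indicator_of_mem hmem]
      unfold Fcs Jc Nw.Jf
      simp only
      rw [if_neg hs, dif_neg hs]

end Pool.Agent.H760.MX
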