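import Pool.Agent.H760.MX.NZ

/-!
# Partially augmented planar shadows: bounds of the weight of a circled region
-/

set_option autoImplicit false

namespace Pool.Agent.H760.MX

open Finset Filter Topology MeasureTheory
open Pool.Agent.W719.BS (D LL)
open Pool.Agent.Q99.FAL (bq hh S_T1 dn n1 n2)
open Pool.Agent.Q99.KN (sn bc Wk zl ez Fk QZ kz th jN S_PZ)
open Pool.Agent.Q99.HT
open Pool.Agent.Q99.HU
open Pool.Agent.Q195.HT
open Q299.KN.Bq (th_bounds)

theorem norm_ez_real (N : ℕ) (w : ℤ) (x : ℝ) : ‖ez N w (x : ℂ)‖ = 1 := by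
  unfold ez
  have : Complex.I * Real.pi * w * (x : ℂ) ^ 2 / (4 * N) =
      ((Real.pi * w * x ^ 2 / (4 * N) : ℝ) : ℂ) * Complex.I := by
    push_cast
    ring
  rw [this, Complex.norm_exp_ofReal_mul_I]

theorem norm_ez_zl (N : ℕ) (w : ℤ) (k : ℕ) : ‖ez N w (zl N k)‖ = 1 := by
  rw [zl_real]
  exact norm_ez_real N w _

theorem Fc_le (N : ℕ) (w : ℤ) (A b C : ℕ) : ‖Fc N w A b C‖ ≤
    ∑ k ∈ range N, ∑ j ∈ range (b + 1), ‖Tm N (zl N k) A b C j‖ := by
  unfold Fc
  refine (norm_sum_le _ _).trans (Finset.sum_le_sum fun k _ => ?_)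
  rw [norm_mul, norm_ez_zl, one_mul, Wk_Tm]
  exact norm_sum_le _ _

/-- **the exponential growth of the weight of a circled region** -/
theorem Fc_FS : ∃ (C0 : ℝ) (p : ℕ), ∀ (w : ℤ) (N A b C : ℕ), 2 ≤ N → A + b + C < N →
    Fc N w A b C = 0 ∨ ∃ x : Fin 6 → ℝ, Crn N A b C x ∧ x 0 ≤ n2 x ∧ x 3 ≤ n1 x ∧
      ‖Fc N w A b C‖ ≤ C0 * N ^ p * Real.exp (N * pt x) := by
  obtain ⟨C, p, hP⟩ := Pool.Agent.Q151.HU.task_PTB Pool.Agent.Q151.HU.task_LBD
  refine ⟨C, p + 2, fun w N A b C' hN hs => ?_⟩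
  by_cases h0 : Fc N w A b C' = 0
  · exact Or.inl h0
  right
  have hNpos : 0 < N := by omega
  -- the largest term
  obtain ⟨kj, hkj, hmax⟩ := Finset.exists_max_image (range N ×ˢ range (b + 1))
    (fun kj : ℕ × ℕ => ‖Tm N (zl N kj.1) A b C' kj.2‖)
    ⟨(0, 0), by simp [hNpos]⟩
  obtain ⟨k, j⟩ := kj
  rw [Finset.mem_product, Finset.mem_range, Finset.mem_range] at hkj
  simp only at hkj hmax
  have hk := hkj.1
  have hj : j ≤ b := by omega
  have hsum : ‖Fc N w A b C'‖ ≤ (N : ℝ) ^ 2 * ‖Tm N (zl N k) A b C' j‖ := by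
    refine (Fc_le N w A b C').trans ?_
    rw [← Finset.sum_product']
    have h1 := Finset.sum_le_card_nsmul (range N ×ˢ range (b + 1))
      (fun kj : ℕ × ℕ => ‖Tm N (zl N kj.1) A b C' kj.2‖) _ hmax
    refine h1.trans ?_
    rw [nsmul_eq_mul, Finset.card_product, Finset.card_range, Finset.card_range, sq]
    apply mul_le_mul_of_nonneg_right _ (norm_nonneg _)
    push_cast
    apply mul_le_mul_of_nonneg_left _ (Nat.cast_nonneg _)
    exact_mod_cast (by omega : b + 1 ≤ N)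
  have hne : Tm N (zl N k) A b C' j ≠ 0 := by
    intro hc
    rw [hc, norm_zero, mul_zero] at hsum
    exact h0 (norm_le_zero_iff.1 hsum)
  obtain ⟨h1, h2⟩ := Tm_zero hk hs hj hne
  have hA : A ≤ N - 1 - k := by
    by_contra hc
    rw [Tm_lat hk hs hj] at hne
    apply hne
    rw [Pool.Agent.Q208.HT.bq_zero (N := N) (n := N - 1 - k) (y := A) (by omega)]
    simp
  have hC : C' ≤ k := by
    by_contra hc
    rw [Tm_lat hk hs hj] at hne
    apply hne
    rw [Pool.Agent.Q208.HT.bq_zero (N := N) (n := k) (y := C') (by omega)]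
    simp
  let a : Fin 6 → ℕ := ![A, j, k - A - j, C', b - j, N - 1 - k - C' - (b - j)]
  have a0 : a 0 = A := rfl
  have a1 : a 1 = j := rfl
  have a2 : a 2 = k - A - j := rfl
  have a3 : a 3 = C' := rfl
  have a4 : a 4 = b - j := rfl
  have a5 : a 5 = N - 1 - k - C' - (b - j) := rfl
  have hb := (hP N k (N - 1 - k) a hN (by omega) (by rw [a0, a1, a2]; omega)
    (by rw [a3, a4, a5]; omega)).1 (by rw [a0]; exact hA) (by rw [a3]; exact hC)
  have hT : ‖Tm N (zl N k) A b C' j‖ ≤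
      C * N ^ p * Real.exp (N * pt (fun i => (a i : ℝ) / (N - 1))) := by
    refine le_trans (le_of_eq ?_) hb
    rw [Tm_lat hk hs hj, Complex.norm_real, Real.norm_of_nonneg, a0, a1, a2, a3, a4, a5]
    · have b1 := Pool.Agent.Q239.HU.bq_symm (N := N) (n := k) (x := A + j) hk h1
      have b2 := Pool.Agent.Q239.HU.bq_symm (N := N) (n := N - 1 - k) (x := C' + (b - j))
        (by omega) h2
      have e1 : k - (A + j) = k - A - j := by omega
      have e2 : N - 1 - k - (C' + (b - j)) = N - 1 - k - C' - (b - j) := by omega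
      rw [e1] at b1
      rw [e2] at b2
      rw [b1, b2]
    · have hm : N - 1 - k < N := by omega
      have := Pool.Agent.Q208.HT.bq_nonneg' (N := N) (n := N - 1 - k) (y := A) hm
      have := Pool.Agent.Q208.HT.bq_nonneg' (N := N) (n := k) (y := C') hk
      have := Pool.Agent.Q208.HT.bq_nonneg' (N := N) (n := k) (y := j) hk
      have := Pool.Agent.Q208.HT.bq_nonneg' (N := N) (n := N - 1 - k) (y := b - j) hm
      have := Pool.Agent.Q208.HT.bq_nonneg' (N := N) (n := k) (y := A + j) hk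
      have := Pool.Agent.Q208.HT.bq_nonneg' (N := N) (n := N - 1 - k) (y := C' + (b - j)) hm
      positivity
  have hN1 : (0 : ℝ) < (N : ℝ) - 1 := by
    have : (2 : ℝ) ≤ N := by exact_mod_cast hN
    linarith
  have hN1' := hN1.ne'
  have s1 : (a 0 : ℝ) + a 1 + a 2 = k := by
    have : a 0 + a 1 + a 2 = k := by rw [a0, a1, a2]; omega
    exact_mod_cast this
  have s2 : (a 3 : ℝ) + a 4 + a 5 = (N : ℝ) - 1 - k := by
    have : a 3 + a 4 + a 5 = N - 1 - k := by rw [a3, a4, a5]; omega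
    have h3 : (a 3 : ℝ) + a 4 + a 5 = ((N - 1 - k : ℕ) : ℝ) := by exact_mod_cast this
    rw [h3, Nat.cast_sub (by omega), Nat.cast_sub (by omega)]
    simp
  have m1 : n1 (fun i => (a i : ℝ) / (N - 1)) = k / ((N : ℝ) - 1) := by
    show (a 0 : ℝ) / (N - 1) + (a 1 : ℝ) / (N - 1) + (a 2 : ℝ) / (N - 1) = _
    rw [← add_div, ← add_div, s1]
  have m2 : n2 (fun i => (a i : ℝ) / (N - 1)) = ((N : ℝ) - 1 - k) / ((N : ℝ) - 1) := by
    show (a 3 : ℝ) / (N - 1) + (a 4 : ℝ) / (N - 1) + (a 5 : ℝ) / (N - 1) = _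
    rw [← add_div, ← add_div, s2]
  refine ⟨fun i => (a i : ℝ) / (N - 1), ⟨fun i => by positivity, ?_, ?_, ?_, ?_⟩, ?_, ?_, ?_⟩
  · rw [m1, m2, ← add_div]
    field_simp
    ring
  · show ((N : ℝ) - 1) * ((a 0 : ℝ) / (N - 1)) = A
    rw [mul_div_cancel₀ _ hN1', a0]
  · show ((N : ℝ) - 1) * ((a 1 : ℝ) / (N - 1) + (a 4 : ℝ) / (N - 1)) = b
    rw [← add_div, mul_div_cancel₀ _ hN1', a1, a4]
    have : j + (b - j) = b := by omega
    exact_mod_cast this
  · show ((N : ℝ) - 1) * ((a 3 : ℝ) / (N - 1)) = C'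
    rw [mul_div_cancel₀ _ hN1', a3]
  · rw [m2]
    show (a 0 : ℝ) / (N - 1) ≤ _
    apply div_le_div_of_nonneg_right _ hN1.le
    rw [a0]
    have : (A : ℝ) + k + 1 ≤ N := by exact_mod_cast (by omega : A + k + 1 ≤ N)
    linarith
  · rw [m1]
    show (a 3 : ℝ) / (N - 1) ≤ _
    apply div_le_div_of_nonneg_right _ hN1.le
    rw [a3]
    exact_mod_cast hC
  · refine hsum.trans ?_
    have := mul_le_mul_of_nonneg_left hT (by positivity : (0 : ℝ) ≤ (N : ℝ) ^ 2)
    refine this.trans (le_of_eq ?_)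
    rw [pow_add]
    ring

/-! ### near the centre -/

/-- the bounds of a circled region -/
structure Lc (α : Fin 6 → ℝ) (κ C0 : ℝ) : Prop where
  lt : Ltn α κ C0 (-1)
  tg : ∀ N A b C j k : ℕ, A + b + C < N → Cmp α A b C → j ≤ b → k < N →
    ‖Tm N (zl N k) A b C j‖ ≤ C0 * Real.exp (eX N α A b C - κ * dX N α A b C k / N)

theorem Lc_mono {α : Fin 6 → ℝ} {κ C0 κ' C0' : ℝ} (h : Lc α κ C0) (h1 : κ' ≤ κ) (h2 : C0 ≤ C0') :
    Lc α κ' C0' := by
  refine ⟨t_LMO _ _ _ _ _ _ _ h.lt h1 h2 le_rfl, ?_⟩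
  intro N A b C j k g1 g2 g3 g4
  have h3 := h.tg N A b C j k g1 g2 g3 g4
  have hN : (0 : ℝ) < N := by exact_mod_cast (by omega : 0 < N)
  have hd : 0 ≤ dX N α A b C k := by
    unfold dX
    positivity
  have e0 : 0 ≤ C0 := by
    by_contra hc
    have h4 := mul_neg_of_neg_of_pos (not_le.1 hc) (Real.exp_pos (eX N α A b C - κ * dX N α A b C k / N))
    have := norm_nonneg (Tm N (zl N k) A b C j)
    linarith
  have e1 : κ' * dX N α A b C k / N ≤ κ * dX N α A b C k / N := by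
    apply div_le_div_of_nonneg_right _ hN.le
    exact mul_le_mul_of_nonneg_right h1 hd
  calc _ ≤ C0 * Real.exp (eX N α A b C - κ * dX N α A b C k / N) := h3
    _ ≤ C0 * Real.exp (eX N α A b C - κ' * dX N α A b C k / N) := by
        apply mul_le_mul_of_nonneg_left _ e0
        exact Real.exp_le_exp.2 (by linarith)
    _ ≤ _ := mul_le_mul_of_nonneg_right h2 (Real.exp_pos _).le

/-- the bounds exist, without further conditions -/
theorem Lc_exists {α : Fin 6 → ℝ} (hF : Fr α) (h12 : α 1 ≤ α 2) (h45 : α 4 ≤ α 5) :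
    ∃ κ C0 : ℝ, 0 < κ ∧ Lc α κ C0 := by
  obtain ⟨C1, κ1, hκ1, hT⟩ := t_TW α hF h12 h45
  obtain ⟨C2, κ2, hκ2, hG⟩ := Pool.Agent.Q166.HT.task_TG t_T1 α hF
  have hl : Ltn α κ1 C1 (-1) := by
    refine ⟨hT, ?_, ?_⟩
    · intro N A b C k _ _ h1 _ _ _
      have := abs_nonneg ((A : ℝ) / N - α 0)
      linarith
    · intro N A b C g1 z
      exact (Pool.Agent.Q208.HT.task_EV t_PF t_WR N (by omega) z A b C g1).1
  have hm : 0 < min κ1 κ2 := lt_min hκ1 hκ2
  refine ⟨min κ1 κ2, max (max C1 C2) 0, hm, ?_, ?_⟩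
  · exact t_LMO _ _ _ _ _ _ _ hl (min_le_left _ _) ((le_max_left _ _).trans (le_max_left _ _)) le_rfl
  · intro N A b C j k g1 g2 g3 g4
    have hN : (0 : ℝ) < N := by exact_mod_cast (by omega : 0 < N)
    rw [Tm_lat g4 g1 g3, Complex.norm_real, Real.norm_of_nonneg]
    · have h := hG N k (N - 1 - k) A b C j (by omega) g3 g2
      refine h.trans ?_
      have hd : 0 ≤ dX N α A b C k + ((j : ℝ) - N * α 1) ^ 2 := by
        unfold dX
        positivity
      have e1 : min κ1 κ2 * dX N α A b C k / N ≤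
          κ2 * (dX N α A b C k + ((j : ℝ) - N * α 1) ^ 2) / N := by
        apply div_le_div_of_nonneg_right _ hN.le
        have h5 := mul_le_mul_of_nonneg_right (min_le_right κ1 κ2) hd
        have h6 := mul_le_mul_of_nonneg_left (le_add_of_nonneg_right (sq_nonneg ((j : ℝ) - N * α 1)) :
          dX N α A b C k ≤ _) hm.le
        linarith
      calc _ ≤ C2 * Real.exp (eX N α A b C - min κ1 κ2 * dX N α A b C k / N) ⊔ 0 := by
            rcases le_or_gt 0 C2 with hc | hc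
            · exact (mul_le_mul_of_nonneg_left (Real.exp_le_exp.2 (by linarith)) hc).trans
                (le_max_left _ _)
            · have : C2 * Real.exp (eX N α A b C - κ2 * (dX N α A b C k + ((j : ℝ) - N * α 1) ^ 2) / N)
                  ≤ 0 := mul_nonpos_of_nonpos_of_nonneg hc.le (Real.exp_pos _).le
              exact this.trans (le_max_right _ _)
        _ ≤ _ := by
            apply max_le
            · exact mul_le_mul_of_nonneg_right ((le_max_right C1 C2).trans (le_max_left _ _))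
                (Real.exp_pos _).le
            · exact mul_nonneg (le_max_right _ _) (Real.exp_pos _).le
    · have hm : N - 1 - k < N := by omega
      have := Pool.Agent.Q208.HT.bq_nonneg' (N := N) (n := N - 1 - k) (y := A) hm
      have := Pool.Agent.Q208.HT.bq_nonneg' (N := N) (n := k) (y := C) g4
      have := Pool.Agent.Q208.HT.bq_nonneg' (N := N) (n := k) (y := j) g4
      have := Pool.Agent.Q208.HT.bq_nonneg' (N := N) (n := N - 1 - k) (y := b - j) hm
      have := Pool.Agent.Q208.HT.bq_nonneg' (N := N) (n := k) (y := A + j) g4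
      have := Pool.Agent.Q208.HT.bq_nonneg' (N := N) (n := N - 1 - k) (y := C + (b - j)) hm
      positivity

/-- the analytic continuation of `Fc` -/
noncomputable def FZc (r : ℝ) (N : ℕ) (α : Fin 6 → ℝ) (w : ℤ) (η : ℝ) (ξ : Fin 3 → ℂ) : ℂ :=
  ∑ k ∈ Ico (jN r N) (N - jN r N), ez N w (zl N k) * VB r N α η ξ (zl N k / N)

theorem LD_sum {E : Type} [NormedAddCommGroup E] [NormedSpace ℂ E] {U : Set E} {ι : Type}
    (s : Finset ι) (f : ι → E → ℂ) (h : ∀ i ∈ s, LD (f i) U) : LD (fun x => ∑ i ∈ s, f i x) U := by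
  refine ⟨continuousOn_finsetSum s fun i hi => (h i hi).1, fun x hx u => ?_⟩
  exact DifferentiableAt.fun_sum fun i hi => (h i hi).2 x hx u

theorem LD_slice {f : (Fin 3 → ℂ) × ℂ → ℂ} {U : Set (Fin 3 → ℂ)} {V : Set ℂ} {z : ℂ}
    (h : LD f (U ×ˢ V)) (hz : z ∈ V) : LD (fun ξ => f (ξ, z)) U := by
  refine ⟨h.1.comp (by fun_prop) fun ξ hξ => ⟨hξ, hz⟩, fun x hx u => ?_⟩
  have h1 := h.2 (x, z) ⟨hx, hz⟩ (u, 0)
  refine h1.congr_of_eventuallyEq (Filter.Eventually.of_forall fun t => ?_)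
  show f (x + t • u, z) = f ((x, z) + t • (u, (0 : ℂ)))
  congr 1
  ext
  · rfl
  · simp

/-- **the weight of a circled region near the centre** -/
theorem BNc' (α : Fin 6 → ℝ) (r κ K C0 : ℝ) (hF : Fr α) (hB : Blk α r κ K C0) (hL : Lc α κ C0) :
    ∃ τ0 c1 : ℝ, 0 < τ0 ∧ 0 < c1 ∧ ∀ (w : ℤ) (η : ℝ), |η| ≤ τ0 →
    ∃ C : ℝ, ∃ p N0 : ℕ, ∀ N : ℕ, N0 ≤ N →
    LD (FZc r N α w η) (Metric.ball (qC α) (r / 2)) ∧
    (∀ ξ ∈ Metric.ball (qC α) (r / 2), Ad3 α ξ → ‖FZc r N α w η ξ‖ ≤ C * N ^ p *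
      Real.exp (N * (v0 α + K * η ^ 2 +
        mR α (re3 ξ) - κ * sR α (re3 ξ) + K * ∑ i, (ξ i).im ^ 2))) ∧
    ∀ A b C' : ℕ, Cmp α A b C' → |(A : ℝ) / N - α 0| ≤ r / 4 →
      |(b : ℝ) / N - (α 1 + α 4)| ≤ r / 4 → |(C' : ℝ) / N - α 3| ≤ r / 4 →
      ‖Fc N w A b C' - FZc r N α w η ![(A : ℂ) / N, (b : ℂ) / N, (C' : ℂ) / N]‖ ≤
        C * N ^ p * Real.exp (eX N α A b C' - c1 * N) := by
  have hr := hB.r0
  have hr64 := hB.r1
  have hr1 : r ≤ 1 / 16 := by linarith
  have hκ := hB.κ0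
  have hK : 0 < K := lt_of_lt_of_le hκ hB.κK
  have hC0 := hB.C1
  obtain ⟨τ1, c1, hτ1, hc1, hSJ'⟩ := t_SJ α r κ K C0 (-1) hF hB hL.lt
  obtain ⟨c, hc⟩ : ∃ c, c = min c1 (κ * r ^ 2 / 256) := ⟨_, rfl⟩
  have hcp : 0 < c := by rw [hc]; positivity
  have hca : c ≤ c1 := by rw [hc]; exact min_le_left _ _
  have hcc : c ≤ κ * r ^ 2 / 256 := by rw [hc]; exact min_le_right _ _
  refine ⟨τ1, c, hτ1, hcp, fun w η hη => ?_⟩
  obtain ⟨Cs, p, N0, hS⟩ := hSJ' η hη
  refine ⟨2 * |Cs| + C0, p + 2, max N0 ⌈16 / r⌉₊, fun N hN => ?_⟩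
  have hNa : N0 ≤ N := (le_max_left _ _).trans hN
  have hNc : 16 / r ≤ N := by
    have h1 : ⌈16 / r⌉₊ ≤ N := (le_max_right _ _).trans hN
    exact (Nat.le_ceil _).trans (by exact_mod_cast h1)
  obtain ⟨hN1, hth1, hth2, hj⟩ := th_bounds hr hr1 hNc
  have hN1' : (1 : ℝ) ≤ N := by exact_mod_cast hN1
  have hN0 : (0 : ℝ) < N := by linarith
  have pw : ∀ j : ℕ, j ≤ p + 2 → (N : ℝ) ^ j ≤ (N : ℝ) ^ (p + 2) := fun j hj =>
    pow_le_pow_right₀ hN1' hj
  have hsub : Ico (jN r N) (N - jN r N) ⊆ range N := by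
    intro k hk
    exact Finset.mem_range.2 (core_k hr hr1 hNc hk).1
  have hcard : ((Ico (jN r N) (N - jN r N)).card : ℝ) ≤ N := by
    have h1 := Finset.card_le_card hsub
    rw [Finset.card_range] at h1
    exact_mod_cast h1
  have hzl : ∀ k : ℕ, zl N k / N = (((2 * (k : ℝ) + 1 - N) / N : ℝ) : ℂ) := by
    intro k
    rw [zl_real]
    push_cast
    rfl
  have hzm : ∀ k ∈ Ico (jN r N) (N - jN r N), ‖zl N k / N‖ < r := by
    intro k hk
    rw [hzl, Complex.norm_real, Real.norm_eq_abs]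
    linarith [(core_k hr hr1 hNc hk).2]
  refine ⟨?_, ?_, ?_⟩
  · refine LD_sum _ (fun k ξ => ez N w (zl N k) * VB r N α η ξ (zl N k / N)) fun k hk => ?_
    have h1 := LD_slice (f := fun q => VB r N α η q.1 q.2) (z := zl N k / N) (hS N hNa).1
      (by rw [mem_ball_zero_iff]; exact hzm k hk)
    exact LD_const_mul h1 _
  · intro ξ hξ hA
    unfold FZc
    refine (norm_sum_le _ _).trans ?_
    have key : ∀ k ∈ Ico (jN r N) (N - jN r N),
        ‖ez N w (zl N k) * VB r N α η ξ (zl N k / N)‖ ≤ |Cs| * N * Real.exp (N * (v0 α + K * η ^ 2 +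
        mR α (re3 ξ) - κ * sR α (re3 ξ) + K * ∑ i, (ξ i).im ^ 2)) := by
      intro k hk
      rw [norm_mul, norm_ez_zl, one_mul]
      refine ((hS N hNa).2.1 ξ hξ hA _ (hzm k hk)).trans ?_
      have him : (zl N k / N : ℂ).im = 0 := by rw [hzl, Complex.ofReal_im]
      rw [him]
      apply mul_le_mul (mul_le_mul_of_nonneg_right (le_abs_self _) hN0.le) _ (Real.exp_pos _).le
        (by positivity)
      apply Real.exp_le_exp.2
      apply mul_le_mul_of_nonneg_left _ hN0.le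
      have h1 : 0 ≤ κ * (zl N k / N : ℂ).re ^ 2 := by positivity
      have h2 : κ * (sR α (re3 ξ) + (zl N k / N : ℂ).re ^ 2) =
        κ * sR α (re3 ξ) + κ * (zl N k / N : ℂ).re ^ 2 := by ring
      rw [h2]
      linarith
    have h := Finset.sum_le_card_nsmul _ _ _ key
    rw [nsmul_eq_mul] at h
    refine h.trans ?_
    obtain ⟨E, hE⟩ : ∃ E : ℝ, E = Real.exp (N * (v0 α + K * η ^ 2 +
        mR α (re3 ξ) - κ * sR α (re3 ξ) + K * ∑ i, (ξ i).im ^ 2)) := ⟨_, rfl⟩
    have hE0 : 0 < E := by rw [hE]; exact Real.exp_pos _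
    rw [← hE]
    have h5 := mul_le_mul_of_nonneg_right hcard (by positivity : 0 ≤ |Cs| * N * E)
    refine h5.trans ?_
    have h6 := mul_le_mul_of_nonneg_right (pw 2 (by omega)) (by positivity : 0 ≤ |Cs| * E)
    calc (N : ℝ) * (|Cs| * N * E) = N ^ 2 * (|Cs| * E) := by ring
      _ ≤ N ^ (p + 2) * (|Cs| * E) := h6
      _ ≤ (2 * |Cs| + C0) * N ^ (p + 2) * E := by
          have h7 : 0 ≤ (|Cs| + C0) * N ^ (p + 2) * E := by
            have := abs_nonneg Cs
            positivity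
          nlinarith
  · intro A b C hcm hA hb hC
    have hsum := sum_lt hF hB hN1 hA hb hC
    obtain ⟨Y, hY⟩ : ∃ Y : ℝ, Y = Real.exp (eX N α A b C - c * N) := ⟨_, rfl⟩
    have hY0 : 0 < Y := by rw [hY]; exact Real.exp_pos _
    have hYle : ∀ c' : ℝ, c ≤ c' → Real.exp (eX N α A b C - c' * N) ≤ Y := by
      intro c' h
      rw [hY]
      apply Real.exp_le_exp.2
      have := mul_le_mul_of_nonneg_right h hN0.le
      linarith
    have hsplit : Fc N w A b C = ∑ k ∈ range N \ Ico (jN r N) (N - jN r N),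
        ez N w (zl N k) * Wk N (zl N k) A b C +
        ∑ k ∈ Ico (jN r N) (N - jN r N), ez N w (zl N k) * Wk N (zl N k) A b C := by
      unfold Fc
      exact (Finset.sum_sdiff hsub).symm
    have hO : ‖∑ k ∈ range N \ Ico (jN r N) (N - jN r N), ez N w (zl N k) * Wk N (zl N k) A b C‖ ≤
        C0 * N ^ (p + 2) * Y := by
      refine (norm_sum_le _ _).trans ?_
      have key : ∀ k ∈ range N \ Ico (jN r N) (N - jN r N),
          ‖ez N w (zl N k) * Wk N (zl N k) A b C‖ ≤ N * (C0 * Y) := by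
        intro k hk
        rw [Finset.mem_sdiff, Finset.mem_range] at hk
        rw [norm_mul, norm_ez_zl, one_mul, Wk_Tm]
        refine (norm_sum_le _ _).trans ?_
        have key2 : ∀ j ∈ range (b + 1), ‖Tm N (zl N k) A b C j‖ ≤ C0 * Y := by
          intro j hj
          rw [Finset.mem_range] at hj
          refine (hL.tg N A b C j k hsum hcm (by omega) hk.1).trans ?_
          apply mul_le_mul_of_nonneg_left _ (by linarith)
          refine le_trans ?_ (hYle _ hcc)
          apply Real.exp_le_exp.2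
          have h2 := outer_k (α := α) hr hr1 hNc (A := A) (b := b) (C := C) hk.2
          have h3 : κ * r ^ 2 / 256 * N ≤ κ * dX N α A b C k / N := by
            rw [le_div_iff₀ hN0]
            have h4 := mul_le_mul_of_nonneg_left h2 hκ.le
            calc _ = κ * (r / 16 * N) ^ 2 := by ring
              _ ≤ _ := h4
          linarith
        have h := Finset.sum_le_card_nsmul _ _ _ key2
        rw [nsmul_eq_mul, Finset.card_range] at h
        refine h.trans ?_
        apply mul_le_mul_of_nonneg_right _ (by positivity)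
        exact_mod_cast (by omega : b + 1 ≤ N)
      have h := Finset.sum_le_card_nsmul _ _ _ key
      rw [nsmul_eq_mul] at h
      refine h.trans ?_
      have hcard2 : ((range N \ Ico (jN r N) (N - jN r N)).card : ℝ) ≤ N := by
        have h1 := Finset.card_le_card (Finset.sdiff_subset (s := range N)
          (t := Ico (jN r N) (N - jN r N)))
        rw [Finset.card_range] at h1
        exact_mod_cast h1
      have h5 := mul_le_mul_of_nonneg_right hcard2 (by positivity : 0 ≤ N * (C0 * Y))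
      refine h5.trans ?_
      have h4 := mul_le_mul_of_nonneg_right (pw 2 (by omega)) (by positivity : 0 ≤ C0 * Y)
      calc (N : ℝ) * (N * (C0 * Y)) = N ^ 2 * (C0 * Y) := by ring
        _ ≤ _ := h4
        _ = _ := by ring
    have hCo : ‖∑ k ∈ Ico (jN r N) (N - jN r N), ez N w (zl N k) * Wk N (zl N k) A b C -
        FZc r N α w η ![(A : ℂ) / N, (b : ℂ) / N, (C : ℂ) / N]‖ ≤ |Cs| * N ^ (p + 2) * Y := by
      unfold FZc
      rw [← Finset.sum_sub_distrib]
      refine (norm_sum_le _ _).trans ?_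
      have key : ∀ k ∈ Ico (jN r N) (N - jN r N),
          ‖ez N w (zl N k) * Wk N (zl N k) A b C - ez N w (zl N k) *
            VB r N α η ![(A : ℂ) / N, (b : ℂ) / N, (C : ℂ) / N] (zl N k / N)‖ ≤
          |Cs| * N ^ p * Y := by
        intro k hk
        obtain ⟨hkN, hk2⟩ := core_k hr hr1 hNc hk
        rw [← mul_sub, norm_mul, norm_ez_zl, one_mul]
        have h1 := (hS N hNa).2.2 A b C k hcm hA hb hC hkN hk2
        refine ((le_add_of_nonneg_right (norm_nonneg _)).trans h1).trans ?_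
        exact mul_le_mul (mul_le_mul_of_nonneg_right (le_abs_self _) (by positivity))
          (hYle _ hca) (Real.exp_pos _).le (by positivity)
      have h := Finset.sum_le_card_nsmul _ _ _ key
      rw [nsmul_eq_mul] at h
      refine h.trans ?_
      have h5 := mul_le_mul_of_nonneg_right hcard (by positivity : 0 ≤ |Cs| * N ^ p * Y)
      refine h5.trans ?_
      have h4 := mul_le_mul_of_nonneg_right (pw (p + 1) (by omega)) (by positivity : 0 ≤ |Cs| * Y)
      calc (N : ℝ) * (|Cs| * N ^ p * Y) = N ^ (p + 1) * (|Cs| * Y) := by ring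
        _ ≤ _ := h4
        _ = _ := by ring
    rw [hsplit, add_sub_assoc]
    refine (norm_add_le _ _).trans ((add_le_add hO hCo).trans ?_)
    rw [← hY]
    have h7 : 0 ≤ |Cs| * N ^ (p + 2) * Y := by positivity
    nlinarith

end Pool.Agent.H760.MX
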