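import Pool.Agent.H760.MX.Far
import Pool.Graph.R_pool_sql_team_seeded_3997aac3.Q206.HT.VF
import Pool.Graph.R_pool_sql_team_seeded_3997aac3.Q99.HU.Fin

/-!
# Partially augmented planar shadows: the state sum of the link

Adapted from `Q99/HU/Q166/NT.lean`, `Q206/HT/VF.lean` and `Q99/HU/Fin.lean`.
-/

set_option autoImplicit false

namespace Pool.Agent.H760.MX

open Finset Filter Topology MeasureTheory
open Pool.Agent.Q99.FAL (bq hh S_T1 Pc Ty Val Pri Pos AS Sol Out c6 fV n1 n2 cor dn Net up wd stp cls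
  zz IsLat nV toR eij)
open Pool.Agent.Q99.KN (LC bb St S_LC tet lbf S_BW)
open Pool.Agent.Q99.HT
open Pool.Agent.Q224.FAL (Out_13 Out_02)
open Pool.Agent.Q237.FAL (task_SO task_OZ task_SUR task_NC)
open Pool.Agent.Q99.HU.Q166 (n1_sx n2_sx sx_sy sum_bf term_gT term_LT lf_zer Vu_one Vu_zero gT_zero
  LT_zero)

/-- the derivative of the potential in the direction `δ` -/
noncomputable def GIX {c : ℕ} (cc : Fin c → Bool) (w : Fin c → ℤ) (x δ : Fin c → Fin 6 → ℂ) : ℂ :=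
  ∑ s, (∑ i, gT (dn (x s) i) (x s i) (dn (δ s) i) (δ s i) +
    (Complex.I * Real.pi * w s * (n1 (x s) - n2 (x s)) / 2 + kc (cc s) * (Complex.I * Real.pi)) *
      (n1 (δ s) - n2 (δ s)))

/-- the potential -/
noncomputable def PIX {c : ℕ} (cc : Fin c → Bool) (w : Fin c → ℤ) (x : Fin c → Fin 6 → ℂ) : ℂ :=
  ∑ s, (∑ i, LT (dn (x s) i) (x s i) +
    Complex.I * Real.pi * w s * (n1 (x s) - n2 (x s)) ^ 2 / 4 +
      kc (cc s) * (Complex.I * Real.pi) * (n1 (x s) - n2 (x s)))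

/-- a critical complex angle structure -/
def CrIX (D : List Pc) (cc : Fin D.length → Bool) (w : Fin D.length → ℤ)
    (x : Fin D.length → Fin 6 → ℂ) : Prop :=
  So D x 1 ∧ ∀ δ : Fin D.length → Fin 6 → ℂ, So D δ 0 → GIX cc w x δ = 0

lemma GIX_eq {c d : ℕ} (Y : Nw c d) (hY : Y.Okb) (β cc : Fin c → Bool) (w : Fin c → ℤ)
    (T T' : Fin d → ℂ) (J ζ J' ζ' : Fin c → ℂ) (hJ : Y.AJ J) (hJ' : Y.AJ J') :
    GIX cc w (fun s => sx (β s) (1 / 2) (Y.v T J s) (ζ s))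
      (fun s => sx (β s) 0 (Y.dv T' J' s) (ζ' s)) = GPX Y cc w T J ζ T' J' ζ' := by
  unfold GIX GPX
  apply Finset.sum_congr rfl
  intro s _
  rw [n1_sx, n2_sx, n1_sx, n2_sx]
  congr 1
  · beta_reduce
    rw [sx_sy, sx_sy]
    rw [sum_bf (β s) (fun a b a' b' => gT a b a' b')]
    unfold PG
    apply Finset.sum_congr rfl
    intro i _
    rw [term_gT]
    split_ifs with h
    · rw [← Vu_one, ← Vu_zero, lf_zer Y hY 1 T J hJ s i h, lf_zer Y hY 0 T' J' hJ' s i h, gT_zero]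
    · rfl
  · ring

lemma PIX_eq {c d : ℕ} (Y : Nw c d) (hY : Y.Okb) (β cc : Fin c → Bool) (w : Fin c → ℤ)
    (T : Fin d → ℂ) (J ζ : Fin c → ℂ) (hJ : Y.AJ J) :
    PIX cc w (fun s => sx (β s) (1 / 2) (Y.v T J s) (ζ s)) = PhX Y cc w T J ζ := by
  unfold PIX PhX
  apply Finset.sum_congr rfl
  intro s _
  rw [n1_sx, n2_sx]
  have e1 : ∑ i, LT (dn (sx (β s) (1 / 2) (Y.v T J s) (ζ s)) i)
      (sx (β s) (1 / 2) (Y.v T J s) (ζ s) i) = PE (Y.α s) (Y.v T J s) (ζ s) := by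
    rw [sx_sy]
    rw [sum_bf (β s) (fun a b (_ _ : ℂ) => LT a b) _ (fun _ => (0 : ℂ))]
    unfold PE
    apply Finset.sum_congr rfl
    intro i _
    rw [term_LT]
    split_ifs with h
    · rw [← Vu_one, lf_zer Y hY 1 T J hJ s i h, LT_zero]
    · rfl
  rw [e1]
  ring

lemma quad_reX (c : Bool) (w : ℤ) (z : ℂ) : (Complex.I * Real.pi * w * z ^ 2 / 4 +
    kc c * (Complex.I * Real.pi) * z).re =
    -(z.im * (Complex.I * Real.pi * w * z / 2 + kc c * (Complex.I * Real.pi)).im) := by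
  have h1 : Complex.I * Real.pi * w * z ^ 2 / 4 + kc c * (Complex.I * Real.pi) * z =
      Complex.I * (((Real.pi * w / 4 : ℝ) : ℂ) * z ^ 2) + kc c * (Complex.I * ((Real.pi : ℝ) * z)) := by
    push_cast
    ring
  have h2 : Complex.I * Real.pi * w * z / 2 + kc c * (Complex.I * Real.pi) =
      Complex.I * (((Real.pi * w / 2 : ℝ) : ℂ) * z) + kc c * (Complex.I * ((Real.pi : ℝ) : ℂ)) := by
    push_cast
    ring
  rw [h1, h2]
  cases c
  · have hk : kc false = 1 := rfl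
    rw [hk, one_mul, one_mul, Complex.add_re, Complex.add_im, Complex.I_mul_re, Complex.I_mul_re,
      Complex.I_mul_im, Complex.I_mul_im, Complex.im_ofReal_mul, Complex.im_ofReal_mul,
      Complex.re_ofReal_mul, Complex.ofReal_re, sq, Complex.mul_im]
    ring
  · have hk : kc true = 0 := rfl
    rw [hk, zero_mul, zero_mul, add_zero, add_zero, Complex.I_mul_re,
      Complex.I_mul_im, Complex.im_ofReal_mul,
      Complex.re_ofReal_mul, sq, Complex.mul_im]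
    ring

section
open Pool.Agent.Q206.HT

/-- **the critical value is the volume** -/
theorem VFx (D : List Pc) (hV : Val D 1) (cc : Fin D.length → Bool)
    (a : Fin D.length → Fin 6 → ℝ) (ha : Pos D a) : ∃ ρ : ℝ, 0 < ρ ∧
    ∀ (w : Fin D.length → ℤ) (x : Fin D.length → Fin 6 → ℂ), CrIX D cc w x →
    (∀ s i, ‖x s i - a s i‖ < ρ) → VI x = 2 * Real.pi * (PIX cc w x).re := by
  have hL : S_LC := Pool.Agent.Q99.HT.t_LC
  have hB : S_BW := Pool.Agent.Q239.KN.task_BW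
  have nn := ha.nonneg
  have hn1 : ∀ s, a s 0 + a s 1 + a s 2 = 1 / 2 := ha.half
  have hn2 : ∀ s, a s 3 + a s 4 + a s 5 = 1 / 2 := by
    intro s
    have h4 : n1 (a s) + n2 (a s) = 1 := ((task_SO.1 ℝ D a [0, 0] 1).mp ha.sol).1 s
    have h5 := ha.half s
    have h6 : n2 (a s) = 1 / 2 := by linarith
    exact h6
  have hle : ∀ s i, a s i ≤ 1 / 2 := by
    intro s i
    have m0 := nn s 0
    have m1 := nn s 1
    have m2 := nn s 2
    have m3 := nn s 3
    have m4 := nn s 4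
    have m5 := nn s 5
    have g1 := hn1 s
    have g2 := hn2 s
    have hall : a s 0 ≤ 1 / 2 ∧ a s 1 ≤ 1 / 2 ∧ a s 2 ≤ 1 / 2 ∧ a s 3 ≤ 1 / 2 ∧ a s 4 ≤ 1 / 2 ∧
        a s 5 ≤ 1 / 2 := by
      refine ⟨?_, ?_, ?_, ?_, ?_, ?_⟩ <;> linarith
    obtain ⟨q0, q1, q2, q3, q4, q5⟩ := hall
    fin_cases i
    · exact q0
    · exact q1
    · exact q2
    · exact q3
    · exact q4
    · exact q5
  obtain ⟨ρ, hρ0, hρ1, hρ⟩ := exists_rho a nn hle
  refine ⟨ρ, hρ0, ?_⟩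
  intro w x hx hd
  obtain ⟨⟨hxs, hxo⟩, hcr⟩ := hx
  have hsum : ∀ s, n1 (x s) + n2 (x s) = 1 := ((task_SO.1 ℂ D x [0, 0] 1).mp hxs).1
  have hpz := outer_iff hV ha
  have hx0 : ∀ s i, a s i = 0 → x s i = 0 := fun s i h => hxo s i ((hpz s i).1 h)
  -- real parts
  have hre : ∀ s i, |(x s i).re - a s i| < ρ := by
    intro s i
    have h1 := Complex.abs_re_le_norm (x s i - a s i)
    rw [Complex.sub_re, Complex.ofReal_re] at h1
    exact h1.trans_lt (hd s i)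
  have hre1 : ∀ s i, a s i - ρ < (x s i).re := fun s i => by
    have := (abs_lt.1 (hre s i)).1
    linarith
  have hre2 : ∀ s i, (x s i).re < a s i + ρ := fun s i => by
    have := (abs_lt.1 (hre s i)).2
    linarith
  have hn1re : ∀ s, (n1 (x s)).re = (x s 0).re + (x s 1).re + (x s 2).re := fun s => by
    unfold n1; rw [Complex.add_re, Complex.add_re]
  have hn2re : ∀ s, (n2 (x s)).re = (x s 3).re + (x s 4).re + (x s 5).re := fun s => by
    unfold n2; rw [Complex.add_re, Complex.add_re]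
  have h1 : ∀ s, n1 (x s) ∈ St := by
    intro s
    have g := hn1 s
    have a0 := hre1 s 0
    have a1 := hre1 s 1
    have a2 := hre1 s 2
    have b0 := hre2 s 0
    have b1 := hre2 s 1
    have b2 := hre2 s 2
    refine ⟨?_, ?_⟩
    · rw [hn1re]; linarith
    · rw [hn1re]; linarith
  have h2 : ∀ s i, S0 (x s i) := by
    intro s i
    by_cases h : a s i = 0
    · exact Or.inr (hx0 s i h)
    · left
      have m1 := (hρ s i).1 h
      have m2 := hle s i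
      have m3 := hre1 s i
      have m4 := hre2 s i
      exact ⟨by linarith, by linarith⟩
  -- two angles of a triangle
  have hpair : ∀ s i j, (a s i = 0 ∧ a s j = 0) ∨ 8 * ρ ≤ a s i + a s j →
      a s i + a s j ≤ 1 / 2 → S0 (x s i + x s j) := by
    intro s i j h hh
    rcases h with ⟨h, h'⟩ | h
    · right
      rw [hx0 s i h, hx0 s j h', add_zero]
    · left
      have m1 := hre1 s i
      have m2 := hre1 s j
      have m3 := hre2 s i
      have m4 := hre2 s j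
      refine ⟨?_, ?_⟩
      · rw [Complex.add_re]; linarith
      · rw [Complex.add_re]; linarith
  have hpair' : ∀ s i j k, a s i + a s j + a s k = 1 / 2 → S0 (x s i + x s j) := by
    intro s i j k h
    have m1 := nn s i
    have m2 := nn s j
    have m3 := nn s k
    refine hpair s i j ?_ (by linarith)
    by_cases h' : a s k = 1 / 2
    · left; constructor <;> linarith
    · right
      have := (hρ s k).2 h'
      linarith
  have h3 : ∀ s i, S0 (dn (x s) i - x s i) := by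
    intro s i
    have hs := hsum s
    have g1 := hn1 s
    have g2 := hn2 s
    -- the angles `0` and `3`
    have h03 : ∀ i j : Fin 6, (a s i ≠ 1 / 2) → ∀ y : ℂ, y.re = (x s i).re →
        (∀ z : ℂ, 1 / 2 - 3 * ρ < z.re → z.re < 1 / 2 + 3 * ρ → S0 (z - y)) := by
      intro i j hi y hy z hz1 hz2
      left
      have m1 := (hρ s i).2 hi
      have m2 := hre1 s i
      have m3 := hre2 s i
      have m4 := nn s i
      refine ⟨?_, ?_⟩
      · rw [Complex.sub_re, hy]; linarith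
      · rw [Complex.sub_re, hy]; linarith
    have r1 : 1 / 2 - 3 * ρ < (n1 (x s)).re ∧ (n1 (x s)).re < 1 / 2 + 3 * ρ := by
      have a0 := hre1 s 0
      have a1 := hre1 s 1
      have a2 := hre1 s 2
      have b0 := hre2 s 0
      have b1 := hre2 s 1
      have b2 := hre2 s 2
      rw [hn1re]
      constructor <;> linarith
    have r2 : 1 / 2 - 3 * ρ < (n2 (x s)).re ∧ (n2 (x s)).re < 1 / 2 + 3 * ρ := by
      have a0 := hre1 s 3
      have a1 := hre1 s 4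
      have a2 := hre1 s 5
      have b0 := hre2 s 3
      have b1 := hre2 s 4
      have b2 := hre2 s 5
      rw [hn2re]
      constructor <;> linarith
    have hno : ¬ (a s 1 = 0 ∧ a s 2 = 0) := by
      rintro ⟨e1, e2⟩
      exact Out_13 hV s ⟨(hpz s 1).1 e1, (hpz s 2).1 e2⟩
    have hno' : ¬ (a s 4 = 0 ∧ a s 5 = 0) := by
      rintro ⟨e1, e2⟩
      exact Out_13 hV s ⟨(hpz s 4).1 e1, (hpz s 5).1 e2⟩
    have m1 := nn s 1
    have m2 := nn s 2
    have m4 := nn s 4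
    have m5 := nn s 5
    fin_cases i
    · refine h03 0 0 ?_ _ rfl _ r2.1 r2.2
      intro h
      exact hno ⟨by linarith, by linarith⟩
    · have e : dn (x s) 1 - x s 1 = x s 0 + x s 2 := by
        show x s 0 + x s 1 + x s 2 - x s 1 = _
        ring
      show S0 (dn (x s) 1 - x s 1)
      rw [e]
      exact hpair' s 0 2 1 (by linarith)
    · have e : dn (x s) 2 - x s 2 = x s 0 + x s 1 := by
        show x s 0 + x s 1 + x s 2 - x s 2 = _
        ring
      show S0 (dn (x s) 2 - x s 2)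
      rw [e]
      exact hpair' s 0 1 2 (by linarith)
    · refine h03 3 3 ?_ _ rfl _ r1.1 r1.2
      intro h
      exact hno' ⟨by linarith, by linarith⟩
    · have e : dn (x s) 4 - x s 4 = x s 3 + x s 5 := by
        show x s 3 + x s 4 + x s 5 - x s 4 = _
        ring
      show S0 (dn (x s) 4 - x s 4)
      rw [e]
      exact hpair' s 3 5 4 (by linarith)
    · have e : dn (x s) 5 - x s 5 = x s 3 + x s 4 := by
        show x s 3 + x s 4 + x s 5 - x s 5 = _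
        ring
      show S0 (dn (x s) 5 - x s 5)
      rw [e]
      exact hpair' s 3 4 5 (by linarith)
  -- the direction
  let δ : Fin D.length → Fin 6 → ℂ := fun s i => (((x s i).im : ℝ) : ℂ)
  have hδ : So D δ 0 := by
    refine ⟨?_, ?_⟩
    · have e1 := task_SO.2.2.2.1 ℂ ℝ Complex.imAddGroupHom D x [0, 0] 1 hxs
      have e2 := task_SO.2.2.2.1 ℝ ℂ (Complex.ofRealHom : ℝ →+* ℂ).toAddMonoidHom D _ _ _ e1
      simpa using e2
    · intro k i h
      show (((x k i).im : ℝ) : ℂ) = 0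
      rw [hxo k i h]
      simp
  have hG := congrArg Complex.im (hcr δ hδ)
  unfold GIX at hG
  rw [Complex.im_sum, Complex.zero_im] at hG
  have hdn : ∀ s i, dn (δ s) i = (((dn (x s) i).im : ℝ) : ℂ) := by
    intro s i
    unfold dn
    split
    · show δ s 3 + δ s 4 + δ s 5 = (((n2 (x s)).im : ℝ) : ℂ)
      unfold n2
      rw [Complex.add_im, Complex.add_im]
      push_cast
      rfl
    · show δ s 0 + δ s 1 + δ s 2 = (((n1 (x s)).im : ℝ) : ℂ)
      unfold n1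
      rw [Complex.add_im, Complex.add_im]
      push_cast
      rfl
  have hnn : ∀ s, n1 (δ s) - n2 (δ s) = (((n1 (x s) - n2 (x s)).im : ℝ) : ℂ) := by
    intro s
    have e1 : n1 (δ s) = (((n1 (x s)).im : ℝ) : ℂ) := hdn s 1
    have e2 : n2 (δ s) = (((n2 (x s)).im : ℝ) : ℂ) := hdn s 0
    rw [e1, e2, Complex.sub_im]
    push_cast
    rfl
  have hterm : ∀ s, (∑ i, gT (dn (x s) i) (x s i) (dn (δ s) i) (δ s i) +
      (Complex.I * Real.pi * w s * (n1 (x s) - n2 (x s)) / 2 + kc (cc s) * (Complex.I * Real.pi)) *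
        (n1 (δ s) - n2 (δ s))).im =
      (∑ i, gT (dn (x s) i) (x s i) ((dn (x s) i).im : ℂ) ((x s i).im : ℂ)).im +
        (n1 (x s) - n2 (x s)).im *
          (Complex.I * Real.pi * w s * (n1 (x s) - n2 (x s)) / 2 + kc (cc s) * (Complex.I * Real.pi)).im := by
    intro s
    rw [Complex.add_im]
    congr 1
    · congr 1
      apply Finset.sum_congr rfl
      intro i _
      rw [hdn]
    · rw [hnn, mul_comm, Complex.im_ofReal_mul]
  rw [Finset.sum_congr rfl (fun s _ => hterm s), Finset.sum_add_distrib] at hG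
  -- the value
  have hV' : VI x = ∑ s, (2 * Real.pi * (∑ i, LT (dn (x s) i) (x s i)).re +
        2 * Real.pi * (∑ i, gT (dn (x s) i) (x s i) ((dn (x s) i).im : ℂ) ((x s i).im : ℂ)).im) := by
    unfold VI
    apply Finset.sum_congr rfl
    intro s _
    exact rgn hL hB (hsum s) (h1 s) (h2 s) (h3 s)
  have hPI : (PIX cc w x).re = ∑ s, ((∑ i, LT (dn (x s) i) (x s i)).re -
      (n1 (x s) - n2 (x s)).im *
          (Complex.I * Real.pi * w s * (n1 (x s) - n2 (x s)) / 2 + kc (cc s) * (Complex.I * Real.pi)).im) := by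
    unfold PIX
    rw [Complex.re_sum]
    apply Finset.sum_congr rfl
    intro s _
    rw [add_assoc, Complex.add_re, quad_reX]
    ring
  rw [hV', hPI, Finset.sum_add_distrib, Finset.sum_sub_distrib, ← Finset.mul_sum, ← Finset.mul_sum]
  linear_combination (2 * Real.pi) * hG

end

section
open Pool.Agent.Q99.HU
open Pool.Agent.Q99.HU.Q239

/-- **the state sum of a highly twisted link on a planar shadow** -/
theorem finX (D : List Pc) (h1 : Val D 1) (h2 : Pri D 1) (h3 : D ≠ [])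
    (cc : Fin D.length → Bool) (a : Fin D.length → Fin 6 → ℝ) (ha : Mx D a) (hq : Dmx D cc a) :
    ∃ ρ0 : ℝ, 0 < ρ0 ∧ ∀ ρ : ℝ, 0 < ρ → ρ ≤ ρ0 → ∃ W0 C : ℝ, 1 ≤ W0 ∧
    ∀ (w : Fin D.length → ℤ) (Wm : ℝ), W0 ≤ Wm → (∀ k, cc k = false → Wm ≤ |(w k : ℝ)|) →
    ∃ x : Fin D.length → Fin 6 → ℂ, CrIX D cc w x ∧ (∀ s i, ‖x s i - a s i‖ < ρ) ∧
      (∀ x', CrIX D cc w x' → (∀ s i, ‖x' s i - a s i‖ < ρ) → x' = x) ∧
      (∀ s, cc s = true → n1 (x s) = n2 (x s)) ∧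
      (∀ s, cc s = false → 0 < (n1 (x s) - n2 (x s)).im) ∧
      VI x = 2 * Real.pi * (PIX cc w x).re ∧
      |VI x - 2 * Real.pi * fV a| ≤ C / Wm ^ 2 ∧
      ∃ z : ℂ, z ≠ 0 ∧ Tendsto (fun N : ℕ => (N : ℂ) ^ D.length * ZX N D cc w /
        (N * (√N : ℝ) * (sgX cc N * Complex.exp (N * PIX cc w x)))) atTop (𝓝 z) := by
  have hpi := Real.pi_pos
  obtain ⟨d, β, Y, hY⟩ := Pool.Agent.Q206.HT.task_NE D h1 h2 h3 a ha
  obtain ⟨hOk, hab, hv⟩ := Pool.Agent.Q239.HU.task_NOb D h1 h2 h3 a ha d β Y hY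
  have hfar := FARx D cc a ha hq d β Y hY hv
  obtain ⟨ρa, hρa, hAs⟩ := ASNx _ _ Y cc hOk hfar
    (fun s => Lx_of D h1 h2 h3 cc a ha hq d β Y hY s)
  obtain ⟨Cd, hCd, hDi⟩ := Pool.Agent.Q99.HU.Q166.task_NDi D h1 h2 h3 a ha d β Y hY hOk
  obtain ⟨ρv, hρv, hVf⟩ := VFx D h1 cc a ha.1
  obtain ⟨hT1, hT2, -, -⟩ := Pool.Agent.Q99.HU.Q166.task_NT t_LC D h1 h2 h3 a ha d β Y hY hOk
  have hCd0 : 0 < Cd := by linarith
  refine ⟨min (ρa / Cd) ρv, lt_min (by positivity) hρv, fun ρ hρ hρ' => ?_⟩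
  have hρ1 : Cd * ρ ≤ ρa := by
    have := le_trans hρ' (min_le_left _ _)
    rw [le_div_iff₀ hCd0] at this
    linarith
  have hρ2 : ρ ≤ ρv := le_trans hρ' (min_le_right _ _)
  have hρ3 : ρ / Cd ≤ ρa := by
    refine le_trans ?_ hρ1
    rw [div_le_iff₀ hCd0]
    nlinarith [mul_pos hCd0 hρ]
  obtain ⟨W1, C1, hW1, hB1⟩ := hAs (ρ / Cd) (by positivity) hρ3
  obtain ⟨W2, C2, hW2, hB2⟩ := hAs (Cd * ρ) (by positivity) hρ1
  refine ⟨max W1 W2, 2 * Real.pi * C1, le_trans hW1 (le_max_left _ _), fun w Wm hWm hf => ?_⟩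
  obtain ⟨T, J, ζ, hc, hn, hz0, him, hval, -, z, hz, hlim⟩ :=
    hB1 w Wm (le_trans (le_max_left _ _) hWm) hf
  obtain ⟨T2, J2, ζ2, hc2, hn2, -, -, -, hu2, -⟩ :=
    hB2 w Wm (le_trans (le_max_right _ _) hWm) hf
  have hle : ρ / Cd ≤ Cd * ρ := by
    rw [div_le_iff₀ hCd0]
    nlinarith [mul_pos hCd0 hρ, mul_pos (mul_pos hCd0 hρ) hCd0]
  have hmono : ∀ {T' : Fin d → ℂ} {J' ζ' : Fin D.length → ℂ}, Y.Nr (ρ / Cd) T' J' ζ' →
      Y.Nr (Cd * ρ) T' J' ζ' := fun h =>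
    ⟨fun j => lt_of_lt_of_le (h.1 j) hle, fun s => lt_of_lt_of_le (h.2.1 s) hle,
      fun s => lt_of_lt_of_le (h.2.2 s) hle⟩
  have hun : ∀ (T' : Fin d → ℂ) (J' ζ' : Fin D.length → ℂ), CrX Y cc w T' J' ζ' →
      Y.Nr (Cd * ρ) T' J' ζ' → T' = T ∧ J' = J ∧ ζ' = ζ := by
    intro T' J' ζ' h4 h5
    obtain ⟨e1, e2, e3⟩ := hu2 T' J' ζ' h4 h5
    obtain ⟨e4, e5, e6⟩ := hu2 T J ζ hc (hmono hn)
    exact ⟨e1.trans e4.symm, e2.trans e5.symm, e3.trans e6.symm⟩
  set x : Fin D.length → Fin 6 → ℂ := fun s => sx (β s) (1 / 2) (Y.v T J s) (ζ s) with hx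
  have hxc : CrIX D cc w x := by
    refine ⟨(hT1 x).2 ⟨T, J, ζ, hc.aj, rfl⟩, fun δ hδ => ?_⟩
    obtain ⟨T', J', ζ', hJ', rfl⟩ := (hT2 δ).1 hδ
    rw [hx, GIX_eq Y hOk β cc w T T' J ζ J' ζ' hc.aj hJ']
    exact hc.eq _ _ _ hJ'
  have hxn : ∀ s i, ‖x s i - a s i‖ < ρ := by
    intro s i
    have := (hDi (ρ / Cd) T J ζ (by positivity)).1 hn s i
    rwa [mul_div_cancel₀ _ hCd0.ne'] at this
  have hPI : PIX cc w x = PhX Y cc w T J ζ := PIX_eq Y hOk β cc w T J ζ hc.aj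
  have hVx : VI x = 2 * Real.pi * (PIX cc w x).re := hVf w x hxc fun s i => lt_of_lt_of_le (hxn s i) hρ2
  refine ⟨x, hxc, hxn, ?_, ?_, ?_, hVx, ?_, z, hz, ?_⟩
  · intro x' hx' hn'
    obtain ⟨T', J', ζ', hJ', rfl⟩ := (hT1 x').1 hx'.1
    have h5 := (hDi ρ T' J' ζ' hρ).2 hn'
    have h4 : CrX Y cc w T' J' ζ' := by
      refine ⟨hJ', fun T'' J'' ζ'' hJ'' => ?_⟩
      rw [← GIX_eq Y hOk β cc w T' T'' J' ζ' J'' ζ'' hJ' hJ'']
      exact hx'.2 _ ((hT2 _).2 ⟨T'', J'', ζ'', hJ'', rfl⟩)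
    obtain ⟨e1, e2, e3⟩ := hun T' J' ζ' h4 h5
    rw [hx, e1, e2, e3]
  · intro s hs
    have e1 := sx_n12 (β s) (1 / 2) (Y.v T J s) (ζ s)
    show n1 (sx (β s) (1 / 2) (Y.v T J s) (ζ s)) = n2 (sx (β s) (1 / 2) (Y.v T J s) (ζ s))
    rw [e1.1, e1.2, hz0 s hs]
    ring
  · intro s hs
    have e1 := sx_n12 (β s) (1 / 2) (Y.v T J s) (ζ s)
    show 0 < (n1 (sx (β s) (1 / 2) (Y.v T J s) (ζ s)) -
      n2 (sx (β s) (1 / 2) (Y.v T J s) (ζ s))).im
    rw [e1.1, e1.2]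
    have e2 : (1 / 2 + ζ s / 2 - (1 / 2 - ζ s / 2) : ℂ) = ζ s := by ring
    rw [e2]
    exact him s hs
  · rw [hVx, hPI, ← hv, ← mul_sub, abs_mul, abs_of_pos (by positivity : 0 < 2 * Real.pi), mul_div_assoc]
    exact mul_le_mul_of_nonneg_left hval (by positivity)
  · refine hlim.congr' ?_
    filter_upwards [eventually_ge_atTop 1] with N hN
    have hN0 : 0 < N := hN
    have hN' : (N : ℂ) ≠ 0 := by exact_mod_cast hN0.ne'
    have hs0 : (√(N : ℝ)) ≠ 0 := (Real.sqrt_pos.2 (by exact_mod_cast hN0)).ne'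
    have hs : ((√(N : ℝ) : ℝ) : ℂ) ≠ 0 := by exact_mod_cast hs0
    have hss : ((√(N : ℝ) : ℝ) : ℂ) ^ 2 = N := by
      rw [← Complex.ofReal_pow, Real.sq_sqrt (Nat.cast_nonneg N)]
      simp
    have hcard := Pool.Agent.Q261.HT.task_NR D h1 h2 h3 a ha d β Y hY
    rw [hPI, zx_eq D h1 a d β Y hY hN0 cc w, Complex.exp_neg]
    have e1 : ((√(N : ℝ) : ℝ) : ℂ) ^ Y.nA / ((√(N : ℝ) : ℝ) : ℂ) ^ Fintype.card Y.Ix =
        (N : ℂ) ^ D.length / (N * (√(N : ℝ) : ℝ)) := by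
      rw [div_eq_div_iff (pow_ne_zero _ hs) (mul_ne_zero hN' hs)]
      have e2 : (N : ℂ) * ((√(N : ℝ) : ℝ) : ℂ) = ((√(N : ℝ) : ℝ) : ℂ) ^ 3 := by
        rw [pow_succ, hss]
      have e3 : (N : ℂ) ^ D.length = ((√(N : ℝ) : ℝ) : ℂ) ^ (2 * D.length) := by rw [pow_mul, hss]
      rw [e2, e3, ← pow_add, ← pow_add]
      congr 1
      omega
    rw [e1]
    have e5 := sgX_ne cc N
    have e6 := sgX_inv cc N
    have e7 := Complex.exp_ne_zero (N * PhX Y cc w T J ζ)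
    calc (N : ℂ) ^ D.length / (N * (√(N : ℝ) : ℝ)) * sgX cc N *
          (Complex.exp (N * PhX Y cc w T J ζ))⁻¹ * Zn Y N cc w =
        (N : ℂ) ^ D.length / (N * (√(N : ℝ) : ℝ)) * (sgX cc N)⁻¹ *
          (Complex.exp (N * PhX Y cc w T J ζ))⁻¹ * Zn Y N cc w := by rw [e6]
      _ = _ := by
          field_simp

end

end Pool.Agent.H760.MX
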