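import Pool.Graph.R_pool_sql_team_seeded_3997aac3.Q99.FAL.Asm
import Pool.Graph.R_pool_sql_team_seeded_3997aac3.Q99.HU.Asm

/-!
# Partially augmented planar shadows: the weight of a circled region

The weight of a circle around `m` crossings is a sum over six integers (`wt6`).  Summed over the
integers with given corners it is `Fc N w A b C = ∑_k ez N w (z_k) Wk N (z_k) A b C`, the sum of the
values at the lattice points of the function whose derivatives give the weight of a region without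
circle.
-/

set_option autoImplicit false

namespace Pool.Agent.H760.MX

open Matrix Finset
open Pool.Agent.Q191.TW (cs)
open Pool.Agent.Q99.FAL
open Pool.Agent.Q99.KN (sn bc Wk zl ez Fk)
open Pool.Agent.Q99.HT (Tm)

/-- the weight of a circled region with the corners `A`, `b`, `C` -/
noncomputable def Fc (N : ℕ) (w : ℤ) (A b C : ℕ) : ℂ :=
  ∑ k ∈ range N, ez N w (zl N k) * Wk N (zl N k) A b C

/-- a weight which depends on three corners -/
noncomputable def t3 (F : ℕ → ℕ → ℕ → ℂ) (x : Fin 6 → ℤ) : ℂ :=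
  if x 4 = 0 ∧ x 5 = 0 then F (x 0).toNat (x 1).toNat (x 3).toNat else 0

lemma Wk_Tm (N : ℕ) (z : ℂ) (A b C : ℕ) :
    Wk N z A b C = ∑ j ∈ range (b + 1), Tm N z A b C j := rfl

lemma Tm_lat {N k : ℕ} (hk : k < N) {A b C j : ℕ} (h : A + b + C < N) (hj : j ≤ b) :
    Tm N (zl N k) A b C j = ((bq N (N - 1 - k : ℕ) A * bq N k C * (bq N k j *
      bq N (N - 1 - k : ℕ) (b - j : ℕ)) * (bq N k (A + j : ℕ) *
        bq N (N - 1 - k : ℕ) (C + (b - j) : ℕ)) : ℝ) : ℂ) := by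
  have hD := (Pool.Agent.Q208.HT.task_D1 N (by omega)).1
  have e1 : ((N : ℂ) - 1 - zl N k) / 2 = ((N - 1 - k : ℕ) : ℂ) := by
    unfold zl
    rw [Nat.cast_sub (by omega), Nat.cast_sub (by omega)]
    push_cast
    ring
  have e2 : ((N : ℂ) - 1 + zl N k) / 2 = (k : ℂ) := by
    unfold zl
    ring
  unfold Tm
  rw [e1, e2, hD _ _ (by omega) (by omega), hD _ _ (by omega) (by omega),
    hD _ _ (by omega) (by omega), hD _ _ (by omega) (by omega), hD _ _ (by omega) (by omega),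
    hD _ _ (by omega) (by omega)]
  push_cast
  ring

lemma Tm_zero {N k : ℕ} (hk : k < N) {A b C j : ℕ} (h : A + b + C < N) (hj : j ≤ b)
    (hne : Tm N (zl N k) A b C j ≠ 0) : A + j ≤ k ∧ C + (b - j) ≤ N - 1 - k := by
  rw [Tm_lat hk h hj] at hne
  constructor
  · by_contra hc
    apply hne
    rw [Pool.Agent.Q208.HT.bq_zero (N := N) (n := k) (y := A + j) (by omega)]
    simp
  · by_contra hc
    apply hne
    rw [Pool.Agent.Q208.HT.bq_zero (N := N) (n := N - 1 - k) (y := C + (b - j)) (by omega)]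
    simp

/-- the corners as integers -/
def q4 (N A b C : ℕ) : Fin 4 → ℤ := ![(A : ℤ), b, C, (N : ℤ) - 1 - A - b - C]

/-- the triples of corners -/
def T3 (N : ℕ) : Finset (ℕ × ℕ × ℕ) :=
  (range N ×ˢ range N ×ˢ range N).filter fun p => p.1 + p.2.1 + p.2.2 < N

lemma mem_T3 {N : ℕ} {p : ℕ × ℕ × ℕ} : p ∈ T3 N ↔ p.1 + p.2.1 + p.2.2 < N := by
  unfold T3
  rw [Finset.mem_filter, Finset.mem_product, Finset.mem_product, Finset.mem_range, Finset.mem_range,
    Finset.mem_range]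
  constructor
  · exact fun h => h.2
  · intro h
    exact ⟨⟨by omega, by omega, by omega⟩, h⟩

/-- the sum of a weight of three corners -/
theorem sum_t3 {N : ℕ} (hN : 0 < N) (F : ℕ → ℕ → ℕ → ℂ) (Φ : (Fin 4 → ℤ) → ℂ) :
    (∑ x : Fin 6 → Fin N, if n1 (zz x) + n2 (zz x) = (N : ℤ) - 1 then
      t3 F (zz x) * Φ (cor (zz x)) else 0) =
    ∑ p ∈ T3 N, F p.1 p.2.1 p.2.2 * Φ (q4 N p.1 p.2.1 p.2.2) := by
  classical
  rw [← Finset.sum_filter]
  refine Finset.sum_bij_ne_zero (fun x _ _ => ((x 0 : ℕ), (x 1 : ℕ), (x 3 : ℕ))) ?_ ?_ ?_ ?_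
  · intro x hx hne
    rw [Finset.mem_filter] at hx
    have h := hx.2
    simp only [n1, n2, zz] at h
    rw [mem_T3]
    show (x 0 : ℕ) + (x 1 : ℕ) + (x 3 : ℕ) < N
    omega
  · intro x hx hnx y hy hny hxy
    rw [Finset.mem_filter] at hx hy
    have hx' := hx.2
    have hy' := hy.2
    have zx : zz x 4 = 0 ∧ zz x 5 = 0 := by
      by_contra hc
      exact hnx (by rw [t3, if_neg hc, zero_mul])
    have zy : zz y 4 = 0 ∧ zz y 5 = 0 := by
      by_contra hc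
      exact hny (by rw [t3, if_neg hc, zero_mul])
    simp only [n1, n2, zz] at hx' hy' zx zy
    simp only [Prod.mk.injEq] at hxy
    funext i
    apply Fin.ext
    fin_cases i
    · exact hxy.1
    · exact hxy.2.1
    · show (x 2 : ℕ) = y 2
      omega
    · exact hxy.2.2
    · show (x 4 : ℕ) = y 4
      omega
    · show (x 5 : ℕ) = y 5
      omega
  · rintro ⟨A, b, C⟩ hp hne
    rw [mem_T3] at hp
    simp only at hp hne
    let x : Fin 6 → Fin N := ![⟨A, by omega⟩, ⟨b, by omega⟩, ⟨N - 1 - A - b - C, by omega⟩,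
      ⟨C, by omega⟩, ⟨0, hN⟩, ⟨0, hN⟩]
    have z0 : zz x 0 = (A : ℤ) := rfl
    have z1 : zz x 1 = (b : ℤ) := rfl
    have z2 : zz x 2 = ((N - 1 - A - b - C : ℕ) : ℤ) := rfl
    have z3 : zz x 3 = (C : ℤ) := rfl
    have z4 : zz x 4 = 0 := rfl
    have z5 : zz x 5 = 0 := rfl
    have hc : cor (zz x) = q4 N A b C := by
      unfold cor q4
      rw [z0, z1, z2, z3, z4, z5]
      funext i
      fin_cases i
      · rfl
      · exact add_zero _
      · rfl
      · show ((N - 1 - A - b - C : ℕ) : ℤ) + 0 = (N : ℤ) - 1 - A - b - C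
        omega
    have hw : t3 F (zz x) = F A b C := by
      unfold t3
      rw [if_pos ⟨z4, z5⟩, z0, z1, z3]
      rfl
    refine ⟨x, ?_, ?_, rfl⟩
    · rw [Finset.mem_filter]
      refine ⟨Finset.mem_univ _, ?_⟩
      simp only [n1, n2]
      rw [z0, z1, z2, z3, z4, z5]
      omega
    · rw [hc, hw]
      exact hne
  · intro x hx hne
    rw [Finset.mem_filter] at hx
    have hx' := hx.2
    have zx : zz x 4 = 0 ∧ zz x 5 = 0 := by
      by_contra hc
      exact hne (by rw [t3, if_neg hc, zero_mul])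
    have hc : cor (zz x) = q4 N (x 0) (x 1) (x 3) := by
      simp only [n1, n2, zz] at hx' zx
      funext i
      fin_cases i
      · rfl
      · show ((x 1 : ℕ) : ℤ) + ((x 4 : ℕ) : ℤ) = (x 1 : ℕ)
        omega
      · rfl
      · show ((x 2 : ℕ) : ℤ) + ((x 5 : ℕ) : ℤ) = (N : ℤ) - 1 - (x 0 : ℕ) - (x 1 : ℕ) - (x 3 : ℕ)
        omega
    rw [t3, if_pos zx, hc]
    rfl

/-- **the weight of a circled region depends on its corners** -/
theorem sum_wt6 {N : ℕ} (hN : 0 < N) (w : ℤ) (Φ : (Fin 4 → ℤ) → ℂ) :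
    (∑ x : Fin 6 → Fin N, if n1 (zz x) + n2 (zz x) = (N : ℤ) - 1 then
      wt6 N (w : ℝ) (zz x) * Φ (cor (zz x)) else 0) =
    ∑ p ∈ T3 N, Fc N w p.1 p.2.1 p.2.2 * Φ (q4 N p.1 p.2.1 p.2.2) := by
  classical
  have hr : ∀ p ∈ T3 N, Fc N w p.1 p.2.1 p.2.2 * Φ (q4 N p.1 p.2.1 p.2.2) =
      ∑ kj ∈ range N ×ˢ range (p.2.1 + 1), ez N w (zl N kj.1) *
        Tm N (zl N kj.1) p.1 p.2.1 p.2.2 kj.2 * Φ (q4 N p.1 p.2.1 p.2.2) := by
    intro p hp
    rw [Finset.sum_product, Fc, Finset.sum_mul]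
    refine Finset.sum_congr rfl fun k _ => ?_
    rw [Wk_Tm, Finset.mul_sum, Finset.sum_mul]
  rw [Finset.sum_congr rfl hr, Finset.sum_sigma', ← Finset.sum_filter]
  refine Finset.sum_bij_ne_zero (fun x _ _ =>
    (⟨((x 0 : ℕ), (x 1 : ℕ) + (x 4 : ℕ), (x 3 : ℕ)),
      ((x 0 : ℕ) + (x 1 : ℕ) + (x 2 : ℕ), (x 1 : ℕ))⟩ : Σ _ : ℕ × ℕ × ℕ, ℕ × ℕ)) ?_ ?_ ?_ ?_
  · intro x hx hne
    rw [Finset.mem_filter] at hx
    have h := hx.2
    simp only [n1, n2, zz] at h
    rw [Finset.mem_sigma, mem_T3, Finset.mem_product, Finset.mem_range, Finset.mem_range]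
    refine ⟨?_, ?_, ?_⟩
    · show (x 0 : ℕ) + ((x 1 : ℕ) + (x 4 : ℕ)) + (x 3 : ℕ) < N
      omega
    · show (x 0 : ℕ) + (x 1 : ℕ) + (x 2 : ℕ) < N
      omega
    · show (x 1 : ℕ) < (x 1 : ℕ) + (x 4 : ℕ) + 1
      omega
  · intro x hx hnx y hy hny hxy
    rw [Finset.mem_filter] at hx hy
    have hx' := hx.2
    have hy' := hy.2
    simp only [n1, n2, zz] at hx' hy'
    have g1 : (x 0 : ℕ) = (y 0 : ℕ) := congrArg (fun q => q.1.1) hxy
    have g2 : (x 1 : ℕ) + (x 4 : ℕ) = (y 1 : ℕ) + (y 4 : ℕ) := congrArg (fun q => q.1.2.1) hxy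
    have g3 : (x 3 : ℕ) = (y 3 : ℕ) := congrArg (fun q => q.1.2.2) hxy
    have g4 : (x 0 : ℕ) + (x 1 : ℕ) + (x 2 : ℕ) = (y 0 : ℕ) + (y 1 : ℕ) + (y 2 : ℕ) :=
      congrArg (fun q => q.2.1) hxy
    have g5 : (x 1 : ℕ) = (y 1 : ℕ) := congrArg (fun q => q.2.2) hxy
    funext i
    apply Fin.ext
    fin_cases i
    · exact g1
    · exact g5
    · show (x 2 : ℕ) = y 2
      omega
    · exact g3
    · show (x 4 : ℕ) = y 4
      omega
    · show (x 5 : ℕ) = y 5
      omega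
  · rintro ⟨⟨A, b, C⟩, ⟨k, j⟩⟩ hp hne
    rw [Finset.mem_sigma, mem_T3, Finset.mem_product, Finset.mem_range, Finset.mem_range] at hp
    obtain ⟨h1, h2, h3⟩ := hp
    simp only at h1 h2 h3 hne
    have hT : Tm N (zl N k) A b C j ≠ 0 := by
      intro hc
      rw [hc] at hne
      simp at hne
    obtain ⟨h4, h5⟩ := Tm_zero h2 h1 (by omega) hT
    let x : Fin 6 → Fin N := ![⟨A, by omega⟩, ⟨j, by omega⟩, ⟨k - A - j, by omega⟩,
      ⟨C, by omega⟩, ⟨b - j, by omega⟩, ⟨N - 1 - k - C - (b - j), by omega⟩]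
    have z0 : zz x 0 = (A : ℤ) := rfl
    have z1 : zz x 1 = (j : ℤ) := rfl
    have z2 : zz x 2 = ((k - A - j : ℕ) : ℤ) := rfl
    have z3 : zz x 3 = (C : ℤ) := rfl
    have z4 : zz x 4 = ((b - j : ℕ) : ℤ) := rfl
    have z5 : zz x 5 = ((N - 1 - k - C - (b - j) : ℕ) : ℤ) := rfl
    have m1 : n1 (zz x) = (k : ℤ) := by
      simp only [n1]
      rw [z0, z1, z2]
      omega
    have m2 : n2 (zz x) = ((N - 1 - k : ℕ) : ℤ) := by
      simp only [n2]
      rw [z3, z4, z5]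
      omega
    have hc : cor (zz x) = q4 N A b C := by
      unfold cor q4
      rw [z0, z1, z2, z3, z4, z5]
      funext i
      fin_cases i
      · rfl
      · show (j : ℤ) + ((b - j : ℕ) : ℤ) = b
        omega
      · rfl
      · show ((k - A - j : ℕ) : ℤ) + ((N - 1 - k - C - (b - j) : ℕ) : ℤ) = (N : ℤ) - 1 - A - b - C
        omega
    have hw : wt6 N (w : ℝ) (zz x) = ez N w (zl N k) * Tm N (zl N k) A b C j := by
      unfold wt6
      rw [m1, m2, z0, z1, z2, z3, z4, z5, Tm_lat h2 h1 (by omega)]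
      have b1 := Pool.Agent.Q239.HU.bq_symm (N := N) (n := k) (x := A + j) h2 h4
      have b2 := Pool.Agent.Q239.HU.bq_symm (N := N) (n := N - 1 - k) (x := C + (b - j)) (by omega) h5
      have e1 : k - (A + j) = k - A - j := by omega
      have e2 : N - 1 - k - (C + (b - j)) = N - 1 - k - C - (b - j) := by omega
      rw [e1] at b1
      rw [e2] at b2
      rw [b1, b2]
      congr 1
      · unfold cs ez zl
        congr 1
        push_cast
        rw [Nat.cast_sub (by omega), Nat.cast_sub (by omega)]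
        push_cast
        have hN' : (N : ℂ) ≠ 0 := by exact_mod_cast hN.ne'
        field_simp
        ring
      · norm_cast
        ring
    refine ⟨x, ?_, ?_, ?_⟩
    · rw [Finset.mem_filter]
      refine ⟨Finset.mem_univ _, ?_⟩
      rw [m1, m2]
      omega
    · rw [hc, hw]
      exact hne
    · have f1 : A + j + (k - A - j) = k := by omega
      have f2 : j + (b - j) = b := by omega
      show (⟨(A, j + (b - j), C), (A + j + (k - A - j), j)⟩ : Σ _ : ℕ × ℕ × ℕ, ℕ × ℕ) =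
        ⟨(A, b, C), (k, j)⟩
      rw [f1, f2]
  · intro x hx hne
    rw [Finset.mem_filter] at hx
    have hx' := hx.2
    simp only [n1, n2, zz] at hx'
    have hc : cor (zz x) = q4 N (x 0) ((x 1 : ℕ) + (x 4 : ℕ)) (x 3) := by
      funext i
      fin_cases i
      · rfl
      · show ((x 1 : ℕ) : ℤ) + ((x 4 : ℕ) : ℤ) = (((x 1 : ℕ) + (x 4 : ℕ) : ℕ) : ℤ)
        push_cast
        rfl
      · rfl
      · show ((x 2 : ℕ) : ℤ) + ((x 5 : ℕ) : ℤ) = (N : ℤ) - 1 - (x 0 : ℕ) -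
          (((x 1 : ℕ) + (x 4 : ℕ) : ℕ) : ℤ) - (x 3 : ℕ)
        push_cast
        omega
    have hk : (x 0 : ℕ) + (x 1 : ℕ) + (x 2 : ℕ) < N := by omega
    have hs : (x 0 : ℕ) + ((x 1 : ℕ) + (x 4 : ℕ)) + (x 3 : ℕ) < N := by omega
    have hw : wt6 N (w : ℝ) (zz x) = ez N w (zl N ((x 0 : ℕ) + (x 1 : ℕ) + (x 2 : ℕ))) *
        Tm N (zl N ((x 0 : ℕ) + (x 1 : ℕ) + (x 2 : ℕ))) (x 0) ((x 1 : ℕ) + (x 4 : ℕ)) (x 3)
          (x 1) := by
      rw [Tm_lat hk hs (by omega)]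
      have b1 := Pool.Agent.Q239.HU.bq_symm (N := N) (n := (x 0 : ℕ) + (x 1 : ℕ) + (x 2 : ℕ))
        (x := (x 0 : ℕ) + (x 1 : ℕ)) hk (by omega)
      have b2 := Pool.Agent.Q239.HU.bq_symm (N := N)
        (n := N - 1 - ((x 0 : ℕ) + (x 1 : ℕ) + (x 2 : ℕ)))
        (x := (x 3 : ℕ) + ((x 1 : ℕ) + (x 4 : ℕ) - (x 1 : ℕ))) (by omega) (by omega)
      have e1 : (x 0 : ℕ) + (x 1 : ℕ) + (x 2 : ℕ) - ((x 0 : ℕ) + (x 1 : ℕ)) = (x 2 : ℕ) := by omega
      have e2 : N - 1 - ((x 0 : ℕ) + (x 1 : ℕ) + (x 2 : ℕ)) -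
          ((x 3 : ℕ) + ((x 1 : ℕ) + (x 4 : ℕ) - (x 1 : ℕ))) = (x 5 : ℕ) := by omega
      have e3 : (x 1 : ℕ) + (x 4 : ℕ) - (x 1 : ℕ) = (x 4 : ℕ) := by omega
      rw [e1] at b1
      rw [e2] at b2
      rw [← b1, ← b2, e3]
      have m1 : n1 (zz x) = (((x 0 : ℕ) + (x 1 : ℕ) + (x 2 : ℕ) : ℕ) : ℤ) := by
        simp only [n1, zz]
        push_cast
        rfl
      have m2 : n2 (zz x) = ((N - 1 - ((x 0 : ℕ) + (x 1 : ℕ) + (x 2 : ℕ)) : ℕ) : ℤ) := by
        simp only [n2, zz]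
        omega
      unfold wt6
      rw [m1, m2]
      congr 1
      · unfold cs ez zl
        congr 1
        push_cast
        rw [Nat.cast_sub (by omega), Nat.cast_sub (by omega)]
        push_cast
        have hN' : (N : ℂ) ≠ 0 := by exact_mod_cast hN.ne'
        field_simp
        ring
      · norm_cast
        show bq N _ ((x 0 : ℕ) : ℤ) * bq N _ ((x 1 : ℕ) : ℤ) * bq N _ ((x 2 : ℕ) : ℤ) *
          (bq N _ ((x 3 : ℕ) : ℤ) * bq N _ ((x 4 : ℕ) : ℤ) * bq N _ ((x 5 : ℕ) : ℤ)) = _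
        ring
    rw [hc, hw]

end Pool.Agent.H760.MX
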