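import Pool.Agent.H760.MX.Bx
import Pool.Graph.R_pool_sql_team_seeded_3997aac3.Q99.HU.Q239.LPN

/-!
# Partially augmented planar shadows: the amplitude

Adapted from `Q99/HU/Q239/LPNB.lean`.
-/

set_option autoImplicit false

namespace Pool.Agent.H760.MX

open Finset Filter Topology MeasureTheory
open Pool.Agent.Q99.HT
open Pool.Agent.Q99.HU.Q239 hiding q4 Hs_bound Hl_ne Hs_tendsto pg_eq Ph_taylor pv_cont pv_pt int_eq
  ph_lim qf_re gf_tendsto ind_eq gf_eq cst_ne task_LPN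
open Pool.Agent.Q99.KN (bb ct St LC S_LC S_GAM S_LAP S_GIM ez kz th)
open Pool.Agent.Q251.KN (taylor2 fz Eg fac_z IsQF eg_norm eg_tendsto fz_bound div_sqrt_tendsto sin_ne_of_im)

variable {c d : ℕ}

/-- the amplitude of a region -/
noncomputable def HsX (X : Nw c d) (cc : Fin c → Bool) (N : ℕ) (T : Fin d → ℂ) (J ζ : Fin c → ℂ)
    (s : Fin c) : ℂ :=
  (if cc s then 1 else fz N (ζ s)) * (Rb X N T J ζ s * (PA (X.α s) (vN X N T J s))⁻¹ *
    Complex.exp (N * (PE (X.α s) (vN X N T J s) (ζ s) - PE (X.α s) (X.v T J s) (ζ s))))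

/-- the constant factor -/
noncomputable def cstX (X : Nw c d) (cc : Fin c → Bool) (N : ℕ) : ℂ :=
  ∏ s, ((if cc s then (N / 2 : ℂ) else (N : ℂ) * (-1) ^ (N - 1)) *
    (if X.α s 1 = 0 then 1 else (N : ℂ)) / ((√N : ℝ) : ℂ) ^ na (X.α s))

theorem pg_eq (X : Nw c d) (cc : Fin c → Bool) {N : ℕ} (hN : 1 ≤ N) (w : Fin c → ℤ)
    (T : Fin d → ℂ) (J ζ : Fin c → ℂ) :
    PgX X cc N w T J ζ = cstX X cc N * Complex.exp (N * PhX X cc w T J ζ) *
      ∏ s, HsX X cc N T J ζ s := by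
  unfold PgX PhX cstX
  rw [mul_sum, Complex.exp_sum, ← prod_mul_distrib, ← prod_mul_distrib]
  refine prod_congr rfl fun s _ => ?_
  have hN0 : (0:ℝ) < √(N:ℝ) := Real.sqrt_pos.2 (by exact_mod_cast hN)
  have hNc : (N : ℂ) ≠ 0 := by
    have : N ≠ 0 := by omega
    exact_mod_cast this
  have ha : ((√N : ℝ) : ℂ) ^ na (X.α s) ≠ 0 := pow_ne_zero _ (by exact_mod_cast hN0.ne')
  have hP := PA_ne (α := X.α s) (vN X N T J s)
  have e1 : Complex.exp (-(N * PE (X.α s) (vN X N T J s) (ζ s))) =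
      (Complex.exp (N * PE (X.α s) (vN X N T J s) (ζ s)))⁻¹ := Complex.exp_neg _
  have e2 : Complex.exp (N * (PE (X.α s) (vN X N T J s) (ζ s) - PE (X.α s) (X.v T J s) (ζ s))) =
      Complex.exp (N * PE (X.α s) (vN X N T J s) (ζ s)) / Complex.exp (N * PE (X.α s) (X.v T J s) (ζ s)) := by
    rw [mul_sub, Complex.exp_sub]
  have hE1 := Complex.exp_ne_zero (N * PE (X.α s) (vN X N T J s) (ζ s))
  have hE2 := Complex.exp_ne_zero (N * PE (X.α s) (X.v T J s) (ζ s))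
  cases hc : cc s
  · have e3 : Complex.exp (N * (PE (X.α s) (X.v T J s) (ζ s) + Complex.I * Real.pi * w s * ζ s ^ 2 / 4 +
        kc false * (Complex.I * Real.pi) * ζ s)) = Complex.exp (N * PE (X.α s) (X.v T J s) (ζ s)) *
        Complex.exp (N * (Complex.I * Real.pi * w s * ζ s ^ 2 / 4 + Complex.I * Real.pi * ζ s)) := by
      rw [← Complex.exp_add]
      congr 1
      unfold kc
      rw [if_neg (by simp)]
      ring
    unfold HsX Rb
    rw [hc]
    simp only [Bool.false_eq_true, if_false]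
    rw [fac_z N hN, e1, e2, e3]
    show _ * PB N (X.α s) (vN X N T J s) (ζ s) = _
    generalize Complex.exp (N * PE (X.α s) (vN X N T J s) (ζ s)) = E1 at *
    generalize Complex.exp (N * PE (X.α s) (X.v T J s) (ζ s)) = E2 at *
    generalize PA (X.α s) (vN X N T J s) = P at *
    generalize ((√N : ℝ) : ℂ) ^ na (X.α s) = a at *
    field_simp
  · have e3 : Complex.exp (N * (PE (X.α s) (X.v T J s) (ζ s) + Complex.I * Real.pi * w s * ζ s ^ 2 / 4 +
        kc true * (Complex.I * Real.pi) * ζ s)) = Complex.exp (N * PE (X.α s) (X.v T J s) (ζ s)) *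
        ez N (w s) (N * ζ s) := by
      unfold ez kc
      rw [← Complex.exp_add, if_pos rfl]
      congr 1
      field_simp
      ring
    unfold HsX Rb
    rw [hc, if_pos rfl, if_pos rfl, if_pos rfl, e1, e2, e3]
    show _ * PB N (X.α s) (vN X N T J s) (ζ s) = _
    generalize Complex.exp (N * PE (X.α s) (vN X N T J s) (ζ s)) = E1 at *
    generalize Complex.exp (N * PE (X.α s) (X.v T J s) (ζ s)) = E2 at *
    generalize PA (X.α s) (vN X N T J s) = P at *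
    generalize ((√N : ℝ) : ℂ) ^ na (X.α s) = a at *
    generalize ez N (w s) (N * ζ s) = E3 at *
    field_simp

section blk
variable {X : Nw c d} {r κ K C0 : ℝ}

theorem Hs_bound (cc : Fin c → Bool) (hLC : S_LC) (hX : X.Okb) (hB : ∀ s, Blk (X.α s) r κ K C0) :
    ∃ B : ℝ, 0 ≤ B ∧ ∀ N : ℕ, 1 ≤ N → (∀ s, ‖Pool.Agent.Q99.HU.Q239.q4 X s‖ / N < r / 2) → ∀ (T : Fin d → ℂ) (J ζ : Fin c → ℂ),
      X.Rg (r / 2) T J ζ → (∀ s, X.α s 1 = 0 → J s = 0) → (∀ s, cc s = false → ‖Eg N (ζ s)‖ ≤ 1 / 2) →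
      ‖∏ s, HsX X cc N T J ζ s‖ ≤ B := by
  obtain ⟨B1, hB1⟩ := fz_bound
  choose B2 hB2 using fun s => PA_bound hLC (hX.fr s) (hB s)
  set M : Fin c → ℝ := fun s => ‖PG (X.α s) (vC (X.α s)) 0 (Pool.Agent.Q99.HU.Q239.q4 X s) 0‖ +
    C0 * (2 * r) * (‖Pool.Agent.Q99.HU.Q239.q4 X s‖ + ‖(0:ℂ)‖) + C0 * ‖Pool.Agent.Q99.HU.Q239.q4 X s‖ ^ 2 with hM
  refine ⟨∏ s, (max |B1| 1 * ((1 + C0) * |B2 s| * Real.exp (M s))), ?_, ?_⟩
  · refine prod_nonneg fun s _ => ?_
    have := (hB s).C1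
    positivity
  intro N hN1 hN T J ζ hrg hJ hE
  rw [norm_prod]
  refine prod_le_prod (fun s _ => norm_nonneg _) fun s _ => ?_
  have hr := (hB s).r0
  have hC0 : 0 ≤ C0 := zero_le_one.trans (hB s).C1
  have hN0 : (1:ℝ) ≤ N := by exact_mod_cast hN1
  have hrg' := (Rg_mono (by linarith : r / 2 ≤ r) hrg) s
  unfold HsX
  rw [norm_mul, norm_mul, norm_mul]
  have h1 : ‖if cc s then (1 : ℂ) else fz N (ζ s)‖ ≤ max |B1| 1 := by
    cases hc : cc s
    · rw [if_neg (by simp)]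
      exact ((hB1 N (ζ s) (by linarith [hrg'.2, (hB s).r1]) (hE s hc)).trans
        (le_abs_self _)).trans (le_max_left _ _)
    · rw [if_pos rfl, norm_one]
      exact le_max_right _ _
  have h2 : ‖Rb X N T J ζ s‖ ≤ 1 + C0 := by
    have h3 := Rb_near hX hB hN1 hrg (hJ s) (hN s)
    have h4 : C0 / N ≤ C0 := div_le_self hC0 hN0
    have h5 : ‖Rb X N T J ζ s‖ ≤ ‖Rb X N T J ζ s - 1‖ + ‖(1:ℂ)‖ := by
      have := norm_add_le (Rb X N T J ζ s - 1) 1
      simpa using this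
    rw [norm_one] at h5
    linarith
  have h3 : ‖(PA (X.α s) (vN X N T J s))⁻¹‖ ≤ |B2 s| :=
    (hB2 s _ (Metric.ball_subset_closedBall (vN_mem hrg (hN s)))).trans (le_abs_self _)
  have h4 : ‖Complex.exp (N * (PE (X.α s) (vN X N T J s) (ζ s) - PE (X.α s) (X.v T J s) (ζ s)))‖ ≤
      Real.exp (M s) := by
    rw [Complex.norm_exp]
    apply Real.exp_le_exp.2
    refine (Complex.re_le_norm _).trans ?_
    have h5 := NPE hB hN1 hrg (hN s)
    have h6 := PG_bound (hB s) hrg'.1 hrg'.2 (Pool.Agent.Q99.HU.Q239.q4 X s) 0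
    have h7 : C0 * ‖Pool.Agent.Q99.HU.Q239.q4 X s‖ ^ 2 / N ≤ C0 * ‖Pool.Agent.Q99.HU.Q239.q4 X s‖ ^ 2 := div_le_self (by positivity) hN0
    have h8 := norm_sub_le ((N : ℂ) * (PE (X.α s) (vN X N T J s) (ζ s) - PE (X.α s) (X.v T J s) (ζ s)) +
      PG (X.α s) (X.v T J s) (ζ s) (Pool.Agent.Q99.HU.Q239.q4 X s) 0) (PG (X.α s) (X.v T J s) (ζ s) (Pool.Agent.Q99.HU.Q239.q4 X s) 0)
    rw [add_sub_cancel_right] at h8
    simp only [hM]
    linarith
  have h23 : ‖Rb X N T J ζ s‖ * ‖(PA (X.α s) (vN X N T J s))⁻¹‖ ≤ (1 + C0) * |B2 s| :=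
    mul_le_mul h2 h3 (norm_nonneg _) (by linarith)
  have h234 := mul_le_mul h23 h4 (norm_nonneg _) (by positivity)
  exact mul_le_mul h1 h234 (by positivity) (by positivity)

/-- the limit of the amplitude of a region -/
noncomputable def HlX (X : Nw c d) (cc : Fin c → Bool) (T : Fin d → ℂ) (J ζ : Fin c → ℂ) (s : Fin c) : ℂ :=
  (if cc s then 1 else Real.pi / Complex.I * Complex.sin (Real.pi * ζ s)) * (1 * (PA (X.α s) (X.v T J s))⁻¹ *
    Complex.exp (-PG (X.α s) (X.v T J s) (ζ s) (Pool.Agent.Q99.HU.Q239.q4 X s) 0))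

theorem Hl_ne {cc : Fin c → Bool} {T : Fin d → ℂ} {J ζ : Fin c → ℂ} {s : Fin c}
    (h : cc s = false → 0 < (ζ s).im) : HlX X cc T J ζ s ≠ 0 := by
  unfold HlX
  refine mul_ne_zero ?_ (mul_ne_zero (mul_ne_zero one_ne_zero (inv_ne_zero (PA_ne _)))
    (Complex.exp_ne_zero _))
  cases hc : cc s
  · rw [if_neg (by simp)]
    refine mul_ne_zero (div_ne_zero (by exact_mod_cast Real.pi_ne_zero) Complex.I_ne_zero)
      (sin_ne_of_im ?_)
    rw [Complex.im_ofReal_mul]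
    exact (mul_pos Real.pi_pos (h hc)).ne'
  · rw [if_pos rfl]
    exact one_ne_zero

theorem Hs_tendsto (cc : Fin c → Bool) (hLC : S_LC) (hX : X.Okb) (hB : ∀ s, Blk (X.α s) r κ K C0)
    {Tn : ℕ → Fin d → ℂ} {Jn ζn : ℕ → Fin c → ℂ} {T : Fin d → ℂ} {J ζ : Fin c → ℂ}
    (hT : ∀ j, Tendsto (fun N => Tn N j) atTop (𝓝 (T j)))
    (hJ : ∀ s, Tendsto (fun N => Jn N s) atTop (𝓝 (J s)))
    (hζ : ∀ s, Tendsto (fun N => ζn N s) atTop (𝓝 (ζ s)))
    (hadm : ∀ N s, X.α s 1 = 0 → Jn N s = 0) (him : ∀ N s, (ζn N s).im = (ζ s).im)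
    (hpos : ∀ s, cc s = false → 0 < (ζ s).im) (hrg : ∀ᶠ N in atTop, X.Rg (r / 2) (Tn N) (Jn N) (ζn N))
    (hrg0 : X.Rg (r / 2) T J ζ) (s : Fin c) :
    Tendsto (fun N => HsX X cc N (Tn N) (Jn N) (ζn N) s) atTop (𝓝 (HlX X cc T J ζ s)) := by
  have hr := (hB s).r0
  have hC0 : 0 ≤ C0 := zero_le_one.trans (hB s).C1
  have hrr : r / 2 ≤ r := by linarith
  have hv := v_tendsto (X := X) hT hJ s
  have hrg0' := (Rg_mono hrr hrg0) s
  have hev := hrg.and ((ev_small hB).and (eventually_ge_atTop 1))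
  unfold HsX HlX
  refine Tendsto.mul ?_ (Tendsto.mul (Tendsto.mul ?_ ?_) ?_)
  · cases hc : cc s
    swap
    · simp only [if_true]
      exact tendsto_const_nhds
    simp only [Bool.false_eq_true, if_false]
    unfold fz
    have h1 : Tendsto (fun N : ℕ => Eg N (ζn N s)) atTop (𝓝 0) := by
      rw [tendsto_zero_iff_norm_tendsto_zero]
      refine (eg_tendsto (hpos s hc)).congr fun N => ?_
      rw [eg_norm, him]
    have h2 : Tendsto (fun N : ℕ => (1 - Eg N (ζn N s)) ^ 2) atTop (𝓝 ((1 - 0) ^ 2)) :=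
      (h1.const_sub 1).pow 2
    have h3 : Tendsto (fun N : ℕ => (Real.pi / Complex.I * Complex.sin (Real.pi * ζn N s) : ℂ)) atTop
        (𝓝 (Real.pi / Complex.I * Complex.sin (Real.pi * ζ s))) := by
      have hc : Continuous fun Z : ℂ => (Real.pi / Complex.I * Complex.sin (Real.pi * Z) : ℂ) := by
        fun_prop
      exact (hc.tendsto _).comp (hζ s)
    have h4 := h3.div h2 (by norm_num)
    have e0 : (Real.pi / Complex.I * Complex.sin (Real.pi * ζ s) : ℂ) / (1 - 0) ^ 2 =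
        Real.pi / Complex.I * Complex.sin (Real.pi * ζ s) := by simp
    rw [e0] at h4
    exact h4
  · rw [tendsto_iff_norm_sub_tendsto_zero]
    refine squeeze_zero' (Filter.Eventually.of_forall fun N => norm_nonneg _) ?_
      (tendsto_const_div_atTop_nhds_zero_nat C0)
    filter_upwards [hev] with N hN
    exact Rb_near hX hB hN.2.2 hN.1 (hadm N s) (hN.2.1 s)
  · have h1 : Tendsto (fun N => vN X N (Tn N) (Jn N) s) atTop (𝓝 (X.v T J s)) := by
      have h2 : Tendsto (fun N : ℕ => (-(1 / (N:ℂ))) • Pool.Agent.Q99.HU.Q239.q4 X s) atTop (𝓝 ((0:ℂ) • Pool.Agent.Q99.HU.Q239.q4 X s)) := by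
        refine Tendsto.smul_const ?_ _
        have := (tendsto_one_div_atTop_nhds_zero_nat (𝕜 := ℂ)).neg
        simpa using this
      have h3 := hv.add h2
      rw [zero_smul, add_zero] at h3
      exact h3.congr fun N => (vN_eq X N _ _ s).symm
    have h2 : ContinuousAt (PA (X.α s)) (X.v T J s) :=
      (PA_cont hLC (hX.fr s) (hB s)).continuousAt
        (Metric.closedBall_mem_nhds_of_mem hrg0'.1)
    exact (h2.tendsto.comp h1).inv₀ (PA_ne _)
  · have h1 : Tendsto (fun N : ℕ => (N : ℂ) * (PE (X.α s) (vN X N (Tn N) (Jn N) s) (ζn N s) -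
        PE (X.α s) (X.v (Tn N) (Jn N) s) (ζn N s)) +
        PG (X.α s) (X.v (Tn N) (Jn N) s) (ζn N s) (Pool.Agent.Q99.HU.Q239.q4 X s) 0) atTop (𝓝 0) := by
      rw [tendsto_zero_iff_norm_tendsto_zero]
      refine squeeze_zero' (Filter.Eventually.of_forall fun N => norm_nonneg _) ?_
        (tendsto_const_div_atTop_nhds_zero_nat (C0 * ‖Pool.Agent.Q99.HU.Q239.q4 X s‖ ^ 2))
      filter_upwards [hev] with N hN
      exact NPE hB hN.2.2 hN.1 (hN.2.1 s)
    have h2 : Tendsto (fun N : ℕ => PG (X.α s) (X.v (Tn N) (Jn N) s) (ζn N s) (Pool.Agent.Q99.HU.Q239.q4 X s) 0) atTop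
        (𝓝 (PG (X.α s) (X.v T J s) (ζ s) (Pool.Agent.Q99.HU.Q239.q4 X s) 0)) := by
      rw [tendsto_iff_norm_sub_tendsto_zero]
      have h3 : Tendsto (fun N => C0 * (‖X.v (Tn N) (Jn N) s - X.v T J s‖ + ‖ζn N s - ζ s‖) *
          (‖Pool.Agent.Q99.HU.Q239.q4 X s‖ + ‖(0:ℂ)‖)) atTop (𝓝 0) := by
        have e1 := (tendsto_iff_norm_sub_tendsto_zero.1 hv)
        have e2 := (tendsto_iff_norm_sub_tendsto_zero.1 (hζ s))
        have e3 := ((e1.add e2).const_mul C0).mul_const (‖Pool.Agent.Q99.HU.Q239.q4 X s‖ + ‖(0:ℂ)‖)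
        simpa using e3
      refine squeeze_zero' (Filter.Eventually.of_forall fun N => norm_nonneg _) ?_ h3
      filter_upwards [hev] with N hN
      have hN' := (Rg_mono hrr hN.1) s
      have h4 := PG_lip (hB s) (v := X.v T J s) (u := X.v (Tn N) (Jn N) s - X.v T J s) (ζ := ζ s)
        (b := ζn N s - ζ s) hrg0'.1 hrg0'.2 (by rw [add_sub_cancel]; exact hN'.1)
        (by rw [add_sub_cancel]; exact hN'.2) (Pool.Agent.Q99.HU.Q239.q4 X s) 0
      rw [add_sub_cancel, add_sub_cancel] at h4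
      exact h4
    have h3 := h1.sub h2
    rw [zero_sub] at h3
    exact (Complex.continuous_exp.tendsto _).comp (h3.congr fun N => by ring)

end blk

end Pool.Agent.H760.MX
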