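import Pool.Agent.H760.MX.Sd

/-!
# Partially augmented planar shadows: the maximum at the saddle point

Adapted from `Q99/HU/Q239/MXN.lean`.
-/

set_option autoImplicit false

namespace Pool.Agent.H760.MX

open Finset Filter Topology
open Pool.Agent.Q99.HT
open Pool.Agent.Q99.HU.Q239

variable {c d : ℕ}

/-- derivatives of the potential along a line -/
theorem PhX_line {X : Nw c d} (cc : Fin c → Bool) {r κ K C0 : ℝ}
    (hB : ∀ s, Blk (X.α s) r κ K C0) (w : Fin c → ℤ)
    {T a : Fin d → ℂ} {J b ζ g : Fin c → ℂ} {t : ℝ}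
    (ht : X.Rg r (fun j => T j + t * a j) (fun s => J s + t * b s) (fun s => ζ s + t * g s))
    (a' : Fin d → ℂ) (b' g' : Fin c → ℂ) :
    HasDerivAt (fun t : ℝ => PhX X cc w (fun j => T j + t * a j) (fun s => J s + t * b s)
      (fun s => ζ s + t * g s))
      (GPX X cc w (fun j => T j + t * a j) (fun s => J s + t * b s) (fun s => ζ s + t * g s) a b g) t ∧
    HasDerivAt (fun t : ℝ => GPX X cc w (fun j => T j + t * a j) (fun s => J s + t * b s)
      (fun s => ζ s + t * g s) a' b' g')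
      (X.HP w (fun j => T j + t * a j) (fun s => J s + t * b s) (fun s => ζ s + t * g s) a b g a' b' g') t := by
  unfold PhX GPX Nw.HP
  constructor
  · refine HasDerivAt.fun_sum fun s _ => ?_
    have h1 := ((hB s).der _ (ht s).1 _ (ht s).2 (X.dv a b s) 0 (g s) 0).1
    have h2 : HasDerivAt (fun t : ℝ => PE (X.α s) (X.v (fun j => T j + t * a j)
        (fun s => J s + t * b s) s) (ζ s + t * g s)) (PG (X.α s) (X.v (fun j => T j + t * a j)
        (fun s => J s + t * b s) s) (ζ s + t * g s) (X.dv a b s) (g s)) t := by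
      refine shift1 (G := fun z : ℂ => PE (X.α s) (X.v (fun j => T j + z * a j)
        (fun s => J s + z * b s) s) (ζ s + z * g s)) (t0 := t) ?_
      refine h1.congr_of_eventuallyEq (Filter.Eventually.of_forall fun z => ?_)
      show PE (X.α s) (X.v (fun j => T j + (t + z) * a j) (fun s => J s + (t + z) * b s) s)
        (ζ s + (t + z) * g s) = _
      rw [v_line, v_line]
      congr 1
      · rw [add_smul, add_assoc]
      · ring
    have h3 := line_lin (ζ s) (g s) t
    have h4 := (((h3.pow 2).const_mul (Complex.I * Real.pi * w s)).div_const 4).add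
      (h3.const_mul (kc (cc s) * (Complex.I * Real.pi)))
    have h5 := h2.add h4
    refine (h5.congr_deriv ?_).congr_of_eventuallyEq (Filter.Eventually.of_forall fun z => ?_)
    · push_cast
      ring
    · simp only [Pi.add_apply, Pi.pow_apply]
      ring
  · refine HasDerivAt.fun_sum fun s _ => ?_
    have h1 := ((hB s).der _ (ht s).1 _ (ht s).2 (X.dv a b s) (X.dv a' b' s) (g s) (g' s)).2
    have h2 : HasDerivAt (fun t : ℝ => PG (X.α s) (X.v (fun j => T j + t * a j)
        (fun s => J s + t * b s) s) (ζ s + t * g s) (X.dv a' b' s) (g' s))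
        (PH (X.α s) (X.v (fun j => T j + t * a j)
        (fun s => J s + t * b s) s) (ζ s + t * g s) (X.dv a b s) (g s) (X.dv a' b' s) (g' s)) t := by
      refine shift1 (G := fun z : ℂ => PG (X.α s) (X.v (fun j => T j + z * a j)
        (fun s => J s + z * b s) s) (ζ s + z * g s) (X.dv a' b' s) (g' s)) (t0 := t) ?_
      refine h1.congr_of_eventuallyEq (Filter.Eventually.of_forall fun z => ?_)
      show PG (X.α s) (X.v (fun j => T j + (t + z) * a j) (fun s => J s + (t + z) * b s) s)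
        (ζ s + (t + z) * g s) _ _ = _
      rw [v_line, v_line]
      congr 1
      · rw [add_smul, add_assoc]
      · ring
    have h3 := line_lin (ζ s) (g s) t
    have h4 := (((h3.const_mul (Complex.I * Real.pi * w s)).div_const 2).add_const
      (kc (cc s) * (Complex.I * Real.pi))).mul_const (g' s)
    have h5 := h2.add h4
    refine (h5.congr_deriv ?_).congr_of_eventuallyEq (Filter.Eventually.of_forall fun z => ?_)
    · ring
    · rfl

/-- **the maximum at the saddle point** -/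
theorem MXNx (c d : ℕ) (X : Nw c d) (cc : Fin c → Bool) (hX : X.Okb) (r κ K C0 : ℝ)
    (hB : ∀ s, Blk (X.α s) r κ K C0) : ∃ κ' : ℝ, 0 < κ' ∧
  ∀ (w : Fin c → ℤ) (T : Fin d → ℂ) (J ζ : Fin c → ℂ), CrX X cc w T J ζ → X.Rg r T J ζ →
  ∀ (a : Fin d → ℝ) (b g : Fin c → ℝ), (∀ s, X.α s 1 = 0 → b s = 0) →
  X.Rg r (fun j => T j + a j) (fun s => J s + b s) (fun s => ζ s + g s) →
  (PhX X cc w (fun j => T j + a j) (fun s => J s + b s) (fun s => ζ s + g s)).re ≤
    (PhX X cc w T J ζ).re - κ' * (∑ j, a j ^ 2 + ∑ s, b s ^ 2 + ∑ s, g s ^ 2) := by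
  obtain ⟨κ1, hκ1, hκ11, hκ⟩ := inj_bound X.E hX.inj
  have hκ0 : ∀ s : Fin c, 0 < κ := fun s => (hB s).κ0
  set κ0 : ℝ := if c = 0 then 1 else κ with hκ0def
  have hκ0pos : 0 < κ0 := by
    rw [hκ0def]
    split_ifs with h
    · exact one_pos
    · exact hκ0 ⟨0, Nat.pos_of_ne_zero h⟩
  refine ⟨κ0 * κ1, mul_pos hκ0pos hκ1, fun w T J ζ hcr hrg a b g hb hrg2 => ?_⟩
  set A := ∑ s, ∑ i, (∑ j, a j * (X.E j s i : ℝ)) ^ 2 with hA
  set S := κ * (A + ∑ s, b s ^ 2 + ∑ s, g s ^ 2) with hS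
  have hrgt : ∀ t ∈ Set.Icc (0:ℝ) 1, X.Rg r (fun j => T j + t * (a j : ℂ))
      (fun s => J s + t * (b s : ℂ)) (fun s => ζ s + t * (g s : ℂ)) := fun t ht =>
    rg_line hrg hrg2 ht
  have hmax := max_line (S := S)
    (F := fun t : ℝ => PhX X cc w (fun j => T j + t * a j) (fun s => J s + t * b s) (fun s => ζ s + t * g s))
    (F1 := fun t : ℝ => GPX X cc w (fun j => T j + t * a j) (fun s => J s + t * b s)
      (fun s => ζ s + t * g s) (fun j => (a j : ℂ)) (fun s => (b s : ℂ)) (fun s => (g s : ℂ)))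
    (F2 := fun t : ℝ => X.HP w (fun j => T j + t * a j) (fun s => J s + t * b s)
      (fun s => ζ s + t * g s) (fun j => (a j : ℂ)) (fun s => (b s : ℂ)) (fun s => (g s : ℂ))
      (fun j => (a j : ℂ)) (fun s => (b s : ℂ)) (fun s => (g s : ℂ)))
    (fun t ht => (PhX_line cc hB w (hrgt t ht) 0 0 0).1)
    (fun t ht => (PhX_line cc hB w (hrgt t ht) _ _ _).2)
    (by
      simp only [Complex.ofReal_zero, zero_mul, add_zero]
      rw [hcr.eq _ _ _ (fun s hs => by rw [hb s hs]; simp)]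
      rfl)
    (fun t ht => HP_le hX hB w (hrgt t ht) a b g hb)
  simp only [Complex.ofReal_zero, Complex.ofReal_one, zero_mul, one_mul, add_zero] at hmax
  refine hmax.trans (sub_le_sub_left ?_ _)
  have hA0 : 0 ≤ A := sum_nonneg fun s _ => sum_nonneg fun i _ => sq_nonneg _
  have ha0 : 0 ≤ ∑ j, a j ^ 2 := sum_nonneg fun s _ => sq_nonneg _
  have hb0 : 0 ≤ ∑ s, b s ^ 2 := sum_nonneg fun s _ => sq_nonneg _
  have hg0 : 0 ≤ ∑ s, g s ^ 2 := sum_nonneg fun s _ => sq_nonneg _
  have h1 := hκ a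
  have h2 : κ1 * (∑ j, a j ^ 2 + ∑ s, b s ^ 2 + ∑ s, g s ^ 2) ≤ A + ∑ s, b s ^ 2 + ∑ s, g s ^ 2 := by
    nlinarith
  by_cases hc : c = 0
  · subst hc
    have hA00 : A = 0 := by rw [hA]; simp
    have hb00 : ∑ s, b s ^ 2 = 0 := by simp
    have hg00 : ∑ s, g s ^ 2 = 0 := by simp
    rw [hS, hA00, hb00, hg00] at *
    have ha00 : ∑ j, a j ^ 2 = 0 := by
      have : κ1 * ∑ j, a j ^ 2 ≤ 0 := by simpa using h1
      nlinarith
    rw [ha00]
    simp
  · have : κ0 = κ := by rw [hκ0def, if_neg hc]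
    rw [hS, this, mul_assoc]
    exact mul_le_mul_of_nonneg_left h2 (this ▸ hκ0pos.le)

end Pool.Agent.H760.MX
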