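import Pool.Agent.H760.MX.St

/-!
# Partially augmented planar shadows: the state sum of the network

Adapted from `Q261/HT/NZ.lean` (weights `F s` instead of `Fk N (w s)`).
-/

set_option autoImplicit false

namespace Pool.Agent.H760.MX

open Finset Filter Topology
open Pool.Agent.Q99.HT
open Pool.Agent.Q99.FAL (Pc Ty Val Pri Pos AS Sol Out c6 fV n1 n2 cor dn up wd stp cls zz IsLat nV toR
  eij S_SO S_OZ)
open Pool.Agent.Q99.KN (Wk Fk zl ez S_PF S_WR S_SY)
open Pool.Agent.Q224.FAL (Sol_cor n12' Out_13 Out_02 sol_add sol_smul sol_cast lat eij_cor)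
open Pool.Agent.Q261.HT (cv_add cv_smul cv_sum xq cv_xq cor_of_cv n12_xq xq_45 eq_xq xq_bd Ps_cv)

open Classical in
/-- a weight as a function of integral corners -/
noncomputable def F3 (N : ℕ) (F : ℕ → ℕ → ℕ → ℂ) (q : Fin 3 → ℤ) : ℂ :=
  if Ps N q then F (q 0).toNat (q 1).toNat (q 2).toNat else 0

theorem t3_xq {N : ℕ} (F : ℕ → ℕ → ℕ → ℂ)
    (hs : ∀ A b C, A + b + C < N → F A (N - 1 - A - b - C) C = F A b C) (β : Bool)
    {q : Fin 3 → ℤ} (h : Ps N q) : t3 F (xq β ((N : ℤ) - 1) q) = F3 N F q := by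
  unfold t3 F3
  rw [if_pos (xq_45 β _ q), if_pos h]
  cases β with
  | true => rfl
  | false =>
    show F (q 0).toNat ((N : ℤ) - 1 - q 0 - q 1 - q 2).toNat (q 2).toNat = _
    obtain ⟨h0, h1, h2, h3⟩ := h
    have e1 : ((N : ℤ) - 1 - q 0 - q 1 - q 2).toNat =
        N - 1 - (q 0).toNat - (q 1).toNat - (q 2).toNat := by omega
    rw [e1, hs _ _ _ (by omega)]

open Classical in
theorem nz_gen (D : List Pc) (hV : Val D 1) (a : Fin D.length → Fin 6 → ℝ) (d : ℕ)
    (β : Fin D.length → Bool) (Y : Nw D.length d) (hY : NetOf D a β Y) {N : ℕ}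
    (F : Fin D.length → ℕ → ℕ → ℕ → ℂ)     (hs : ∀ s A b C, A + b + C < N → F s A (N - 1 - A - b - C) C = F s A b C) :
    (∑ a : Fin D.length → Fin 6 → Fin N,
      if Sol D (fun k => zz (a k)) [0, 0] ((N : ℤ) - 1) then ∏ k, t3 (F k) (zz (a k)) else 0) =
    ∑' t : Fin d → ℤ, ∏ s, F3 N (F s) (Y.q N t s) := by
  have hSO := Pool.Agent.Q237.FAL.task_SO
  have hOZ := Pool.Agent.Q237.FAL.task_OZ
  obtain ⟨a0, ha0, hq0⟩ := hY.q0
  choose δ hδS hδE using hY.E1
  set L := lat hSO D a0 ha0.1 with hL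
  have hLmem : ∀ {x : Fin D.length → Fin 6 → ℤ}, x ∈ L ↔ So D x 0 := Iff.rfl
  -- the corners of the lattice point `t`
  have hYq : ∀ (t : Fin d → ℤ) (s : Fin D.length) (i : Fin 3),
      Y.q N t s i = cv (β s) ((((N : ℤ) - 1) • a0 + ∑ j, t j • δ j) s) i := by
    intro t s i
    have e1 : (((N : ℤ) - 1) • a0 + ∑ j, t j • δ j) s =
        ((N : ℤ) - 1) • a0 s + ∑ j, t j • δ j s := by
      rw [Pi.add_apply, Finset.sum_apply]
      rfl
    rw [e1, cv_add, cv_smul, cv_sum, ← hq0 s]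
    unfold Nw.q
    simp only [hδE]
  have hyS : ∀ t : Fin d → ℤ, Sol D (((N : ℤ) - 1) • a0 + ∑ j, t j • δ j) [0, 0] ((N : ℤ) - 1) := by
    intro t
    have h1 : (∑ j, t j • δ j) ∈ L := L.sum_mem fun j _ => L.smul_mem _ (hδS j)
    have h2 := sol_add hSO (sol_smul hSO ((N : ℤ) - 1) ha0.1) (hLmem.mp h1).1
    simpa using h2
  -- the angles of the lattice point `t`
  have hxS : ∀ t : Fin d → ℤ, Sol D (fun s => xq (β s) ((N : ℤ) - 1) (Y.q N t s)) [0, 0]
      ((N : ℤ) - 1) := by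
    intro t
    refine Sol_cor D _ _ _ _ (fun s => ?_) (hyS t)
    refine cor_of_cv (β := β s) (fun i => ?_) ?_
    · rw [← hYq, cv_xq]
    · rw [n12_xq]
      exact ((hSO.1 ℤ D _ [0, 0] _).mp (hyS t)).1 s
  -- both sides as sums over subtypes
  let P : (Fin D.length → Fin 6 → Fin N) → Prop := fun a =>
    Sol D (fun k => zz (a k)) [0, 0] ((N : ℤ) - 1) ∧ ∀ k, zz (a k) 4 = 0 ∧ zz (a k) 5 = 0
  let Q : (Fin d → ℤ) → Prop := fun t => ∀ s, Ps N (Y.q N t s)
  let g : {t // Q t} → {a // P a} := fun t =>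
    ⟨fun s i => ⟨(xq (β s) ((N : ℤ) - 1) (Y.q N t.1 s) i).toNat, by
      have := xq_bd (β s) (t.2 s) i
      omega⟩, by
      have e : (fun k => zz (fun i => (⟨(xq (β k) ((N : ℤ) - 1) (Y.q N t.1 k) i).toNat, by
          have := xq_bd (β k) (t.2 k) i
          omega⟩ : Fin N))) = fun k => xq (β k) ((N : ℤ) - 1) (Y.q N t.1 k) := by
        funext k i
        show ((xq (β k) ((N : ℤ) - 1) (Y.q N t.1 k) i).toNat : ℤ) = _
        rw [Int.toNat_of_nonneg (xq_bd (β k) (t.2 k) i).1]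
      refine ⟨?_, fun k => ?_⟩
      · rw [e]
        exact hxS t.1
      · have ek := congrFun e k
        rw [ek]
        exact xq_45 _ _ _⟩
  have hg : ∀ (t : {t // Q t}) (s : Fin D.length),
      zz ((g t).1 s) = xq (β s) ((N : ℤ) - 1) (Y.q N t.1 s) := by
    intro t s
    funext i
    show ((xq (β s) ((N : ℤ) - 1) (Y.q N t.1 s) i).toNat : ℤ) = _
    rw [Int.toNat_of_nonneg (xq_bd (β s) (t.2 s) i).1]
  have hgi : Function.Injective g := by
    intro t t' h
    have h1 : ∀ s i, Y.q N t.1 s i = Y.q N t'.1 s i := by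
      intro s i
      have h2 := hg t s
      rw [h, hg t' s] at h2
      rw [← cv_xq (β s) ((N : ℤ) - 1) (Y.q N t.1 s), ← h2, cv_xq]
    have h3 := hY.inj (fun j => ((t.1 j - t'.1 j : ℤ) : ℝ)) (fun s i => by
      have h4 : ∑ j, (t.1 j - t'.1 j) * Y.E j s i = 0 := by
        have h5 := h1 s i
        unfold Nw.q at h5
        simp only [sub_mul, Finset.sum_sub_distrib]
        linarith
      exact_mod_cast h4)
    apply Subtype.ext
    funext j
    have h6 := congrFun h3 j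
    have h7 : ((t.1 j - t'.1 j : ℤ) : ℝ) = 0 := h6
    have h8 : t.1 j - t'.1 j = 0 := by exact_mod_cast h7
    linarith
  have hgs : Function.Surjective g := by
    rintro ⟨a', h1, h2⟩
    have hn : ∀ k i, (0 : ℤ) ≤ zz (a' k) i := fun k i => by unfold zz; positivity
    have hout := hOZ.2 D 1 hV (fun k => zz (a' k)) [0, 0] _ rfl (by simp) hn h1
    have hsum := ((hSO.1 ℤ D _ [0, 0] _).mp h1).1
    set x : Fin D.length → Fin 6 → ℤ := fun k => zz (a' k) with hx
    have hδ : So D (x - ((N : ℤ) - 1) • a0) 0 := by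
      refine ⟨?_, fun k i ho => ?_⟩
      · have h4 := sol_add hSO h1 (sol_smul hSO (-((N : ℤ) - 1)) ha0.1)
        have e : x + (-((N : ℤ) - 1)) • a0 = x - ((N : ℤ) - 1) • a0 := by
          rw [neg_smul]
          exact (sub_eq_add_neg _ _).symm
        rw [e] at h4
        have e2 : (N : ℤ) - 1 + -((N : ℤ) - 1) * 1 = 0 := by ring
        rw [e2] at h4
        exact h4
      · rw [Pi.sub_apply, Pi.sub_apply, Pi.smul_apply, Pi.smul_apply, ha0.2 k i ho, smul_zero,
          sub_zero]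
        exact hout k i ho
    obtain ⟨t, ht, -⟩ := hY.E2 _ hδ
    have hq : ∀ s, cv (β s) (x s) = Y.q N t s := by
      intro s
      funext i
      have h5 := ht s i
      have e1 : (x - ((N : ℤ) - 1) • a0) s = x s + (-((N : ℤ) - 1)) • a0 s := by
        rw [Pi.sub_apply, Pi.smul_apply, neg_smul, sub_eq_add_neg]
      rw [e1, cv_add, cv_smul] at h5
      unfold Nw.q
      rw [hq0 s]
      linarith
    have hQ : Q t := by
      intro s
      rw [← hq s]
      exact Ps_cv (β s) (hn s) (hsum s)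
    refine ⟨⟨t, hQ⟩, ?_⟩
    apply Subtype.ext
    funext s i
    apply Fin.ext
    have h6 := congrFun (hg ⟨t, hQ⟩ s) i
    have h7 : xq (β s) ((N : ℤ) - 1) (Y.q N t s) = x s := by
      rw [← hq s]
      exact (eq_xq (h2 s).1 (h2 s).2 (hsum s)).symm
    rw [h7] at h6
    have h8 : (((g ⟨t, hQ⟩).1 s i : ℕ) : ℤ) = ((a' s i : ℕ) : ℤ) := h6
    exact_mod_cast h8
  let e : {t // Q t} ≃ {a // P a} := Equiv.ofBijective g ⟨hgi, hgs⟩
  -- the left side
  have hl : (∑ a : Fin D.length → Fin 6 → Fin N,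
      if Sol D (fun k => zz (a k)) [0, 0] ((N : ℤ) - 1) then ∏ k, t3 (F k) (zz (a k)) else 0) = ∑ a : {a // P a}, ∏ k, t3 (F k) (zz (a.1 k)) := by
    rw [← Finset.sum_subtype (Finset.univ.filter P) (p := P) (by simp)
      (fun a' => ∏ k, t3 (F k) (zz (a' k))), Finset.sum_filter]
    refine Finset.sum_congr rfl fun a' _ => ?_
    by_cases h1 : Sol D (fun k => zz (a' k)) [0, 0] ((N : ℤ) - 1)
    · by_cases h2 : ∀ k, zz (a' k) 4 = 0 ∧ zz (a' k) 5 = 0
      · rw [if_pos h1, if_pos (show P a' from ⟨h1, h2⟩)]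
      · rw [if_pos h1, if_neg (show ¬ P a' from fun h => h2 h.2)]
        push Not at h2
        obtain ⟨k, hk⟩ := h2
        refine Finset.prod_eq_zero (Finset.mem_univ k) ?_
        unfold t3
        rw [if_neg]
        rintro ⟨h3, h4⟩
        exact hk h3 h4
    · rw [if_neg h1, if_neg (show ¬ P a' from fun h => h1 h.1)]
  have hr : (∑' t : Fin d → ℤ, ∏ s, F3 N (F s) (Y.q N t s)) = ∑' t : {t // Q t}, ∏ s, F3 N (F s) (Y.q N t.1 s) := by
    refine (tsum_subtype_eq_of_support_subset (s := {t | Q t}) ?_).symm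
    intro t ht
    by_contra hcon
    have hcon' : ¬ ∀ s, Ps N (Y.q N t s) := hcon
    push Not at hcon'
    obtain ⟨s, hs⟩ := hcon'
    refine ht (Finset.prod_eq_zero (Finset.mem_univ s) ?_)
    unfold F3
    rw [if_neg hs]
  have h9 : ∑ a' : {a // P a}, ∏ k, t3 (F k) (zz (a'.1 k)) =
      ∑' a' : {a // P a}, ∏ k, t3 (F k) (zz (a'.1 k)) := (tsum_fintype _).symm
  rw [hl, hr, h9, ← e.tsum_eq]
  refine tsum_congr fun t => ?_
  refine Finset.prod_congr rfl fun s _ => ?_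
  show t3 (F s) (zz ((g t).1 s)) = _
  rw [hg t s]
  exact t3_xq (F s) (hs s) (β s) (t.2 s)

/-- the weights are symmetric -/
theorem Fx_sym {N : ℕ} (hN : 0 < N) (c : Bool) (w : ℤ) (A b C : ℕ) (h : A + b + C < N) :
    Fx N c w A (N - 1 - A - b - C) C = Fx N c w A b C := by
  have hS := Pool.Agent.Q208.KN.task_SY t_PF t_WR N hN
  cases c
  · show Fk N w A (N - 1 - A - b - C) C = Fk N w A b C
    unfold Fk
    refine Finset.sum_congr rfl fun k _ => ?_
    congr 1
    funext z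
    rw [hS z A b C h]
  · show Fc N w A (N - 1 - A - b - C) C = Fc N w A b C
    unfold Fc
    refine Finset.sum_congr rfl fun k _ => ?_
    rw [hS _ A b C h]

/-- the state sum of a network with circles -/
noncomputable def Zn {c d : ℕ} (X : Nw c d) (N : ℕ) (cc : Fin c → Bool) (w : Fin c → ℤ) : ℂ :=
  ∑' t : Fin d → ℤ, ∏ s, F3 N (Fx N (cc s) (w s)) (X.q N t s)

theorem zx_eq (D : List Pc) (hV : Val D 1) (a : Fin D.length → Fin 6 → ℝ) (d : ℕ)
    (β : Fin D.length → Bool) (Y : Nw D.length d) (hY : NetOf D a β Y) {N : ℕ} (hN : 0 < N)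
    (cc : Fin D.length → Bool) (w : Fin D.length → ℤ) : ZX N D cc w = Zn Y N cc w := by
  unfold ZX Zn
  exact nz_gen D hV a d β Y hY (fun s => Fx N (cc s) (w s)) fun s A b C h => Fx_sym hN _ _ A b C h

end Pool.Agent.H760.MX
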