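import Pool.Agent.H760.MX.Vc
import Pool.Graph.R_pool_sql_team_seeded_3997aac3.Q99.HX.AsmP

/-!
# Partially augmented planar shadows: the phase of the Kashaev invariant

Adapted from `Q299/HU/JGP.lean` and `Q99/HX/Fin2.lean`.
-/

set_option autoImplicit false

namespace Pool.Agent.H760.MX

open Finset Filter Topology MeasureTheory
open Pool.Agent.W715.VC (rt)
open Pool.Agent.W709.QAT (Piece run)
open Pool.Agent.Q191.LB (sg)
open Pool.Agent.Q191.TW (cs cs_add cs_zero)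
open Pool.Agent.Q99.FW (Kg K2)
open Pool.Agent.Q99.FP2 (Phs phs_Kg phs_K2 Fh)
open Pool.Agent.Q99.FAL (Pc Ty Val Pri Pos AS Sol Out c6 fV n1 n2 cor dn up)
open Pool.Agent.Q99.KN (tw Gp)
open Pool.Agent.Q99.HT
open Pool.Agent.Q99.HU
open Pool.Agent.Q99.HX (tot phs_all div_tendsto)
open Pool.Agent.Q299.HU (ThG tg tg_K gl phs_gl jg_ex)

/-- the constant of a region -/
noncomputable def kr (N : ℕ) (c : Bool) : ℂ := if c then K2 N else (-1) ^ (N - 1)

theorem rg_K (N : ℕ) (c σ : Bool) (m : ℕ) :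
    (rg N c σ m).K = Kg N (sg σ) ^ m * kr N c := by
  cases c <;> rfl

theorem thg_toM (N : ℕ) : ∀ (D : List Pc) (c : Fin D.length → Bool)
    (f : Fin D.length → Bool × ℕ) (n : ℕ),
    ThG N (toM N D c f) n = gl N D n * ∏ k, (rg N (c k) (f k).1 (f k).2).K
  | [], c, f, n => by
    have : ∏ k : Fin ([] : List Pc).length, (rg N (c k) (f k).1 (f k).2).K = 1 := by
      rfl
    rw [this, mul_one]
    rfl
  | P :: D, c, f, n => by
    have h1 := thg_toM N D (fun k => c k.succ) (fun k => f k.succ) (up P.ty n)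
    have h2 : ∏ k : Fin (P :: D).length, (rg N (c k) (f k).1 (f k).2).K =
        (rg N (c 0) (f 0).1 (f 0).2).K *
          ∏ k : Fin D.length, (rg N (c k.succ) (f k.succ).1 (f k.succ).2).K :=
      Fin.prod_univ_succ (n := D.length) fun k => (rg N (c k) (f k).1 (f k).2).K
    have h3 : ThG N (toM N (P :: D) c f) n = tg N (rg N (c 0) (f 0).1 (f 0).2).K P.ty P.p n *
        ThG N (toM N D (fun k => c k.succ) (fun k => f k.succ)) (up P.ty n) := rfl
    have h4 : gl N (P :: D) n = tg N 1 P.ty P.p n * gl N D (up P.ty n) := rfl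
    rw [h3, h1, h2, h4, tg_K]
    ring

/-- the number of circles -/
def nc {n : ℕ} (c : Fin n → Bool) : ℕ := (univ.filter fun k => c k = true).card

theorem prod_kr (N : ℕ) {n : ℕ} (c : Fin n → Bool) :
    ∏ k, kr N (c k) = K2 N ^ nc c * sgX c N := by
  have e : ∀ k, kr N (c k) = (if c k = true then K2 N else 1) *
      (if c k = true then 1 else (-1) ^ (N - 1)) := by
    intro k
    unfold kr
    by_cases h : c k = true
    · rw [if_pos h, if_pos h, if_pos h, mul_one]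
    · rw [if_neg h, if_neg h, if_neg h, one_mul]
  have e2 : ∏ k, (if c k = true then K2 N else 1) = K2 N ^ nc c := by
    rw [Finset.prod_ite, prod_const, prod_const_one, mul_one]
    rfl
  have e3 : ∏ k, (if c k = true then (1 : ℂ) else (-1) ^ (N - 1)) = sgX c N := rfl
  rw [prod_congr rfl fun k _ => e k, prod_mul_distrib, e2, e3]

/-- **the Kashaev invariant with its phase** -/
theorem kasX_ph (D : List Pc) (h1 : Val D 1) (cc : Fin D.length → Bool)
    (f : Fin D.length → Bool × ℕ) (P : ℂ) :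
    ∃ β γ : ℝ, ∀ N : ℕ, 0 < N → kasX N D cc f /
      (N * √N * Complex.exp (N * (P - Complex.I * Real.pi * tot f / 4))) =
      Complex.exp (Complex.I * Real.pi * β) * Complex.exp (Complex.I * Real.pi * γ / N) *
        (∏ k, kp (cc k)) * ((N : ℂ) ^ D.length * ZX N D cc (wf f) /
      (N * (√N : ℝ) * (sgX cc N * Complex.exp (N * P)))) := by
  obtain ⟨β1, γ1, hg⟩ := phs_gl D 1 h1
  obtain ⟨β2, γ2, hK⟩ := (phs_all f).mul (phs_K2.pow (nc cc))
  refine ⟨β1 + β2, γ1 + γ2, fun N hN => ?_⟩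
  have hN' : (N : ℂ) ≠ 0 := by exact_mod_cast hN.ne'
  have hr := jg_ex N hN (toM N D cc f) (ok_toM hN D cc f) (vag_toM N D cc f 1 h1)
  have hgl : gl N D 1 = cs N ((-Fh 1) * (N : ℝ) ^ 2 + β1 * N + γ1) := hg N hN
  have hα : (-Fh 1) * (N : ℝ) ^ 2 + β1 * N + γ1 = β1 * N + γ1 := by
    unfold Fh
    norm_num
  rw [hα] at hgl
  have hK' : (∏ k, Kg N (sg (f k).1) ^ (f k).2) * K2 N ^ nc cc =
      cs N (-(tot f : ℝ) / 4 * (N : ℝ) ^ 2 + β2 * N + γ2) := by
    have := hK N hN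
    rw [mul_zero, add_zero] at this
    exact this
  have hKr : ∏ k, (rg N (cc k) (f k).1 (f k).2).K =
      cs N (-(tot f : ℝ) / 4 * (N : ℝ) ^ 2 + β2 * N + γ2) * sgX cc N := by
    rw [prod_congr rfl fun k _ => rg_K N (cc k) (f k).1 (f k).2, prod_mul_distrib, prod_kr,
      ← hK']
    ring
  rw [flat_toM, len_toM, unrM hN, thg_toM, hgl, hKr] at hr
  have e1 : kasX N D cc f = cs N (β1 * N + γ1) *
      (cs N (-(tot f : ℝ) / 4 * (N : ℝ) ^ 2 + β2 * N + γ2) * sgX cc N) * N ^ D.length *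
      ((∏ k, kp (cc k)) * ZX N D cc (wf f)) := by
    unfold kasX
    rw [dif_pos hN, hr, ZX]
  have e2 : Complex.exp (N * (P - Complex.I * Real.pi * tot f / 4)) =
      Complex.exp (N * P) * Complex.exp (-(N * (Complex.I * Real.pi * tot f / 4))) := by
    rw [← Complex.exp_add]
    congr 1
    ring
  have e3 : cs N (β1 * N + γ1) * cs N (-(tot f : ℝ) / 4 * (N : ℝ) ^ 2 + β2 * N + γ2) =
      Complex.exp (Complex.I * Real.pi * (β1 + β2 : ℝ)) *
        Complex.exp (Complex.I * Real.pi * (γ1 + γ2 : ℝ) / N) *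
        Complex.exp (-(N * (Complex.I * Real.pi * tot f / 4))) := by
    unfold cs
    rw [← Complex.exp_add, ← Complex.exp_add, ← Complex.exp_add]
    congr 1
    push_cast
    field_simp
    ring
  have e5 := sgX_ne cc N
  have e6 := sgX_sq cc N
  have e7 := Complex.exp_ne_zero (N * P)
  have e8 := Complex.exp_ne_zero (-(N * (Complex.I * Real.pi * tot f / 4)))
  have hs0 : (√(N : ℝ)) ≠ 0 := (Real.sqrt_pos.2 (by exact_mod_cast hN)).ne'
  have hs : ((√(N : ℝ) : ℝ) : ℂ) ≠ 0 := by exact_mod_cast hs0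
  have e9 : kasX N D cc f =
      (cs N (β1 * N + γ1) * cs N (-(tot f : ℝ) / 4 * (N : ℝ) ^ 2 + β2 * N + γ2)) *
      (sgX cc N * (N : ℂ) ^ D.length * (∏ k, kp (cc k)) * ZX N D cc (wf f)) := by
    rw [e1]
    ring
  rw [e9, e3, e2]
  generalize Complex.exp (Complex.I * Real.pi * (β1 + β2 : ℝ)) = A
  generalize Complex.exp (Complex.I * Real.pi * (γ1 + γ2 : ℝ) / N) = B
  generalize Complex.exp (-(N * (Complex.I * Real.pi * tot f / 4))) = F at *
  generalize Complex.exp (N * P) = E at *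
  generalize sgX cc N = s at *
  have e11 : s = 1 / s := by
    rw [eq_div_iff e5]
    exact e6
  have e12 : A * B * F * (s * (N : ℂ) ^ D.length * (∏ k, kp (cc k)) * ZX N D cc (wf f)) /
      (N * (√(N : ℝ) : ℝ) * (E * F)) =
      A * B * F * (1 / s * (N : ℂ) ^ D.length * (∏ k, kp (cc k)) * ZX N D cc (wf f)) /
      (N * (√(N : ℝ) : ℝ) * (E * F)) := by
    rw [← e11]
  rw [e12]
  field_simp

theorem kasX_lim (D : List Pc) (h1 : Val D 1) (cc : Fin D.length → Bool)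
    (f : Fin D.length → Bool × ℕ) (P z : ℂ)
    (hz : z ≠ 0) (hlim : Tendsto (fun N : ℕ => (N : ℂ) ^ D.length * ZX N D cc (wf f) /
      (N * (√N : ℝ) * (sgX cc N * Complex.exp (N * P)))) atTop (𝓝 z)) :
    ∃ c : ℂ, c ≠ 0 ∧ Tendsto (fun N : ℕ => kasX N D cc f /
      (N * √N * Complex.exp (N * (P - Complex.I * Real.pi * tot f / 4)))) atTop (𝓝 c) := by
  obtain ⟨β, γ, h⟩ := kasX_ph D h1 cc f P
  have hk0 : (∏ k, kp (cc k)) ≠ 0 := Finset.prod_ne_zero_iff.2 fun k _ => kp_ne _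
  refine ⟨Complex.exp (Complex.I * Real.pi * β) * 1 * (∏ k, kp (cc k)) * z,
    mul_ne_zero (mul_ne_zero (mul_ne_zero (Complex.exp_ne_zero _) one_ne_zero) hk0) hz, ?_⟩
  refine (((div_tendsto (Complex.I * Real.pi * γ)).const_mul
    (Complex.exp (Complex.I * Real.pi * β))).mul_const (∏ k, kp (cc k))).mul hlim
    |>.congr' ?_
  filter_upwards [eventually_ge_atTop 1] with N hN
  exact (h N hN).symm

/-- **the phase for partially augmented planar shadows** -/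
theorem phX (D : List Pc) (h1 : Val D 1) (h2 : Pri D 1) (h3 : D ≠ [])
    (cc : Fin D.length → Bool) (a : Fin D.length → Fin 6 → ℝ) (ha : Mx D a) (hq : Dmx D cc a) :
    ∃ ρ0 : ℝ, 0 < ρ0 ∧ ∀ ρ : ℝ, 0 < ρ → ρ ≤ ρ0 → ∃ W0 C : ℝ, 1 ≤ W0 ∧
    ∀ (f : Fin D.length → Bool × ℕ) (Wm : ℝ), W0 ≤ Wm → (∀ k, cc k = false → Wm ≤ (f k).2) →
    ∃ x : Fin D.length → Fin 6 → ℂ, CrIX D cc (wf f) x ∧ (∀ s i, ‖x s i - a s i‖ < ρ) ∧
      (∀ x', CrIX D cc (wf f) x' → (∀ s i, ‖x' s i - a s i‖ < ρ) → x' = x) ∧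
      (∀ s, cc s = true → n1 (x s) = n2 (x s)) ∧
      VI x = 2 * Real.pi * (PIX cc (wf f) x).re ∧
      |VI x - 2 * Real.pi * fV a| ≤ C / Wm ^ 2 ∧
      ∃ z : ℂ, z ≠ 0 ∧ Tendsto (fun N : ℕ => kasX N D cc f /
        (N * √N * Complex.exp (N * (PIX cc (wf f) x - Complex.I * Real.pi * tot f / 4)))) atTop
        (𝓝 z) := by
  obtain ⟨ρ0, hρ0, H⟩ := finX D h1 h2 h3 cc a ha hq
  refine ⟨ρ0, hρ0, fun ρ hρ hρ' => ?_⟩
  obtain ⟨W0, C, hW0, G⟩ := H ρ hρ hρ'
  refine ⟨W0, C, hW0, fun f Wm hWm hf => ?_⟩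
  obtain ⟨x, g1, g2, g3, g4, -, g5, g6, z, hz, g7⟩ := G (wf f) Wm hWm fun k hk => by
    rw [Pool.Agent.Q99.HU.wf_abs]
    exact hf k hk
  exact ⟨x, g1, g2, g3, g4, g5, g6, kasX_lim D h1 cc f _ z hz g7⟩

end Pool.Agent.H760.MX
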