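import Pool.Agent.H760.MX.NW

/-!
# Partially augmented planar shadows: the saddle point

Adapted from `Q99/HU/Q299/SDND.lean` and `SDN.lean`: at a circled region the linear term of the
potential is missing, and the critical value of `ζ` is `0`.
-/

set_option autoImplicit false

namespace Pool.Agent.H760.MX

open Finset Filter Topology ComplexConjugate
open Pool.Agent.Q99.HT
open Pool.Agent.Q99.KN (S_LC)
open Pool.Agent.Q99.HU.Q299

/-- the coefficient of the linear term -/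
noncomputable def kc (c : Bool) : ℂ := if c then 0 else 1

section
variable {c d : ℕ}

/-- the potential -/
noncomputable def PhX (X : Nw c d) (cc : Fin c → Bool) (w : Fin c → ℤ) (T : Fin d → ℂ)
    (J ζ : Fin c → ℂ) : ℂ :=
  ∑ s, (PE (X.α s) (X.v T J s) (ζ s) + Complex.I * Real.pi * w s * ζ s ^ 2 / 4 +
    kc (cc s) * (Complex.I * Real.pi) * ζ s)

/-- its derivative in the direction `(T', J', ζ')` -/
noncomputable def GPX (X : Nw c d) (cc : Fin c → Bool) (w : Fin c → ℤ) (T : Fin d → ℂ)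
    (J ζ : Fin c → ℂ) (T' : Fin d → ℂ) (J' ζ' : Fin c → ℂ) : ℂ :=
  ∑ s, (PG (X.α s) (X.v T J s) (ζ s) (X.dv T' J' s) (ζ' s) +
    (Complex.I * Real.pi * w s * ζ s / 2 + kc (cc s) * (Complex.I * Real.pi)) * ζ' s)

/-- a critical point -/
structure CrX (X : Nw c d) (cc : Fin c → Bool) (w : Fin c → ℤ) (T : Fin d → ℂ)
    (J ζ : Fin c → ℂ) : Prop where
  aj : X.AJ J
  eq : ∀ (T' : Fin d → ℂ) (J' ζ' : Fin c → ℂ), X.AJ J' → GPX X cc w T J ζ T' J' ζ' = 0

end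

/-- the equation of `ζ` at a circled region -/
theorem zeta0_lem {Kz w : ℝ} {ζ g : ℂ} (hK : 0 < Kz) (hg : ‖g + Kz * ζ‖ ≤ Kz / 2 * ‖ζ‖)
    (he : g + Complex.I * Real.pi * w * ζ / 2 = 0) : ζ = 0 := by
  have h1 : g + Kz * ζ = ((Kz : ℂ) - Complex.I * ((Real.pi * w / 2 : ℝ) : ℂ)) * ζ := by
    push_cast
    linear_combination he
  rw [h1, norm_mul] at hg
  have h2 : Kz ≤ ‖(Kz : ℂ) - Complex.I * ((Real.pi * w / 2 : ℝ) : ℂ)‖ := by
    refine le_trans (le_of_eq ?_) (Complex.abs_re_le_norm _)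
    rw [Complex.sub_re, Complex.ofReal_re, Complex.mul_re, Complex.I_re, Complex.ofReal_im,
      zero_mul, mul_zero, sub_zero, sub_zero, abs_of_pos hK]
  have h3 := mul_le_mul_of_nonneg_right h2 (norm_nonneg ζ)
  have h4 : ‖ζ‖ ≤ 0 := by
    by_contra hc
    have := mul_pos hK (not_le.1 hc)
    linarith
  exact norm_le_zero_iff.1 h4

section
variable {c d : ℕ} (X : Nw c d) (cc : Fin c → Bool)

/-! ### the derivative of the potential with the twists -/

/-- the derivative of the potential -/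
noncomputable def gX (w : Fin c → ℤ) (u h : X.Ix → ℂ) : ℂ :=
  gP X u h + ∑ s, (Complex.I * Real.pi * w s * tZ X u s / 2 + kc (cc s) * (Complex.I * Real.pi)) * tZ X h s

theorem GP_eq (w : Fin c → ℤ) (u h : X.Ix → ℂ) :
    GPX X cc w (tT X u) (tJ X u) (tZ X u) (tT X h) (tJ X h) (tZ X h) = gX X cc w u h := by
  unfold GPX gX gP
  rw [← Finset.sum_add_distrib]
  rfl

theorem gX_add (w : Fin c → ℤ) (u h k : X.Ix → ℂ) : gX X cc w u (h + k) = gX X cc w u h + gX X cc w u k := by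
  unfold gX
  rw [gP_add, tZ_add]
  simp only [Pi.add_apply, mul_add, Finset.sum_add_distrib]
  ring

theorem gX_smul (w : Fin c → ℤ) (u : X.Ix → ℂ) (a : ℂ) (h : X.Ix → ℂ) :
    gX X cc w u (a • h) = a * gX X cc w u h := by
  unfold gX
  rw [gP_smul, tZ_smul, mul_add, Finset.mul_sum]
  congr 1
  refine Finset.sum_congr rfl fun s _ => ?_
  simp only [Pi.smul_apply, smul_eq_mul]
  ring

theorem gX_sum (w : Fin c → ℤ) (u h : X.Ix → ℂ) : gX X cc w u h = ∑ i, h i * gX X cc w u (bs X i) := by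
  classical
  let L : (X.Ix → ℂ) →ₗ[ℂ] ℂ :=
    { toFun := gX X cc w u
      map_add' := gX_add X cc w u
      map_smul' := fun a h => gX_smul X cc w u a h }
  have h1 := LinearMap.pi_apply_eq_sum_univ L h
  have h2 : ∀ i, (fun j => if i = j then (1 : ℂ) else 0) = bs X i := by
    intro i
    funext j
    unfold bs
    congr
  simp only [h2] at h1
  exact h1

theorem Cr_of {w : Fin c → ℤ} {u : X.Ix → ℂ} (h : ∀ k, gX X cc w u k = 0) :
    CrX X cc w (tT X u) (tJ X u) (tZ X u) := by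
  refine ⟨tJ_AJ X u, fun T' J' ζ' hJ' => ?_⟩
  have h1 := h (pk X T' J' ζ')
  rw [← GP_eq, tT_pk, tJ_pk X T' ζ' hJ', tZ_pk] at h1
  exact h1

theorem of_Cr {w : Fin c → ℤ} {T : Fin d → ℂ} {J ζ : Fin c → ℂ} (hc : CrX X cc w T J ζ) (k : X.Ix → ℂ) :
    gX X cc w (pk X T J ζ) k = 0 := by
  rw [← GP_eq, tT_pk, tJ_pk X T ζ hc.aj, tZ_pk]
  exact hc.eq _ _ _ (tJ_AJ X k)

theorem gX_mono (hX : X.Okb) {r κ K C0 κ1 ρ : ℝ} (hκ : 0 < κ) (hB : ∀ s, Blk (X.α s) r κ K C0)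
    (hκ1 : κ1 ≤ 1) (hlat : ∀ t : Fin d → ℝ, κ1 * ∑ j, t j ^ 2 ≤ ∑ s, ∑ i, latR X t s i ^ 2)
    (hρ : 0 < ρ) (hρr : ME X * ρ ≤ r) (w : Fin c → ℤ) {u v : X.Ix → ℂ} (hu : NR X ρ u)
    (hv : NR X ρ v) :
    (gX X cc w u (cj X (u - v)) - gX X cc w v (cj X (u - v))).re ≤
      -(2 * κ * κ1) * ∑ i, ‖(u - v) i‖ ^ 2 := by
  have h1 := gP_mono X hX hκ hB hκ1 hlat hρ hρr hu hv
  have h2 : gX X cc w u (cj X (u - v)) - gX X cc w v (cj X (u - v)) =
      (gP X u (cj X (u - v)) - gP X v (cj X (u - v))) +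
      ∑ s, Complex.I * ((Real.pi * w s / 2 * Complex.normSq (tZ X (u - v) s) : ℝ) : ℂ) := by
    unfold gX
    have h3 : ∀ s, Complex.I * ((Real.pi * w s / 2 * Complex.normSq (tZ X (u - v) s) : ℝ) : ℂ) =
        (Complex.I * Real.pi * w s * tZ X u s / 2 + kc (cc s) * (Complex.I * Real.pi)) * tZ X (cj X (u - v)) s -
        (Complex.I * Real.pi * w s * tZ X v s / 2 + kc (cc s) * (Complex.I * Real.pi)) * tZ X (cj X (u - v)) s := by
      intro s
      rw [cj_tZ]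
      have h4 := Complex.mul_conj (tZ X (u - v) s)
      have h5 : tZ X (u - v) s = tZ X u s - tZ X v s := rfl
      push_cast
      rw [← h4]
      nth_rewrite 1 [h5]
      ring
    simp only [h3]
    rw [Finset.sum_sub_distrib]
    ring
  rw [h2, Complex.add_re, Complex.re_sum]
  have h6 : ∑ s, (Complex.I * ((Real.pi * w s / 2 * Complex.normSq (tZ X (u - v) s) : ℝ) : ℂ)).re =
      0 := by
    refine Finset.sum_eq_zero fun s _ => ?_
    rw [Complex.mul_re, Complex.I_re, Complex.ofReal_im]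
    ring
  rw [h6, add_zero]
  exact h1

theorem gX_lip (hX : X.Okb) {r κ K C0 ρ : ℝ} (hB : ∀ s, Blk (X.α s) r κ K C0) (hρ : 0 < ρ)
    (hρr : ME X * ρ ≤ r) (w : Fin c → ℤ) {u v : X.Ix → ℂ} (hu : NR X ρ u) (hv : NR X ρ v)
    (k : X.Ix → ℂ) (hk : ‖k‖ ≤ 1) :
    ‖gX X cc w u k - gX X cc w v k‖ ≤
      ((c * (|C0| * (ME X + 1) ^ 2)) + ∑ s, Real.pi * |(w s : ℝ)| / 2) * ‖u - v‖ := by
  have h1 := gP_lip X hX hB hρ hρr hu hv k
  have h2 : gX X cc w u k - gX X cc w v k = (gP X u k - gP X v k) +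
      ∑ s, Complex.I * ((Real.pi * w s / 2 : ℝ) : ℂ) * tZ X (u - v) s * tZ X k s := by
    unfold gX
    have h3 : ∀ s, Complex.I * ((Real.pi * w s / 2 : ℝ) : ℂ) * tZ X (u - v) s * tZ X k s =
        (Complex.I * Real.pi * w s * tZ X u s / 2 + kc (cc s) * (Complex.I * Real.pi)) * tZ X k s -
        (Complex.I * Real.pi * w s * tZ X v s / 2 + kc (cc s) * (Complex.I * Real.pi)) * tZ X k s := by
      intro s
      have h5 : tZ X (u - v) s = tZ X u s - tZ X v s := rfl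
      rw [h5]
      push_cast
      ring
    simp only [h3]
    rw [Finset.sum_sub_distrib]
    ring
  rw [h2]
  refine (norm_add_le _ _).trans ?_
  rw [add_mul]
  refine add_le_add ?_ ?_
  · refine h1.trans ?_
    exact mul_le_of_le_one_right (by positivity) hk
  · refine (norm_sum_le _ _).trans ?_
    rw [Finset.sum_mul]
    refine Finset.sum_le_sum fun s _ => ?_
    rw [norm_mul, norm_mul, norm_mul, Complex.norm_I, one_mul, Complex.norm_real, Real.norm_eq_abs,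
      abs_div, abs_mul, abs_of_pos Real.pi_pos, abs_of_pos (by norm_num : (0 : ℝ) < 2)]
    have a1 := norm_tZ X (u - v) s
    have a2 := (norm_tZ X k s).trans hk
    have a3 : 0 ≤ Real.pi * |(w s : ℝ)| / 2 := by have := Real.pi_pos; positivity
    calc Real.pi * |(w s : ℝ)| / 2 * ‖tZ X (u - v) s‖ * ‖tZ X k s‖
        ≤ Real.pi * |(w s : ℝ)| / 2 * ‖u - v‖ * 1 :=
          mul_le_mul (mul_le_mul_of_nonneg_left a1 a3) a2 (norm_nonneg _) (by positivity)
      _ = Real.pi * |(w s : ℝ)| / 2 * ‖u - v‖ := mul_one _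

/-- the starting point -/
noncomputable def uX (w : Fin c → ℤ) : X.Ix → ℂ := Sum.elim (fun j => (X.τ j : ℂ))
  (Sum.elim (fun s => (X.α s.1 1 : ℂ)) (fun s => if cc s then 0 else -2 / (w s : ℂ)))

theorem uX_near {w : Fin c → ℤ} {Wm : ℝ} (hW : 1 ≤ Wm)
    (hw : ∀ s, cc s = false → Wm ≤ |(w s : ℝ)|) :
    ‖uX X cc w - uC X‖ ≤ 2 / Wm := by
  have h0 : 0 ≤ 2 / Wm := by positivity
  rw [pi_norm_le_iff_of_nonneg h0]
  intro i
  rcases i with i | i | i
  · show ‖(X.τ i : ℂ) - (X.τ i : ℂ)‖ ≤ _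
    rw [sub_self, norm_zero]
    exact h0
  · show ‖(X.α i.1 1 : ℂ) - (X.α i.1 1 : ℂ)‖ ≤ _
    rw [sub_self, norm_zero]
    exact h0
  · show ‖(if cc i then 0 else -2 / (w i : ℂ)) - 0‖ ≤ _
    rw [sub_zero]
    rcases hci : cc i with _ | _
    swap
    · simpa using h0
    rw [if_neg (by simp), norm_div, norm_neg]
    have e1 : ‖(w i : ℂ)‖ = |(w i : ℝ)| := by
      rw [← Complex.ofReal_intCast, Complex.norm_real, Real.norm_eq_abs]
    have e2 : ‖(2 : ℂ)‖ = 2 := by norm_num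
    rw [e1, e2]
    exact div_le_div_of_nonneg_left (by norm_num) (by linarith) (hw i hci)

theorem gX_u0 {w : Fin c → ℤ} (hw : ∀ s, cc s = false → w s ≠ 0) (k : X.Ix → ℂ) :
    gX X cc w (uX X cc w) k = gP X (uX X cc w) k := by
  unfold gX
  have h1 : ∑ s, (Complex.I * Real.pi * w s * tZ X (uX X cc w) s / 2 +
      kc (cc s) * (Complex.I * Real.pi)) * tZ X k s = 0 := by
    refine Finset.sum_eq_zero fun s _ => ?_
    have h2' : tZ X (uX X cc w) s = if cc s then 0 else -2 / (w s : ℂ) := rfl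
    rcases hcs : cc s with _ | _
    swap
    · rw [h2', hcs]
      simp [kc]
    have h2 : tZ X (uX X cc w) s = -2 / (w s : ℂ) := by
      rw [h2', hcs]
      simp
    have h3 : (w s : ℂ) ≠ 0 := by exact_mod_cast hw s hcs
    have hk : kc false = 1 := rfl
    rw [h2, hk, one_mul]
    have h4 : Complex.I * Real.pi * (w s : ℂ) * (-2 / (w s : ℂ)) / 2 + Complex.I * Real.pi = 0 := by
      field_simp
      ring
    rw [h4, zero_mul]
  rw [h1, add_zero]

theorem gX_Z (w : Fin c → ℤ) (u : X.Ix → ℂ) (s : Fin c) :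
    gX X cc w u (bs X (.inr (.inr s))) = PG (X.α s) (vW X u s) (tZ X u s) 0 1 +
      (Complex.I * Real.pi * w s * tZ X u s / 2 + kc (cc s) * (Complex.I * Real.pi)) := by
  classical
  unfold gX
  rw [gP_Z, Finset.sum_eq_single s]
  · congr 1
    unfold tZ bs
    simp
  · intro s' _ hne
    have : tZ X (bs X (.inr (.inr s))) s' = 0 := by
      unfold tZ bs
      rw [if_neg]
      intro h
      exact hne (Sum.inr_injective (Sum.inr_injective h)).symm
    rw [this, mul_zero]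
  · intro h
    exact absurd (Finset.mem_univ s) h

theorem gX_J (w : Fin c → ℤ) (u : X.Ix → ℂ) (s : Fin c) (hs : X.α s 1 ≠ 0) :
    gX X cc w u (bs X (.inr (.inl ⟨s, hs⟩))) = PG (X.α s) (vW X u s) (tZ X u s) e3 0 := by
  classical
  unfold gX
  rw [gP_J]
  have : ∑ s', (Complex.I * Real.pi * w s' * tZ X u s' / 2 + kc (cc s') * (Complex.I * Real.pi)) *
      tZ X (bs X (.inr (.inl ⟨s, hs⟩))) s' = 0 := by
    refine Finset.sum_eq_zero fun s' _ => ?_
    have h1 : tZ X (bs X (.inr (.inl ⟨s, hs⟩))) s' = 0 := by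
      unfold tZ bs
      simp
    rw [h1, mul_zero]
  rw [this, add_zero]

end

section
variable {c d : ℕ} (X : Nw c d) (cc : Fin c → Bool)

theorem exists_critX (hX : X.Okb) {r κ K C0 κ1 ρ Wm : ℝ} (hκ : 0 < κ)
    (hB : ∀ s, Blk (X.α s) r κ K C0) (hκ0 : 0 < κ1)
    (hκ1 : κ1 ≤ 1) (hlat : ∀ t : Fin d → ℝ, κ1 * ∑ j, t j ^ 2 ≤ ∑ s, ∑ i, latR X t s i ^ 2)
    (hρ : 0 < ρ) (hρr : ME X * ρ ≤ r) (w : Fin c → ℤ) (hW1 : 1 ≤ Wm) (hWρ : 8 / ρ ≤ Wm)
    (hW2 : 8 * Fintype.card X.Ix * (c * (|C0| * (ME X + 1) ^ 2)) / (2 * κ * κ1 * ρ) ≤ Wm)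
    (hw : ∀ s, cc s = false → Wm ≤ |(w s : ℝ)|) :
    ∃ u : X.Ix → ℂ, NR X ρ u ∧ (∀ k, gX X cc w u k = 0) ∧ ‖u - uC X‖ ≤
      (2 * Fintype.card X.Ix * (c * (|C0| * (ME X + 1) ^ 2)) / (2 * κ * κ1) + 2) / Wm := by
  classical
  set MB : ℝ := c * (|C0| * (ME X + 1) ^ 2) with hMB
  have hMB0 : 0 ≤ MB := by positivity
  set m : ℝ := 2 * κ * κ1 with hm
  have hm0 : 0 < m := by positivity
  set n : ℝ := (Fintype.card X.Ix : ℝ) with hn
  have hn0 : 0 ≤ n := Nat.cast_nonneg _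
  have hWm : 0 < Wm := by linarith
  have hws : ∀ s, cc s = false → w s ≠ 0 := by
    intro s hs h0
    have := hw s hs
    rw [h0] at this
    simp at this
    linarith
  have hu0 : ‖uX X cc w - uC X‖ ≤ 2 / Wm := uX_near X cc hW1 hw
  have h2W : 2 / Wm ≤ ρ / 4 := by
    rw [div_le_iff₀ hρ] at hWρ
    rw [div_le_div_iff₀ hWm (by norm_num)]
    linarith
  have hreg : ∀ u : X.Ix → ℂ, ∑ i, ‖u i - uX X cc w i‖ ^ 2 ≤ (ρ / 2) ^ 2 → NR X ρ u := by
    intro u hu i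
    have h1 : ‖u i - uX X cc w i‖ ≤ ρ / 2 := by
      refine (sq_le_sq₀ (norm_nonneg _) (by positivity)).1 (le_trans ?_ hu)
      exact Finset.single_le_sum (f := fun i => ‖u i - uX X cc w i‖ ^ 2) (fun _ _ => sq_nonneg _)
        (Finset.mem_univ i)
    have h2 : ‖uX X cc w i - uC X i‖ ≤ ρ / 4 := (norm_le_pi_norm (uX X cc w - uC X) i).trans (hu0.trans h2W)
    have h3 : u i - uC X i = (u i - uX X cc w i) + (uX X cc w i - uC X i) := by ring
    rw [h3]
    refine (norm_add_le _ _).trans_lt ?_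
    linarith
  have hu0R : NR X ρ (uX X cc w) := by
    refine hreg _ ?_
    simp only [sub_self, norm_zero]
    have : (∑ _i : X.Ix, (0 : ℝ) ^ 2) = 0 := by simp
    rw [this]
    positivity
  have huCR := NR_uC X hρ
  set G : (X.Ix → ℂ) → X.Ix → ℂ := fun u i => gX X cc w u (bs X i) with hG
  set L1 : ℝ := MB + ∑ s, Real.pi * |(w s : ℝ)| / 2 with hL1
  have hL10 : 0 ≤ L1 := by
    have : 0 ≤ ∑ s, Real.pi * |(w s : ℝ)| / 2 :=
      Finset.sum_nonneg fun _ _ => by have := Real.pi_pos; positivity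
    linarith
  have hcj : ∀ u v : X.Ix → ℂ, ∑ i, conj (u i - v i) * (G u i - G v i) =
      gX X cc w u (cj X (u - v)) - gX X cc w v (cj X (u - v)) := by
    intro u v
    rw [gX_sum X cc w u, gX_sum X cc w v, ← Finset.sum_sub_distrib]
    refine Finset.sum_congr rfl fun i _ => ?_
    show conj (u i - v i) * (G u i - G v i) = conj ((u - v) i) * gX X cc w u (bs X i) -
      conj ((u - v) i) * gX X cc w v (bs X i)
    rw [hG]
    simp only [Pi.sub_apply]
    ring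
  have hG0 : ∀ i, ‖G (uX X cc w) i‖ ≤ 2 * MB / Wm := by
    intro i
    have h1 := gP_lip X hX hB hρ hρr hu0R huCR (bs X i)
    rw [gP_uC X hX hB, sub_zero] at h1
    rw [hG]
    simp only
    rw [gX_u0 X cc hws]
    refine h1.trans ?_
    calc MB * ‖uX X cc w - uC X‖ * ‖bs X i‖ ≤ MB * (2 / Wm) * 1 :=
          mul_le_mul (mul_le_mul_of_nonneg_left hu0 hMB0) (bs_norm X i) (norm_nonneg _) (by positivity)
      _ = 2 * MB / Wm := by ring
  have hlip : ∀ u v : X.Ix → ℂ, ∑ i, ‖u i - uX X cc w i‖ ^ 2 ≤ (ρ / 2) ^ 2 →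
      ∑ i, ‖v i - uX X cc w i‖ ^ 2 ≤ (ρ / 2) ^ 2 →
      ∑ i, ‖G u i - G v i‖ ^ 2 ≤ (n * L1 + 1) ^ 2 * ∑ i, ‖u i - v i‖ ^ 2 := by
    intro u v hu hv
    have h1 := hreg u hu
    have h2 := hreg v hv
    have h3 : ∀ i ∈ Finset.univ, ‖G u i - G v i‖ ^ 2 ≤ L1 ^ 2 * ‖u - v‖ ^ 2 := by
      intro i _
      rw [← mul_pow]
      exact pow_le_pow_left₀ (norm_nonneg _)
        (gX_lip X cc hX hB hρ hρr w h1 h2 (bs X i) (bs_norm X i)) 2
    refine (Finset.sum_le_sum h3).trans ?_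
    rw [Finset.sum_const, Finset.card_univ, nsmul_eq_mul]
    have h4 : ‖u - v‖ ^ 2 ≤ ∑ i, ‖u i - v i‖ ^ 2 := pi_sq_le X (u - v)
    have h5 : n * L1 ^ 2 ≤ (n * L1 + 1) ^ 2 := by
      have h6 : n ≤ n ^ 2 := by
        rw [hn]
        exact_mod_cast Nat.le_self_pow two_ne_zero _
      have h7 : n * L1 ^ 2 ≤ n ^ 2 * L1 ^ 2 := mul_le_mul_of_nonneg_right h6 (sq_nonneg _)
      have h8 : 0 ≤ n * L1 := by positivity
      linarith [sq_nonneg (n * L1), mul_pow n L1 2, add_sq (n * L1) 1]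
    calc n * (L1 ^ 2 * ‖u - v‖ ^ 2) = (n * L1 ^ 2) * ‖u - v‖ ^ 2 := by ring
      _ ≤ (n * L1 + 1) ^ 2 * ∑ i, ‖u i - v i‖ ^ 2 :=
          mul_le_mul h5 h4 (sq_nonneg _) (sq_nonneg _)
  have hmon : ∀ u v : X.Ix → ℂ, ∑ i, ‖u i - uX X cc w i‖ ^ 2 ≤ (ρ / 2) ^ 2 →
      ∑ i, ‖v i - uX X cc w i‖ ^ 2 ≤ (ρ / 2) ^ 2 →
      (∑ i, conj (u i - v i) * (G u i - G v i)).re ≤ -m * ∑ i, ‖u i - v i‖ ^ 2 := by
    intro u v hu hv
    rw [hcj]
    exact gX_mono X cc hX hκ hB hκ1 hlat hρ hρr w (hreg u hu) (hreg v hv)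
  have hst : ∑ i, ‖G (uX X cc w) i‖ ^ 2 ≤ (m * (ρ / 2) / 2) ^ 2 := by
    have h1 : ∑ i, ‖G (uX X cc w) i‖ ^ 2 ≤ n * (2 * MB / Wm) ^ 2 := by
      calc ∑ i, ‖G (uX X cc w) i‖ ^ 2 ≤ ∑ _i : X.Ix, (2 * MB / Wm) ^ 2 :=
            Finset.sum_le_sum fun i _ => pow_le_pow_left₀ (norm_nonneg _) (hG0 i) 2
        _ = n * (2 * MB / Wm) ^ 2 := by
            rw [Finset.sum_const, Finset.card_univ, nsmul_eq_mul]
    refine h1.trans ?_
    have h6 : n ≤ n ^ 2 := by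
      rw [hn]
      exact_mod_cast Nat.le_self_pow two_ne_zero _
    have h7 : n * (2 * MB / Wm) ^ 2 ≤ (n * (2 * MB / Wm)) ^ 2 := by
      rw [mul_pow]
      exact mul_le_mul_of_nonneg_right h6 (sq_nonneg _)
    refine h7.trans (pow_le_pow_left₀ (by positivity) ?_ 2)
    rw [div_le_iff₀ (by positivity)] at hW2
    rw [← mul_div_assoc, div_le_iff₀ hWm]
    linarith
  obtain ⟨u, hu1, hu2⟩ := mono_zero G (uX X cc w) (R := ρ / 2) (m := m) (L := n * L1 + 1)
    (by positivity) hm0 (by positivity) hlip hmon hst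
  have huR := hreg u hu1
  have hz : ∀ k, gX X cc w u k = 0 := by
    intro k
    rw [gX_sum]
    refine Finset.sum_eq_zero fun i _ => ?_
    have := hu2 i
    rw [hG] at this
    simp only at this
    rw [this, mul_zero]
  refine ⟨u, huR, hz, ?_⟩
  -- the distance
  have h1 := gX_mono X cc hX hκ hB hκ1 hlat hρ hρr w huR hu0R
  rw [← hcj] at h1
  have h2 := pi_sq_le X (u - uX X cc w)
  have h3 : -(∑ i, conj (u i - uX X cc w i) * (G u i - G (uX X cc w) i)).re ≤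
      n * (‖u - uX X cc w‖ * (2 * MB / Wm)) := by
    refine (neg_le_abs _).trans ((Complex.abs_re_le_norm _).trans ((norm_sum_le _ _).trans ?_))
    calc ∑ i, ‖conj (u i - uX X cc w i) * (G u i - G (uX X cc w) i)‖
        ≤ ∑ _i : X.Ix, ‖u - uX X cc w‖ * (2 * MB / Wm) := by
          refine Finset.sum_le_sum fun i _ => ?_
          rw [hu2 i, zero_sub, norm_mul, Complex.norm_conj, norm_neg]
          exact mul_le_mul (norm_le_pi_norm (u - uX X cc w) i) (hG0 i) (norm_nonneg _) (norm_nonneg _)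
      _ = n * (‖u - uX X cc w‖ * (2 * MB / Wm)) := by
          rw [Finset.sum_const, Finset.card_univ, nsmul_eq_mul]
  have h4 : m * ‖u - uX X cc w‖ ^ 2 ≤ n * (‖u - uX X cc w‖ * (2 * MB / Wm)) := by
    have h5 : m * ‖u - uX X cc w‖ ^ 2 ≤ m * ∑ i, ‖(u - uX X cc w) i‖ ^ 2 :=
      mul_le_mul_of_nonneg_left h2 hm0.le
    linarith
  have h6 : ‖u - uX X cc w‖ ≤ 2 * n * MB / m / Wm := by
    rcases (norm_nonneg (u - uX X cc w)).eq_or_lt with h7 | h7
    · rw [← h7]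
      positivity
    · have h8 : m * ‖u - uX X cc w‖ ≤ n * (2 * MB / Wm) := by
        have : ‖u - uX X cc w‖ * (m * ‖u - uX X cc w‖) ≤ ‖u - uX X cc w‖ * (n * (2 * MB / Wm)) := by
          linarith
        exact le_of_mul_le_mul_left this h7
      have h9 : ‖u - uX X cc w‖ ≤ n * (2 * MB / Wm) / m := by
        rw [le_div_iff₀ hm0, mul_comm]
        exact h8
      refine h9.trans (le_of_eq ?_)
      ring
  have h10 : u - uC X = (u - uX X cc w) + (uX X cc w - uC X) := by abel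
  rw [h10]
  refine (norm_add_le _ _).trans ?_
  rw [add_div]
  exact add_le_add h6 hu0

end

theorem SDNx {c d : ℕ} (X : Nw c d) (cc : Fin c → Bool) (hX : X.Okb) (r κ K C0 : ℝ)
    (hB : ∀ s, Blk (X.α s) r κ K C0) : ∃ ρ0 : ℝ, 0 < ρ0 ∧ ∀ ρ : ℝ, 0 < ρ → ρ ≤ ρ0 →
  ∃ W0 C : ℝ, 1 ≤ W0 ∧ ∀ (w : Fin c → ℤ) (Wm : ℝ), W0 ≤ Wm →
  (∀ s, cc s = false → Wm ≤ |(w s : ℝ)|) →
  ∃ (T : Fin d → ℂ) (J ζ : Fin c → ℂ), CrX X cc w T J ζ ∧ X.Nr ρ T J ζ ∧
    (∀ j, ‖T j - X.τ j‖ ≤ C / Wm) ∧ (∀ s, ‖J s - X.α s 1‖ ≤ C / Wm) ∧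
    (∀ s, cc s = true → ζ s = 0) ∧
    (∀ s, cc s = false → ‖ζ s‖ ≤ 3 / |(w s : ℝ)| ∧ 0 < (ζ s).im ∧
      (ζ s).im ≤ C / (w s : ℝ) ^ 2) ∧
    |(PhX X cc w T J ζ).re - ∑ s, v0 (X.α s)| ≤ C / Wm ^ 2 ∧
    ∀ (T' : Fin d → ℂ) (J' ζ' : Fin c → ℂ), CrX X cc w T' J' ζ' → X.Nr ρ T' J' ζ' →
      T' = T ∧ J' = J ∧ ζ' = ζ := by
  classical
  have hLC := Pool.Agent.Q99.HT.t_LC
  have hLTd := Pool.Agent.Q24.HT.task_LTd
  have hZZ := Pool.Agent.Q176.HT.task_ZZ
  rcases Nat.eq_zero_or_pos c with rfl | hc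
  · -- no region
    have hd : IsEmpty (Fin d) := by
      refine ⟨fun j => ?_⟩
      have h1 := hX.inj (Pi.single j 1) (fun s => s.elim0)
      have h2 := congrFun h1 j
      simp at h2
    refine ⟨1, one_pos, fun ρ hρ _ => ⟨1, 0, le_rfl, fun w Wm hW _ => ?_⟩⟩
    refine ⟨fun j => (hd.false j).elim, fun s => s.elim0, fun s => s.elim0,
      ⟨fun s => s.elim0, fun T' J' ζ' _ => ?_⟩, ⟨fun j => (hd.false j).elim, fun s => s.elim0,
        fun s => s.elim0⟩, fun j => (hd.false j).elim, fun s => s.elim0, fun s => s.elim0,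
        fun s => s.elim0, ?_, ?_⟩
    · unfold GPX
      simp
    · unfold PhX
      simp
    · intro T' J' ζ' _ _
      refine ⟨?_, ?_, ?_⟩
      · funext j
        exact (hd.false j).elim
      · funext s
        exact s.elim0
      · funext s
        exact s.elim0
  set s0 : Fin c := ⟨0, hc⟩ with hs0
  have hr := (hB s0).r0
  have hκ := (hB s0).κ0
  obtain ⟨κ1, hκ0, hκ1, hlat⟩ := lat_lower X hX
  -- the constants of the regions
  have hZ1 : ∀ s, ∃ Kz : ℝ, 0 < Kz ∧ ∃ ρ : ℝ, 0 < ρ ∧ ρ < r ∧ ∀ v ∈ Metric.ball (vC (X.α s)) ρ,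
      Adm (X.α s) v → ∀ ζ : ℂ, ‖ζ‖ < ρ → (X.α s 1 ≠ 0 → PG (X.α s) v ζ e3 0 = 0) →
      ‖PG (X.α s) v ζ 0 1 + Kz * ζ‖ ≤ Kz / 2 * ‖ζ‖ := by
    intro s
    obtain ⟨Kz, hK, h⟩ := hZZ hLC hLTd (X.α s) r κ K C0 (hX.fr s) (hB s)
    obtain ⟨ρ, h1, h2, h3⟩ := h (Kz / 2) (by positivity)
    exact ⟨Kz, hK, ρ, h1, h2, h3⟩
  choose Kz hKz ρs hρs0 hρsr hZ using hZ1
  obtain ⟨b, hb0, hbr, hbs⟩ := exists_min ρs hρs0 hr
  have hME := ME_one X
  have hMEp : 0 < ME X := by linarith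
  refine ⟨b / ME X, by positivity, fun ρ hρ hρb => ?_⟩
  have hρb' : ME X * ρ ≤ b := by
    rw [le_div_iff₀ hMEp] at hρb
    linarith
  have hρr : ME X * ρ ≤ r := hρb'.trans hbr
  set MB : ℝ := c * (|C0| * (ME X + 1) ^ 2) with hMB
  have hMB0 : 0 ≤ MB := by positivity
  set C1 : ℝ := 2 * Fintype.card X.Ix * MB / (2 * κ * κ1) + 2 with hC1
  have hC10 : 0 ≤ C1 := by positivity
  set KK : ℝ := ∑ s, Kz s with hKK
  have hKle : ∀ s, Kz s ≤ KK := fun s =>
    Finset.single_le_sum (f := Kz) (fun s _ => (hKz s).le) (Finset.mem_univ s)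
  have hKK0 : 0 ≤ KK := Finset.sum_nonneg fun s _ => (hKz s).le
  have hπ := Real.pi_pos
  set CC : ℝ := C1 + 27 * KK / (2 * Real.pi) + MB * C1 ^ 2 + c * (27 * KK / 2) with hCC
  set W0 : ℝ := max 1 (max (8 / ρ) (max (8 * Fintype.card X.Ix * MB / (2 * κ * κ1 * ρ))
    (3 * KK / Real.pi))) with hW0
  refine ⟨W0, CC, le_max_left _ _, fun w Wm hWm hw => ?_⟩
  have a1 : 1 ≤ Wm := (le_max_left _ _).trans hWm
  have a2 : 8 / ρ ≤ Wm := (le_max_left _ _).trans ((le_max_right _ _).trans hWm)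
  have a3 : 8 * Fintype.card X.Ix * MB / (2 * κ * κ1 * ρ) ≤ Wm :=
    (le_max_left _ _).trans ((le_max_right _ _).trans ((le_max_right _ _).trans hWm))
  have a4 : 3 * KK / Real.pi ≤ Wm :=
    (le_max_right _ _).trans ((le_max_right _ _).trans ((le_max_right _ _).trans hWm))
  have hWp : 0 < Wm := by linarith
  obtain ⟨u, huR, hz, hdist⟩ := exists_critX X cc hX hκ hB hκ0 hκ1 hlat hρ hρr w a1 a2 a3 hw
  have hCr := Cr_of X cc hz
  have hNr := Nr_of_NR X hρ huR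
  -- the variables zeta
  have hζ0 : ∀ s, cc s = true → tZ X u s = 0 := by
    intro s hs
    have hb1 := NR_ball X hX hρ (hρb'.trans (hbs s)) huR s
    have h1 := hZ s (vW X u s) hb1.1 (Adm_vW X hX u s) (tZ X u s) hb1.2 (fun hs => by
      rw [← gX_J X cc w u s hs]
      exact hz _)
    have h2 := hz (bs X (.inr (.inr s)))
    rw [gX_Z, hs] at h2
    have hk : kc true = 0 := rfl
    rw [hk, zero_mul, add_zero] at h2
    refine zeta0_lem (w := (w s : ℝ)) (hKz s) h1 ?_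
    push_cast
    exact h2
  have hζ : ∀ s, cc s = false → ‖tZ X u s‖ ≤ 3 / |(w s : ℝ)| ∧ 0 < (tZ X u s).im ∧
      (tZ X u s).im ≤ 27 * Kz s / (2 * Real.pi) / (w s : ℝ) ^ 2 ∧
      |(Complex.I * Real.pi * ((w s : ℝ) : ℂ) * tZ X u s ^ 2 / 4 +
        Complex.I * Real.pi * tZ X u s).re| ≤ 27 * Kz s / 2 / (w s : ℝ) ^ 2 := by
    intro s hcs
    have hb1 := NR_ball X hX hρ (hρb'.trans (hbs s)) huR s
    have h1 := hZ s (vW X u s) hb1.1 (Adm_vW X hX u s) (tZ X u s) hb1.2 (fun hs => by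
      rw [← gX_J X cc w u s hs]
      exact hz _)
    have h2 := hz (bs X (.inr (.inr s)))
    rw [gX_Z, hcs] at h2
    have hk : kc false = 1 := rfl
    rw [hk, one_mul] at h2
    refine zeta_lem (hKz s) h1 (by push_cast; exact h2) ?_ (a1.trans (hw s hcs))
    refine le_trans ?_ (a4.trans (hw s hcs))
    exact div_le_div_of_nonneg_right (by linarith [hKle s]) hπ.le
  have hws : ∀ s, cc s = false → 0 < (w s : ℝ) ^ 2 := by
    intro s hcs
    have : 0 < |(w s : ℝ)| := by linarith [hw s hcs]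
    rw [← sq_abs]
    positivity
  have hwsq : ∀ s, cc s = false → Wm ^ 2 ≤ (w s : ℝ) ^ 2 := by
    intro s hcs
    rw [← sq_abs (w s : ℝ)]
    exact pow_le_pow_left₀ hWp.le (hw s hcs) 2
  have hpos1 : 0 ≤ 27 * KK / (2 * Real.pi) := by positivity
  have hpos2 : 0 ≤ MB * C1 ^ 2 := by positivity
  have hpos3 : 0 ≤ c * (27 * KK / 2) := by positivity
  have hC1C : C1 ≤ CC := by linarith
  have hdC : ∀ i, ‖u i - uC X i‖ ≤ CC / Wm := by
    intro i
    refine (norm_le_pi_norm (u - uC X) i).trans (hdist.trans ?_)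
    exact div_le_div_of_nonneg_right hC1C hWp.le
  refine ⟨tT X u, tJ X u, tZ X u, hCr, hNr, fun j => hdC (.inl j), fun s => ?_, hζ0,
    fun s hcs => ?_, ?_, ?_⟩
  · by_cases hs : X.α s 1 ≠ 0
    · have := hdC (.inr (.inl ⟨s, hs⟩))
      unfold tJ
      rw [dif_pos hs]
      exact this
    · unfold tJ
      rw [dif_neg hs, not_not.1 hs]
      have : 0 ≤ CC / Wm := div_nonneg (hC10.trans hC1C) hWp.le
      simpa using this
  · obtain ⟨b1, b2, b3, -⟩ := hζ s hcs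
    refine ⟨b1, b2, b3.trans ?_⟩
    refine div_le_div_of_nonneg_right ?_ (hws s hcs).le
    have : 27 * Kz s / (2 * Real.pi) ≤ 27 * KK / (2 * Real.pi) :=
      div_le_div_of_nonneg_right (by linarith [hKle s]) (by positivity)
    linarith
  · -- the value
    have hPh : PhX X cc w (tT X u) (tJ X u) (tZ X u) = eP X u + ∑ s, (Complex.I * Real.pi *
        ((w s : ℝ) : ℂ) * tZ X u s ^ 2 / 4 + kc (cc s) * (Complex.I * Real.pi) * tZ X u s) := by
      unfold PhX eP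
      rw [← Finset.sum_add_distrib]
      refine Finset.sum_congr rfl fun s _ => ?_
      show PE (X.α s) (vW X u s) (tZ X u s) + _ + _ = _
      push_cast
      ring
    have h1 := eP_near X hX hB hρ hρr huR
    rw [eP_uC X hX hB] at h1
    have h2 : |(eP X u).re - ∑ s, v0 (X.α s)| ≤ MB * C1 ^ 2 / Wm ^ 2 := by
      have h3 : (eP X u).re - ∑ s, v0 (X.α s) =
          (eP X u - ((∑ s, v0 (X.α s) : ℝ) : ℂ)).re := by
        rw [Complex.sub_re, Complex.ofReal_re]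
      rw [h3]
      refine (Complex.abs_re_le_norm _).trans (h1.trans ?_)
      have h4 : ‖u - uC X‖ ^ 2 ≤ (C1 / Wm) ^ 2 := pow_le_pow_left₀ (norm_nonneg _) hdist 2
      calc MB * ‖u - uC X‖ ^ 2 ≤ MB * (C1 / Wm) ^ 2 := mul_le_mul_of_nonneg_left h4 hMB0
        _ = MB * C1 ^ 2 / Wm ^ 2 := by rw [div_pow]; ring
    have h5 : |(∑ s, (Complex.I * Real.pi * ((w s : ℝ) : ℂ) * tZ X u s ^ 2 / 4 +
        kc (cc s) * (Complex.I * Real.pi) * tZ X u s)).re| ≤ c * (27 * KK / 2) / Wm ^ 2 := by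
      rw [Complex.re_sum]
      refine (Finset.abs_sum_le_sum_abs _ _).trans ?_
      calc ∑ s, |(Complex.I * Real.pi * ((w s : ℝ) : ℂ) * tZ X u s ^ 2 / 4 +
            kc (cc s) * (Complex.I * Real.pi) * tZ X u s).re| ≤
            ∑ _s : Fin c, 27 * KK / 2 / Wm ^ 2 := by
            refine Finset.sum_le_sum fun s _ => ?_
            rcases hcs : cc s with _ | _
            · have hk : kc false = 1 := rfl
              rw [hk, one_mul]
              refine ((hζ s hcs).2.2.2).trans ?_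
              refine div_le_div₀ (by positivity) ?_ (by positivity) (hwsq s hcs)
              linarith [hKle s]
            · rw [hζ0 s hcs]
              simp only [ne_eq, OfNat.ofNat_ne_zero, not_false_eq_true, zero_pow, mul_zero,
                zero_div, add_zero, Complex.zero_re, abs_zero]
              positivity
        _ = c * (27 * KK / 2) / Wm ^ 2 := by
            rw [Finset.sum_const, Finset.card_univ, Fintype.card_fin, nsmul_eq_mul]
            ring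
    rw [hPh, Complex.add_re]
    have h6 : (eP X u).re + (∑ s, (Complex.I * Real.pi * ((w s : ℝ) : ℂ) * tZ X u s ^ 2 / 4 +
        kc (cc s) * (Complex.I * Real.pi) * tZ X u s)).re - ∑ s, v0 (X.α s) =
        ((eP X u).re - ∑ s, v0 (X.α s)) + (∑ s, (Complex.I * Real.pi * ((w s : ℝ) : ℂ) *
          tZ X u s ^ 2 / 4 + kc (cc s) * (Complex.I * Real.pi) * tZ X u s)).re := by ring
    rw [h6]
    refine (abs_add_le _ _).trans ((add_le_add h2 h5).trans ?_)
    rw [← add_div]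
    refine div_le_div_of_nonneg_right ?_ (by positivity)
    linarith
  · -- uniqueness
    intro T' J' ζ' hCr' hNr'
    have h1 := gX_mono X cc hX hκ hB hκ1 hlat hρ hρr w (NR_of_Nr X hNr') huR
    rw [of_Cr X cc hCr', hz, sub_zero, Complex.zero_re] at h1
    have h2 : 0 < 2 * κ * κ1 := by positivity
    have h3 : ∑ i, ‖(pk X T' J' ζ' - u) i‖ ^ 2 ≤ 0 := by
      by_contra hcon
      have := mul_pos h2 (not_le.1 hcon)
      linarith
    have h4 : pk X T' J' ζ' - u = 0 := by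
      have h5 := (pi_sq_le X (pk X T' J' ζ' - u)).trans h3
      have h6 : ‖pk X T' J' ζ' - u‖ = 0 := by
        have := sq_nonneg ‖pk X T' J' ζ' - u‖
        have h7 : ‖pk X T' J' ζ' - u‖ ^ 2 = 0 := le_antisymm h5 this
        exact pow_eq_zero_iff (two_ne_zero) |>.1 h7
      exact norm_eq_zero.1 h6
    have h5 : pk X T' J' ζ' = u := sub_eq_zero.1 h4
    rw [← h5, tT_pk, tJ_pk X T' ζ' hCr'.aj, tZ_pk]
    exact ⟨rfl, rfl, rfl⟩

end Pool.Agent.H760.MX
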