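import Pool.Agent.H760.MX.Key

/-!
# Partially augmented planar shadows: the state sum

`c : Fin D.length → Bool` tells which vertices of the diagram have a circle.
-/

set_option autoImplicit false

namespace Pool.Agent.H760.MX

open Matrix Finset
open Pool.Agent.W715.VC (rt)
open Pool.Agent.W709.QAT (Piece run)
open Pool.Agent.Q191.TW (cs)
open Pool.Agent.Q191.LB (sg)
open Pool.Agent.Q191.SH (aw)
open Pool.Agent.Q99.FW (Kg K2)
open Pool.Agent.Q99.FAL
open Pool.Agent.Q99.KN (sn bc Wk zl ez Fk Rgn Gp elg Vag SG tw TGall S_ZG S_GG S_JG F2 S_PF S_WR S_SY)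
open Pool.Agent.Q99.HT (Tm elh lnk wf Ps Fq cv bf So NetOf Nw Mx)

/-- the region of a circle around `m` crossings -/
noncomputable def cr (N : ℕ) (σ : Bool) (m : ℕ) : Rgn N where
  D := fun p => aw p σ m 1
  K := Kg N (sg σ) ^ m * K2 N
  wt := wt6 N (sg σ * m)

theorem cr_ok {N : ℕ} (hN : 0 < N) (σ : Bool) (m : ℕ) : (cr N σ m).Ok where
  norm := by
    show ‖Kg N (sg σ) ^ m * K2 N‖ = 1
    rw [norm_mul, norm_pow, Pool.Agent.Q224.FAL.Kg_norm, Pool.Agent.Q224.FAL.K2_norm, one_pow,
      one_mul]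
  gd := fun p n h => Pool.Agent.Q224.FAL.Gd_aw p n h σ m
  op := fun p L M i j hL l hl => Pool.Agent.Q246.FAL.task_REG t_F1 N hN σ m p L M i j hL l hl

/-- the region of `m` crossings, with a circle if `c` is true -/
noncomputable def rg (N : ℕ) (c : Bool) (σ : Bool) (m : ℕ) : Rgn N :=
  if c then cr N σ m else tw N σ m

theorem rg_ok {N : ℕ} (hN : 0 < N) (c σ : Bool) (m : ℕ) : (rg N c σ m).Ok := by
  cases c
  · exact Pool.Agent.Q239.KN.task_TO Pool.Agent.Q99.HT.t_F2 N hN σ m
  · exact cr_ok hN σ m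

/-- the elementary parts of a piece, with a circle if `c` is true -/
def elx (c : Bool) (T : Ty) (p : ℕ) (σ : Bool) (m : ℕ) : List Piece :=
  if c then els ⟨T, p, σ, m⟩ else elh T p σ m

/-- the link of `D` with the circles `c` and the crossings `f` -/
def lnx : (D : List Pc) → (Fin D.length → Bool) → (Fin D.length → Bool × ℕ) → List Piece
  | [], _, _ => []
  | P :: D, c, f => elx (c 0) P.ty P.p (f 0).1 (f 0).2 ++
      lnx D (fun k => c k.succ) (fun k => f k.succ)

/-- the pieces with their regions -/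
noncomputable def toM (N : ℕ) : (D : List Pc) → (Fin D.length → Bool) →
    (Fin D.length → Bool × ℕ) → List (Gp N)
  | [], _, _ => []
  | P :: D, c, f => ⟨P.ty, P.p, rg N (c 0) (f 0).1 (f 0).2⟩ ::
      toM N D (fun k => c k.succ) (fun k => f k.succ)

lemma len_toM (N : ℕ) : ∀ (D : List Pc) (c : Fin D.length → Bool) (f : Fin D.length → Bool × ℕ),
    (toM N D c f).length = D.length
  | [], _, _ => rfl
  | P :: D, c, f => by
    rw [toM, List.length_cons, len_toM N D, List.length_cons]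

lemma vag_toM (N : ℕ) : ∀ (D : List Pc) (c : Fin D.length → Bool) (f : Fin D.length → Bool × ℕ)
    (n : ℕ), Val D n → Vag (toM N D c f) n
  | [], _, _, _, h => h
  | _ :: D, _, _, _, h => ⟨h.1, vag_toM N D _ _ _ h.2⟩

lemma ok_toM {N : ℕ} (hN : 0 < N) :
    ∀ (D : List Pc) (c : Fin D.length → Bool) (f : Fin D.length → Bool × ℕ),
      ∀ P ∈ toM N D c f, P.R.Ok
  | [], _, _, P, hP => by
    rw [toM] at hP
    exact absurd hP List.not_mem_nil
  | Q :: D, c, f, P, hP => by
    rw [toM, List.mem_cons] at hP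
    rcases hP with rfl | hP
    · exact rg_ok hN _ _ _
    · exact ok_toM hN D _ _ P hP

lemma flat_toM (N : ℕ) : ∀ (D : List Pc) (c : Fin D.length → Bool) (f : Fin D.length → Bool × ℕ),
    (toM N D c f).flatMap elg = lnx D c f
  | [], _, _ => rfl
  | P :: D, c, f => by
    rw [toM, List.flatMap_cons, flat_toM N D, lnx]
    congr 1
    obtain ⟨T, p, σ, m⟩ := P
    show elg ⟨T, p, rg N (c 0) (f 0).1 (f 0).2⟩ = elx (c 0) T p (f 0).1 (f 0).2
    cases c 0 <;> cases T <;> rfl

/-- the weight of a region, with a circle if `c` is true (times `π` otherwise) -/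
noncomputable def Fx (N : ℕ) (c : Bool) (w : ℤ) : ℕ → ℕ → ℕ → ℂ := if c then Fc N w else Fk N w

/-- the constant of a vertex -/
noncomputable def kp (c : Bool) : ℂ := if c then 1 else 1 / (Real.pi : ℂ)

/-- the sum of the weights of a region -/
theorem sum_rg {N : ℕ} (hN : 0 < N) (c σ : Bool) (m : ℕ) (Φ : (Fin 4 → ℤ) → ℂ) :
    (∑ x : Fin 6 → Fin N, if n1 (zz x) + n2 (zz x) = (N : ℤ) - 1 then
      (rg N c σ m).wt (zz x) * Φ (cor (zz x)) else 0) =
    kp c * ∑ x : Fin 6 → Fin N, if n1 (zz x) + n2 (zz x) = (N : ℤ) - 1 then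
      t3 (Fx N c (sg σ * (m : ℤ))) (zz x) * Φ (cor (zz x)) else 0 := by
  cases c
  · rw [Finset.mul_sum]
    refine Finset.sum_congr rfl fun x _ => ?_
    by_cases h : n1 (zz x) + n2 (zz x) = (N : ℤ) - 1
    · rw [if_pos h, if_pos h]
      have e : (rg N false σ m).wt (zz x) = 1 / (Real.pi : ℂ) *
          t3 (Fx N false (sg σ * (m : ℤ))) (zz x) := by
        show (tw N σ m).wt (zz x) = 1 / (Real.pi : ℂ) * t3 (Fk N (sg σ * (m : ℤ))) (zz x)
        simp only [tw, t3]
        split_ifs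
        · ring
        · rw [mul_zero]
      rw [e]
      show _ = 1 / (Real.pi : ℂ) * _
      ring
    · rw [if_neg h, if_neg h, mul_zero]
  · show (∑ x : Fin 6 → Fin N, if n1 (zz x) + n2 (zz x) = (N : ℤ) - 1 then
      wt6 N ((sg σ : ℤ) * m) (zz x) * Φ (cor (zz x)) else 0) =
        1 * ∑ x : Fin 6 → Fin N, if n1 (zz x) + n2 (zz x) = (N : ℤ) - 1 then
          t3 (Fc N (sg σ * (m : ℤ))) (zz x) * Φ (cor (zz x)) else 0
    rw [one_mul, sum_t3 hN, ← sum_wt6 hN]
    push_cast
    rfl

open Classical in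
/-- the state sum over all solutions -/
noncomputable def ZX (N : ℕ) (D : List Pc) (c : Fin D.length → Bool) (w : Fin D.length → ℤ) : ℂ :=
  ∑ a : Fin D.length → Fin 6 → Fin N,
    if Sol D (fun k => zz (a k)) [0, 0] ((N : ℤ) - 1) then
      ∏ k, t3 (Fx N (c k) (w k)) (zz (a k)) else 0

open Classical in
theorem unrM {N : ℕ} (hN : 0 < N) (D : List Pc) : ∀ (c : Fin D.length → Bool)
    (f : Fin D.length → Bool × ℕ) (G : List ℤ),
    SG (toM N D c f) G = (∏ k, kp (c k)) * ∑ a : Fin D.length → Fin 6 → Fin N,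
      if Sol D (fun k => zz (a k)) G ((N : ℤ) - 1) then
        ∏ k, t3 (Fx N (c k) (wf f k)) (zz (a k)) else 0 := by
  induction D with
  | nil =>
    intro c f G
    have : (Finset.univ : Finset (Fin ([] : List Pc).length → Fin 6 → Fin N)) =
        {fun k => k.elim0} := by
      ext a
      simp only [Finset.mem_univ, Finset.mem_singleton, true_iff]
      funext k
      exact k.elim0
    rw [this, Finset.sum_singleton]
    simp [toM, SG, Sol]
  | cons P D ih =>
    intro c f G
    let Φ : (Fin 4 → ℤ) → ℂ := fun q => if (∀ g ∈ cls P.ty P.p q G, g = (N : ℤ) - 1) then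
      SG (toM N D (fun k => c k.succ) (fun k => f k.succ)) (stp P.ty P.p q G) else 0
    have h0 : SG (toM N (P :: D) c f) G = ∑ x : Fin 6 → Fin N,
        if n1 (zz x) + n2 (zz x) = (N : ℤ) - 1 then
          (rg N (c 0) (f 0).1 (f 0).2).wt (zz x) * Φ (cor (zz x)) else 0 := by
      rw [toM, SG]
      refine Finset.sum_congr rfl fun x _ => ?_
      by_cases h1 : n1 (zz x) + n2 (zz x) = (N : ℤ) - 1
      · rw [if_pos h1]
        by_cases h2 : ∀ g ∈ cls P.ty P.p (cor (zz x)) G, g = (N : ℤ) - 1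
        · rw [if_pos ⟨h1, h2⟩]
          show _ = _ * (if _ then _ else _)
          rw [if_pos h2]
        · rw [if_neg fun h => h2 h.2]
          show _ = _ * (if _ then _ else _)
          rw [if_neg h2, mul_zero]
      · rw [if_neg h1, if_neg fun h => h1 h.1]
    rw [h0, sum_rg hN]
    have hp : (∏ k : Fin (P :: D).length, kp (c k)) = kp (c 0) * ∏ k : Fin D.length,
        kp (c k.succ) := Fin.prod_univ_succ _
    rw [hp, mul_assoc]
    congr 1
    refine Eq.trans ?_ (congrArg (fun z => (∏ k : Fin D.length, kp (c k.succ)) * z)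
      ((Fin.consEquiv (fun _ : Fin (D.length + 1) => Fin 6 → Fin N)).sum_comp
      (fun a : Fin (D.length + 1) → Fin 6 → Fin N =>
        if Sol (P :: D) (fun k => zz (a k)) G ((N : ℤ) - 1) then
          ∏ k : Fin (D.length + 1), t3 (Fx N (c k) (wf f k)) (zz (a k)) else 0)))
    rw [Fintype.sum_prod_type, Finset.mul_sum]
    refine Finset.sum_congr rfl fun x _ => ?_
    by_cases hx : n1 (zz x) + n2 (zz x) = (N : ℤ) - 1 ∧
      (∀ g ∈ cls P.ty P.p (cor (zz x)) G, g = (N : ℤ) - 1)
    · rw [if_pos hx.1]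
      have hΦ : Φ (cor (zz x)) = SG (toM N D (fun k => c k.succ) (fun k => f k.succ))
          (stp P.ty P.p (cor (zz x)) G) := if_pos hx.2
      rw [hΦ, ih]
      rw [Finset.mul_sum, Finset.mul_sum, Finset.mul_sum]
      refine Finset.sum_congr rfl fun y _ => ?_
      have h2 : (Sol (P :: D) (fun k => zz ((Fin.consEquiv (fun _ : Fin (D.length + 1) =>
          Fin 6 → Fin N)) (x, y) k)) G ((N : ℤ) - 1)) ↔
          Sol D (fun k => zz (y k)) (stp P.ty P.p (cor (zz x)) G) ((N : ℤ) - 1) := by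
        simp only [Sol]
        constructor
        · rintro ⟨_, _, h⟩
          exact h
        · intro h
          exact ⟨hx.1, hx.2, h⟩
      by_cases hs : Sol D (fun k => zz (y k)) (stp P.ty P.p (cor (zz x)) G) ((N : ℤ) - 1)
      · rw [if_pos hs, if_pos (h2.2 hs)]
        have h3 := Fin.prod_univ_succ (fun k : Fin (D.length + 1) => t3 (Fx N (c k) (wf f k))
          (zz ((Fin.consEquiv (fun _ : Fin (D.length + 1) => Fin 6 → Fin N)) (x, y) k)))
        have h4 : ∏ k : Fin (D.length + 1), t3 (Fx N (c k) (wf f k))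
          (zz ((Fin.consEquiv (fun _ : Fin (D.length + 1) => Fin 6 → Fin N)) (x, y) k)) =
          t3 (Fx N (c 0) (wf f 0)) (zz x) *
            ∏ k, t3 (Fx N (c k.succ) (wf (fun k => f k.succ) k)) (zz (y k)) := h3
        rw [h4]
        show t3 (Fx N (c 0) (wf f 0)) (zz x) * _ = _
        ring
      · rw [if_neg hs, if_neg (fun h => hs (h2.1 h)), mul_zero, mul_zero]
    · symm
      rw [Finset.mul_sum]
      have hz : ∀ y ∈ (Finset.univ : Finset (Fin D.length → Fin 6 → Fin N)),
          (∏ k : Fin D.length, kp (c k.succ)) *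
          (if Sol (P :: D) (fun k => zz ((Fin.consEquiv (fun _ : Fin (D.length + 1) =>
            Fin 6 → Fin N)) (x, y) k)) G ((N : ℤ) - 1) then
            ∏ k : Fin (D.length + 1), t3 (Fx N (c k) (wf f k))
              (zz ((Fin.consEquiv (fun _ : Fin (D.length + 1) => Fin 6 → Fin N)) (x, y) k))
            else 0) = 0 := by
        intro y _
        rw [if_neg, mul_zero]
        intro h
        simp only [Sol] at h
        exact hx ⟨h.1, h.2.1⟩
      rw [Finset.sum_eq_zero hz]
      by_cases h1 : n1 (zz x) + n2 (zz x) = (N : ℤ) - 1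
      · rw [if_pos h1]
        have : Φ (cor (zz x)) = 0 := if_neg fun h => hx ⟨h1, h⟩
        rw [this, mul_zero]
      · rw [if_neg h1]

/-- **the Kashaev invariant of a partially augmented link as a state sum** -/
theorem run_lnx {N : ℕ} (h : 0 < N) (D : List Pc) (c : Fin D.length → Bool)
    (f : Fin D.length → Bool × ℕ) (hV : Val D 1) :
    ∃ θ : ℂ, ‖θ‖ = 1 ∧ run N (rt N) (lnx D c f) (fun l => if l = [⟨0, h⟩] then 1 else 0) [⟨0, h⟩] =
      θ * N ^ D.length * (∏ k, kp (c k)) * ZX N D c (wf f) := by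
  obtain ⟨θ, hθ, hr⟩ := Pool.Agent.Q239.KN.task_JG Pool.Agent.Q239.KN.task_GG
    Pool.Agent.Q299.KN.task_TGall Pool.Agent.Q299.KN.task_ZG N h (toM N D c f) (ok_toM h D c f)
    (vag_toM N D c f 1 hV)
  refine ⟨θ, hθ, ?_⟩
  rw [flat_toM, len_toM, unrM h] at hr
  rw [hr, ZX]
  ring

end Pool.Agent.H760.MX
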