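import Pool.Agent.H760.MX.Bl

/-!
# Partially augmented planar shadows: the modulus of the Kashaev invariant

Adapted from `Q99/HU/Fin.lean` (`fin_mod`).
-/

set_option autoImplicit false

namespace Pool.Agent.H760.MX

open Finset Filter Topology MeasureTheory
open Pool.Agent.W715.VC (rt)
open Pool.Agent.W709.QAT (Piece run)
open Pool.Agent.Q99.FAL (Pc Ty Val Pri Pos AS Sol Out c6 fV n1 n2 cor dn)
open Pool.Agent.Q99.HT
open Pool.Agent.Q99.HU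

/-- the Kashaev invariant of the link of `D` with the circles `cc` and the crossings `f` -/
noncomputable def kasX (N : ℕ) (D : List Pc) (cc : Fin D.length → Bool)
    (f : Fin D.length → Bool × ℕ) : ℂ :=
  if h : 0 < N then run N (rt N) (lnx D cc f) (fun l => if l = [⟨0, h⟩] then 1 else 0) [⟨0, h⟩]
  else 0

theorem kp_ne (c : Bool) : kp c ≠ 0 := by
  have hpi : (Real.pi : ℂ) ≠ 0 := by exact_mod_cast Real.pi_ne_zero
  unfold kp
  split_ifs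
  · exact one_ne_zero
  · exact div_ne_zero one_ne_zero hpi

/-- **the modulus** -/
theorem finX_mod (D : List Pc) (h1 : Val D 1) (cc : Fin D.length → Bool)
    (f : Fin D.length → Bool × ℕ)
    (x : Fin D.length → Fin 6 → ℂ) (hx : VI x = 2 * Real.pi * (PIX cc (wf f) x).re) (z : ℂ)
    (hz : z ≠ 0)
    (hlim : Tendsto (fun N : ℕ => (N : ℂ) ^ D.length * ZX N D cc (wf f) /
      (N * (√N : ℝ) * (sgX cc N * Complex.exp (N * PIX cc (wf f) x)))) atTop (𝓝 z)) :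
    ∃ c : ℝ, 0 < c ∧ Tendsto (fun N : ℕ => ‖kasX N D cc f‖ /
        (N * √N * Real.exp (N * (VI x / (2 * Real.pi))))) atTop (𝓝 c) := by
  have hpi := Real.pi_pos
  have hk0 : (∏ k, kp (cc k)) ≠ 0 := Finset.prod_ne_zero_iff.2 fun k _ => kp_ne _
  refine ⟨‖z‖ * ‖∏ k, kp (cc k)‖, mul_pos (norm_pos_iff.2 hz) (norm_pos_iff.2 hk0), ?_⟩
  refine ((hlim.norm).mul_const ‖∏ k, kp (cc k)‖).congr' ?_
  filter_upwards [eventually_ge_atTop 1] with N hN
  have hN0 : 0 < N := hN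
  have hN' : (0 : ℝ) < N := by exact_mod_cast hN0
  obtain ⟨θ, hθ, he⟩ := run_lnx hN0 D cc f h1
  have hk : ‖kasX N D cc f‖ = (N : ℝ) ^ D.length * ‖∏ k, kp (cc k)‖ * ‖ZX N D cc (wf f)‖ := by
    unfold kasX
    rw [dif_pos hN0, he, norm_mul, norm_mul, norm_mul, hθ, one_mul, norm_pow,
      Complex.norm_natCast]
  have hE' : VI x / (2 * Real.pi) = (PIX cc (wf f) x).re := by rw [hx]; field_simp
  rw [hk, hE', norm_div, norm_mul, norm_mul, norm_mul, norm_mul, norm_pow, sgX_norm, one_mul,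
    Complex.norm_natCast, Complex.norm_real,
    Real.norm_of_nonneg (Real.sqrt_nonneg _), Complex.norm_exp]
  have e3 : ((N : ℂ) * PIX cc (wf f) x).re = N * (PIX cc (wf f) x).re := by
    simp
  rw [e3]
  ring

/-- **the volume conjecture for partially augmented planar shadows** -/
theorem vcX (D : List Pc) (h1 : Val D 1) (h2 : Pri D 1) (h3 : D ≠ [])
    (cc : Fin D.length → Bool) (a : Fin D.length → Fin 6 → ℝ) (ha : Mx D a) (hq : Dmx D cc a) :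
    ∃ ρ0 : ℝ, 0 < ρ0 ∧ ∀ ρ : ℝ, 0 < ρ → ρ ≤ ρ0 → ∃ W0 C : ℝ, 1 ≤ W0 ∧
    ∀ (f : Fin D.length → Bool × ℕ) (Wm : ℝ), W0 ≤ Wm → (∀ k, cc k = false → Wm ≤ (f k).2) →
    ∃ x : Fin D.length → Fin 6 → ℂ, CrIX D cc (wf f) x ∧ (∀ s i, ‖x s i - a s i‖ < ρ) ∧
      (∀ x', CrIX D cc (wf f) x' → (∀ s i, ‖x' s i - a s i‖ < ρ) → x' = x) ∧
      (∀ s, cc s = true → n1 (x s) = n2 (x s)) ∧
      |VI x - 2 * Real.pi * fV a| ≤ C / Wm ^ 2 ∧
      ∃ z : ℝ, 0 < z ∧ Tendsto (fun N : ℕ => ‖kasX N D cc f‖ /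
        (N * √N * Real.exp (N * (VI x / (2 * Real.pi))))) atTop (𝓝 z) := by
  obtain ⟨ρ0, hρ0, H⟩ := finX D h1 h2 h3 cc a ha hq
  refine ⟨ρ0, hρ0, fun ρ hρ hρ' => ?_⟩
  obtain ⟨W0, C, hW0, G⟩ := H ρ hρ hρ'
  refine ⟨W0, C, hW0, fun f Wm hWm hf => ?_⟩
  obtain ⟨x, g1, g2, g3, g4, -, g5, g6, z, hz, g7⟩ := G (wf f) Wm hWm fun k hk => by
    rw [Pool.Agent.Q99.HU.wf_abs]
    exact hf k hk
  exact ⟨x, g1, g2, g3, g4, g6, finX_mod D h1 cc f x g5 z hz g7⟩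

end Pool.Agent.H760.MX
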